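import Pool.Agent.H76.PP.Df0

/-!
Definitions for block M of MP_78d38b_PP (no row).
-/

set_option autoImplicit false
set_option linter.unusedSectionVars false

open NumberField IsDedekindDomain H76PP

namespace H36PP

variable (K : Type) [Field K] [NumberField K]

/-- The pairs of height at most `X` for which the discriminant is divisible by the square of a large
prime. -/
def Tail (M : ℕ) (X : ℝ) : Set (𝓞 K × 𝓞 K) :=
  {p | p ∈ Bx K X ∧ p.1 ≠ 0 ∧ dsc p.1 p.2 ≠ 0 ∧ ∃ v : HeightOneSpectrum (𝓞 K),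
    (6 : 𝓞 K) ∉ v.asIdeal ∧ M < Nv v ∧ dsc p.1 p.2 ∈ v.asIdeal ^ 2}

/-- Upper bound for the number of lattice points in residue classes (rows of block L). -/
def LatU (C : ℝ) : Prop :=
  ∀ (b : Ideal (𝓞 K)), b ≠ ⊥ → ∀ (a₀ : 𝓞 K) (T : ℝ), 0 ≤ T →
    ({a : 𝓞 K | a ∈ bx K T ∧ a - a₀ ∈ b}.ncard : ℝ) ≤
      C * (T ^ Module.finrank ℚ K / (Ideal.absNorm b : ℝ) + 1)

/-- Lower bound for the number of lattice points in residue classes (rows of block L). -/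
def LatL (c : ℝ) : Prop :=
  ∀ (b : Ideal (𝓞 K)), b ≠ ⊥ → ∃ T₀ : ℝ, ∀ T : ℝ, T₀ ≤ T → ∀ a₀ : 𝓞 K,
    c * (T ^ Module.finrank ℚ K / (Ideal.absNorm b : ℝ)) ≤
      ({a : 𝓞 K | a ∈ bx K T ∧ a - a₀ ∈ b}.ncard : ℝ)

variable {K}

/-- The pair of residues of a pair. -/
def rs (I : Ideal (𝓞 K)) (p : 𝓞 K × 𝓞 K) : (𝓞 K ⧸ I) × (𝓞 K ⧸ I) :=
  (Ideal.Quotient.mk I p.1, Ideal.Quotient.mk I p.2)

/-- The set `P` of pairs is a union of residue classes modulo `I`, at least `d (N I)^2` of them. -/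
def Dens (I : Ideal (𝓞 K)) (P : Set (𝓞 K × 𝓞 K)) (d : ℝ) : Prop :=
  (∀ p p' : 𝓞 K × 𝓞 K, rs I p = rs I p' → p ∈ P → p' ∈ P) ∧
    d * (Ideal.absNorm I : ℝ) ^ 2 ≤ ((rs I '' P).ncard : ℝ)

/-- The cubic polynomials of the type of the auxiliary primes: a linear factor times an irreducible
one. -/
def SqT (k : Type*) [Field k] : Set (k × k) :=
  {p | ∃ t : k, t ^ 3 + p.1 * t + p.2 = 0 ∧ ¬ IsSquare (-3 * t ^ 2 - 4 * p.1)}

/-- The pairs with nonzero discriminant. -/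
def SqO (R : Type*) [CommRing R] : Set (R × R) := {p | dsc p.1 p.2 ≠ 0}

/-- The condition at `q₀`. -/
def Pq (v : HeightOneSpectrum (𝓞 K)) : Set (𝓞 K × 𝓞 K) :=
  {p | ∀ t : 𝓞 K, t ^ 3 + p.1 * t + p.2 ∉ v.asIdeal}

/-- The condition at the auxiliary primes. -/
def Pt (v : HeightOneSpectrum (𝓞 K)) : Set (𝓞 K × 𝓞 K) :=
  {p | ∃ t : 𝓞 K, t ^ 3 + p.1 * t + p.2 ∈ v.asIdeal ∧
    ∀ s : 𝓞 K, -3 * t ^ 2 - 4 * p.1 - s ^ 2 ∉ v.asIdeal}

/-- The condition at the primes above `6`. -/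
def P6 (v : HeightOneSpectrum (𝓞 K)) : Set (𝓞 K × 𝓞 K) :=
  {p | p.1 - 1 ∈ v.asIdeal ∧ p.2 - 1 ∈ v.asIdeal}

/-- The condition at the other small primes. -/
def Po (v : HeightOneSpectrum (𝓞 K)) : Set (𝓞 K × 𝓞 K) :=
  {p | dsc p.1 p.2 ∉ v.asIdeal ^ 2}

end H36PP
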