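import Pool.Agent.H76.PP.Lb

/-!
Row Bu (MP_78d38b_PP, block M). The number of pairs of height at most `X`. Use only the STATEMENTS of H76/PP/Lb (`bx_finite`, `bx_upper`).

PROOF. `Bx K X = bx K (X^2) ×ˢ bx K (X^3)`, `Set.ncard_prod`. For `X ≥ 1`, with the constant `C` of `bx_upper`,
`ncard ≤ C (X^2)^n * C (X^3)^n = C^2 X^(5n)`.
-/

set_option autoImplicit false
set_option linter.unusedSectionVars false

open NumberField IsDedekindDomain H76PP

namespace H36PP

variable (K : Type) [Field K] [NumberField K]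

theorem Bx_upper : ∃ C : ℝ, 0 < C ∧ ∀ X : ℝ, 1 ≤ X →
    ((Bx K X).ncard : ℝ) ≤ C * X ^ (5 * Module.finrank ℚ K) := by
  obtain ⟨C, hC, h⟩ := bx_upper K
  refine ⟨C ^ 2, by positivity, fun X hX => ?_⟩
  have h1 : Bx K X = bx K (X ^ 2) ×ˢ bx K (X ^ 3) := by
    ext p
    rfl
  rw [h1, Set.ncard_prod]
  push_cast
  have h2 := h (X ^ 2) (one_le_pow₀ hX)
  have h3 := h (X ^ 3) (one_le_pow₀ hX)
  have hX0 : 0 ≤ X := by linarith
  calc ((bx K (X ^ 2)).ncard : ℝ) * ((bx K (X ^ 3)).ncard : ℝ)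
      ≤ (C * (X ^ 2) ^ (Module.finrank ℚ K)) * (C * (X ^ 3) ^ (Module.finrank ℚ K)) := by
        gcongr
    _ = C ^ 2 * X ^ (5 * Module.finrank ℚ K) := by
        rw [← pow_mul, ← pow_mul]
        have h5 : X ^ (5 * Module.finrank ℚ K) = X ^ (2 * Module.finrank ℚ K) *
            X ^ (3 * Module.finrank ℚ K) := by
          rw [← pow_add]
          congr 1
          ring
        rw [h5]
        ring

end H36PP
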