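import Pool.Agent.H36.PP.Df

/-!
Row Dn (MP_78d38b_PP, block M). Densities: Chinese remainder theorem and lattice points.

PROOF of dens_mul. Periodicity: if `rs (I * J) p = rs (I * J) p'` then `p.1 - p'.1 ∈ I * J ≤ I`, so `rs I p = rs I p'` and the same for `J`
(`Ideal.Quotient.eq`, `Ideal.mul_le_right`, ...). Count: the map `rs (I*J) '' (P ∩ P') → (rs I '' P) ×ˢ (rs J '' P')`,
`rs (I*J) r ↦ (rs I r, rs J r)` (well defined: use `Ideal.Quotient.factor` in the two coordinates) is surjective: given `p ∈ P`,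
`p' ∈ P'`, the Chinese remainder theorem (`I ⊔ J = ⊤`: `1 = i + j`, `r.1 = j p.1 + i p'.1`, `r.2 = j p.2 + i p'.2`) gives `r` with `rs I r = rs I p`,
`rs J r = rs J p'`, so `r ∈ P ∩ P'` by periodicity. All sets are finite (`𝓞 K ⧸ I` is finite for `I ≠ ⊥`; `Ideal.finiteQuotientOfFreeOfNeBot`
/ `Ideal.absNorm`), so `ncard (rs I '' P) * ncard (rs J '' P') ≤ ncard (rs (I*J) '' (P ∩ P'))` and
`d d' (N I N J)^2 ≤ ...` by `map_mul` and `0 ≤ d, d'`.

PROOF of dens_prod. Induction on `F` (`Finset.induction_on`). Empty: `I = ⊤ = 1`, `P = univ`, `𝓞 K ⧸ ⊤` has one element, `d = 1`. Step: `dens_mul` with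
`I a` and `∏ I v`, coprime by `IsCoprime.prod_right` (for ideals `IsCoprime I J ↔ I ⊔ J = ⊤`: `Ideal.isCoprime_iff_sup_eq`), both nonzero
(`Finset.prod_ne_zero_iff`).

PROOF of dens_lower. `N := absNorm I > 0`, `n := finrank ℚ K`. `T₀` from the hypothesis for `I`; `X₀ := max 1 T₀`. Let `X ≥ X₀`: then `X^2 ≥ X ≥ T₀`
and `X^3 ≥ T₀`. For a class `z = rs I p` with `p ∈ P` the set `{r ∈ Bx K X | rs I r = z}` is the product
`{a ∈ bx K (X^2) | a - p.1 ∈ I} ×ˢ {b ∈ bx K (X^3) | b - p.2 ∈ I}` (`Set.ncard_prod`), it has at least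
`(c X^(2n) / N) (c X^(3n) / N) = c^2 X^(5n) / N^2` elements, it is contained in `{r ∈ Bx K X | r ∈ P}`, and these sets are disjoint for different
`z`. `{r ∈ Bx K X | r ∈ P}` is finite (`Bx_finite`, row Nb of this block, or hypothesis `hf`). So the number is at least
`ncard (rs I '' P) * c^2 X^(5n) / N^2 ≥ d c^2 X^(5n)` (sum over the finite set of classes: e.g. `Set.ncard` via `Finset.card_eq_sum_card_fiberwise`
after `Set.Finite.toFinset`).
-/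

set_option autoImplicit false
set_option linter.unusedSectionVars false

open NumberField IsDedekindDomain H76PP

namespace H36PP

variable {K : Type} [Field K] [NumberField K]

theorem Dn_rs (I : Ideal (𝓞 K)) (p p' : 𝓞 K × 𝓞 K) :
    rs I p = rs I p' ↔ p.1 - p'.1 ∈ I ∧ p.2 - p'.2 ∈ I := by
  unfold rs
  rw [Prod.mk.injEq, Ideal.Quotient.eq, Ideal.Quotient.eq]

theorem Dn_fin {I : Ideal (𝓞 K)} (hI : I ≠ ⊥) (S : Set ((𝓞 K ⧸ I) × (𝓞 K ⧸ I))) : S.Finite := by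
  haveI : Finite (𝓞 K ⧸ I) := Ideal.finiteQuotientOfFreeOfNeBot I hI
  exact Set.toFinite S

/-- the reduction of pairs of residues -/
def Dn_fac {I I' : Ideal (𝓞 K)} (h : I ≤ I') (z : (𝓞 K ⧸ I) × (𝓞 K ⧸ I)) : (𝓞 K ⧸ I') × (𝓞 K ⧸ I') :=
  (Ideal.Quotient.factor h z.1, Ideal.Quotient.factor h z.2)

theorem Dn_fac_rs {I I' : Ideal (𝓞 K)} (h : I ≤ I') (p : 𝓞 K × 𝓞 K) : Dn_fac h (rs I p) = rs I' p := rfl

theorem dens_mul {I J : Ideal (𝓞 K)} (hI : I ≠ ⊥) (hJ : J ≠ ⊥) (hIJ : IsCoprime I J)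
    {P P' : Set (𝓞 K × 𝓞 K)} {d d' : ℝ} (hd : 0 ≤ d) (hd' : 0 ≤ d') (h : Dens I P d)
    (h' : Dens J P' d') : Dens (I * J) (P ∩ P') (d * d') := by
  have hIJ0 : I * J ≠ ⊥ := mul_ne_zero hI hJ
  have hle1 : I * J ≤ I := Ideal.mul_le_left
  have hle2 : I * J ≤ J := Ideal.mul_le_right
  have hper : ∀ p p' : 𝓞 K × 𝓞 K, rs (I * J) p = rs (I * J) p' → p ∈ P ∩ P' → p' ∈ P ∩ P' := by
    intro p p' hp hpP
    have h1 := congrArg (Dn_fac hle1) hp
    have h2 := congrArg (Dn_fac hle2) hp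
    rw [Dn_fac_rs, Dn_fac_rs] at h1 h2
    exact ⟨h.1 p p' h1 hpP.1, h'.1 p p' h2 hpP.2⟩
  refine ⟨hper, ?_⟩
  have hsub : (rs I '' P) ×ˢ (rs J '' P') ⊆ (fun z => (Dn_fac hle1 z, Dn_fac hle2 z)) '' (rs (I * J) '' (P ∩ P')) := by
    rintro ⟨z, z'⟩ ⟨⟨p, hp, hz⟩, ⟨p', hp', hz'⟩⟩
    simp only at hz hz'
    obtain ⟨a, ha, b, hb, hab⟩ := Ideal.isCoprime_iff_exists.1 hIJ
    obtain ⟨r, hr⟩ : ∃ r : 𝓞 K × 𝓞 K, r = (b * p.1 + a * p'.1, b * p.2 + a * p'.2) := ⟨_, rfl⟩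
    have hr1 : rs I r = rs I p := by
      rw [Dn_rs, hr]
      constructor
      · have : b * p.1 + a * p'.1 - p.1 = a * (p'.1 - p.1) := by
          have e1 : p.1 = (a + b) * p.1 := by rw [hab, one_mul]
          calc b * p.1 + a * p'.1 - p.1 = b * p.1 + a * p'.1 - (a + b) * p.1 := by rw [← e1]
            _ = _ := by ring
        show b * p.1 + a * p'.1 - p.1 ∈ I
        rw [this]
        exact I.mul_mem_right _ ha
      · have : b * p.2 + a * p'.2 - p.2 = a * (p'.2 - p.2) := by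
          have e1 : p.2 = (a + b) * p.2 := by rw [hab, one_mul]
          calc b * p.2 + a * p'.2 - p.2 = b * p.2 + a * p'.2 - (a + b) * p.2 := by rw [← e1]
            _ = _ := by ring
        show b * p.2 + a * p'.2 - p.2 ∈ I
        rw [this]
        exact I.mul_mem_right _ ha
    have hr2 : rs J r = rs J p' := by
      rw [Dn_rs, hr]
      constructor
      · have : b * p.1 + a * p'.1 - p'.1 = b * (p.1 - p'.1) := by
          have e1 : p'.1 = (a + b) * p'.1 := by rw [hab, one_mul]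
          calc b * p.1 + a * p'.1 - p'.1 = b * p.1 + a * p'.1 - (a + b) * p'.1 := by rw [← e1]
            _ = _ := by ring
        show b * p.1 + a * p'.1 - p'.1 ∈ J
        rw [this]
        exact J.mul_mem_right _ hb
      · have : b * p.2 + a * p'.2 - p'.2 = b * (p.2 - p'.2) := by
          have e1 : p'.2 = (a + b) * p'.2 := by rw [hab, one_mul]
          calc b * p.2 + a * p'.2 - p'.2 = b * p.2 + a * p'.2 - (a + b) * p'.2 := by rw [← e1]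
            _ = _ := by ring
        show b * p.2 + a * p'.2 - p'.2 ∈ J
        rw [this]
        exact J.mul_mem_right _ hb
    refine ⟨rs (I * J) r, ⟨r, ⟨h.1 p r hr1.symm hp, h'.1 p' r hr2.symm hp'⟩, rfl⟩, ?_⟩
    show (Dn_fac hle1 (rs (I * J) r), Dn_fac hle2 (rs (I * J) r)) = (z, z')
    rw [Dn_fac_rs, Dn_fac_rs, hr1, hr2, hz, hz']
  have hfin : (rs (I * J) '' (P ∩ P')).Finite := Dn_fin hIJ0 _
  have h1 : (rs I '' P).ncard * (rs J '' P').ncard ≤ (rs (I * J) '' (P ∩ P')).ncard := by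
    rw [← Set.ncard_prod]
    exact (Set.ncard_le_ncard hsub (hfin.image _)).trans (Set.ncard_image_le hfin)
  have h2 : ((rs I '' P).ncard : ℝ) * ((rs J '' P').ncard : ℝ) ≤ ((rs (I * J) '' (P ∩ P')).ncard : ℝ) := by
    exact_mod_cast h1
  refine le_trans ?_ h2
  rw [map_mul, Nat.cast_mul]
  calc d * d' * ((Ideal.absNorm I : ℝ) * (Ideal.absNorm J : ℝ)) ^ 2
      = (d * (Ideal.absNorm I : ℝ) ^ 2) * (d' * (Ideal.absNorm J : ℝ) ^ 2) := by ring
    _ ≤ _ := mul_le_mul h.2 h'.2 (by positivity) (by positivity)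

theorem dens_prod {ι : Type*} (F : Finset ι) (I : ι → Ideal (𝓞 K)) (P : ι → Set (𝓞 K × 𝓞 K))
    (d : ι → ℝ) (hI : ∀ i ∈ F, I i ≠ ⊥) (hc : ∀ i ∈ F, ∀ j ∈ F, i ≠ j → IsCoprime (I i) (I j))
    (hd : ∀ i ∈ F, 0 ≤ d i) (h : ∀ i ∈ F, Dens (I i) (P i) (d i)) :
    Dens (∏ i ∈ F, I i) {p | ∀ i ∈ F, p ∈ P i} (∏ i ∈ F, d i) := by
  classical
  induction F using Finset.induction_on with
  | empty =>
    rw [Finset.prod_empty, Finset.prod_empty]
    refine ⟨fun p p' _ _ i hi => absurd hi (Finset.notMem_empty i), ?_⟩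
    have h1 : (1 : Ideal (𝓞 K)) ≠ ⊥ := one_ne_zero
    rw [map_one, Nat.cast_one, one_pow, mul_one]
    have h2 : 0 < (rs (1 : Ideal (𝓞 K)) '' {p : 𝓞 K × 𝓞 K | ∀ i ∈ (∅ : Finset ι), p ∈ P i}).ncard := by
      rw [Set.ncard_pos (Dn_fin h1 _)]
      exact ⟨rs 1 (0, 0), ⟨(0, 0), fun i hi => absurd hi (Finset.notMem_empty i), rfl⟩⟩
    exact_mod_cast h2
  | insert a s ha ih =>
    rw [Finset.prod_insert ha, Finset.prod_insert ha]
    have h1 := ih (fun i hi => hI i (Finset.mem_insert_of_mem hi))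
      (fun i hi j hj => hc i (Finset.mem_insert_of_mem hi) j (Finset.mem_insert_of_mem hj))
      (fun i hi => hd i (Finset.mem_insert_of_mem hi)) (fun i hi => h i (Finset.mem_insert_of_mem hi))
    have h2 := h a (Finset.mem_insert_self a s)
    have h3 : {p : 𝓞 K × 𝓞 K | ∀ i ∈ insert a s, p ∈ P i} = P a ∩ {p | ∀ i ∈ s, p ∈ P i} := by
      ext p
      constructor
      · intro hp
        exact ⟨hp a (Finset.mem_insert_self a s), fun i hi => hp i (Finset.mem_insert_of_mem hi)⟩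
      · rintro ⟨hp1, hp2⟩ i hi
        rcases Finset.mem_insert.1 hi with rfl | hi
        · exact hp1
        · exact hp2 i hi
    rw [h3]
    refine dens_mul (hI a (Finset.mem_insert_self a s)) ?_ ?_ (hd a (Finset.mem_insert_self a s)) ?_ h2 h1
    · exact Finset.prod_ne_zero_iff.2 fun i hi => hI i (Finset.mem_insert_of_mem hi)
    · refine IsCoprime.prod_right fun i hi => ?_
      refine hc a (Finset.mem_insert_self a s) i (Finset.mem_insert_of_mem hi) ?_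
      rintro rfl
      exact ha hi
    · exact Finset.prod_nonneg fun i hi => hd i (Finset.mem_insert_of_mem hi)

theorem dens_lower {c : ℝ} (hc : 0 ≤ c) (hL : LatL K c) (hf : ∀ X : ℝ, (Bx K X).Finite)
    {I : Ideal (𝓞 K)} (hI : I ≠ ⊥) {P : Set (𝓞 K × 𝓞 K)} {d : ℝ} (h : Dens I P d) :
    ∃ X₀ : ℝ, ∀ X : ℝ, X₀ ≤ X → c ^ 2 * d * X ^ (5 * Module.finrank ℚ K) ≤
      ({p : 𝓞 K × 𝓞 K | p ∈ Bx K X ∧ p ∈ P}.ncard : ℝ) := by
  classical
  obtain ⟨T₀, hT₀⟩ := hL I hI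
  refine ⟨max 1 T₀, fun X hX => ?_⟩
  have hX1 : 1 ≤ X := (le_max_left _ _).trans hX
  have hXT : T₀ ≤ X := (le_max_right _ _).trans hX
  have hX0 : 0 ≤ X := by linarith
  have hX2 : T₀ ≤ X ^ 2 := hXT.trans (le_self_pow₀ hX1 two_ne_zero)
  have hX3 : T₀ ≤ X ^ 3 := hXT.trans (le_self_pow₀ hX1 three_ne_zero)
  obtain ⟨n, hn⟩ : ∃ n, n = Module.finrank ℚ K := ⟨_, rfl⟩
  obtain ⟨N, hN⟩ : ∃ N : ℝ, N = (Ideal.absNorm I : ℝ) := ⟨_, rfl⟩
  have hN0 : 0 < N := by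
    rw [hN]
    have : Ideal.absNorm I ≠ 0 := fun h => hI (Ideal.absNorm_eq_zero_iff.1 h)
    exact_mod_cast Nat.pos_of_ne_zero this
  have hSfin : {p : 𝓞 K × 𝓞 K | p ∈ Bx K X ∧ p ∈ P}.Finite := (hf X).subset fun p hp => hp.1
  have hZfin : (rs I '' P).Finite := Dn_fin hI _
  have hmaps : ((hSfin.toFinset : Finset (𝓞 K × 𝓞 K)) : Set (𝓞 K × 𝓞 K)).MapsTo (rs I) (hZfin.toFinset : Finset ((𝓞 K ⧸ I) × (𝓞 K ⧸ I))) := by
    intro p hp
    rw [Finset.mem_coe, Set.Finite.mem_toFinset] at hp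
    rw [Finset.mem_coe, Set.Finite.mem_toFinset]
    exact ⟨p, hp.2, rfl⟩
  have hcard := Finset.card_eq_sum_card_fiberwise hmaps
  have hfib : ∀ z ∈ hZfin.toFinset, c ^ 2 * X ^ (5 * n) / N ^ 2 ≤ ((hSfin.toFinset.filter fun p => rs I p = z).card : ℝ) := by
    intro z hz
    rw [Set.Finite.mem_toFinset] at hz
    obtain ⟨p, hp, rfl⟩ := hz
    have h1 := hT₀ (X ^ 2) hX2 p.1
    have h2 := hT₀ (X ^ 3) hX3 p.2
    rw [← hn, ← hN] at h1 h2
    have hsub : {a : 𝓞 K | a ∈ bx K (X ^ 2) ∧ a - p.1 ∈ I} ×ˢ {b : 𝓞 K | b ∈ bx K (X ^ 3) ∧ b - p.2 ∈ I} ⊆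
        ((hSfin.toFinset.filter fun r => rs I r = rs I p : Finset (𝓞 K × 𝓞 K)) : Set (𝓞 K × 𝓞 K)) := by
      rintro ⟨a, b⟩ ⟨⟨ha1, ha2⟩, ⟨hb1, hb2⟩⟩
      rw [Finset.mem_coe, Finset.mem_filter, Set.Finite.mem_toFinset]
      have hr : rs I (a, b) = rs I p := (Dn_rs I (a, b) p).2 ⟨ha2, hb2⟩
      exact ⟨⟨⟨ha1, hb1⟩, h.1 p (a, b) hr.symm hp⟩, hr⟩
    have h3 := Set.ncard_le_ncard hsub (Finset.finite_toSet _)
    rw [Set.ncard_prod, Set.ncard_coe_finset] at h3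
    have h4 : ((({a : 𝓞 K | a ∈ bx K (X ^ 2) ∧ a - p.1 ∈ I}.ncard : ℕ) : ℝ) * (({b : 𝓞 K | b ∈ bx K (X ^ 3) ∧ b - p.2 ∈ I}.ncard : ℕ) : ℝ))
        ≤ ((hSfin.toFinset.filter fun r => rs I r = rs I p).card : ℝ) := by exact_mod_cast h3
    refine le_trans ?_ h4
    calc c ^ 2 * X ^ (5 * n) / N ^ 2 = (c * ((X ^ 2) ^ n / N)) * (c * ((X ^ 3) ^ n / N)) := by
          rw [← pow_mul, ← pow_mul, show 5 * n = 2 * n + 3 * n by ring, pow_add]
          field_simp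
      _ ≤ _ := mul_le_mul h1 h2 (by positivity) (Nat.cast_nonneg _)
  have h5 : ((rs I '' P).ncard : ℝ) * (c ^ 2 * X ^ (5 * n) / N ^ 2) ≤ ({p : 𝓞 K × 𝓞 K | p ∈ Bx K X ∧ p ∈ P}.ncard : ℝ) := by
    rw [Set.ncard_eq_toFinset_card _ hSfin, Set.ncard_eq_toFinset_card _ hZfin, hcard, Nat.cast_sum, ← nsmul_eq_mul]
    exact Finset.card_nsmul_le_sum _ _ _ hfib
  refine le_trans ?_ h5
  rw [← hn]
  have h6 := h.2
  rw [← hN] at h6
  calc c ^ 2 * d * X ^ (5 * n) = (d * N ^ 2) * (c ^ 2 * X ^ (5 * n) / N ^ 2) := by field_simp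
    _ ≤ _ := mul_le_mul_of_nonneg_right h6 (by positivity)

end H36PP
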