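import Pool.Agent.H36.PP.Df

/-!
Row Lo (MP_78d38b_PP, block M). Counting modulo the square of a prime `v` not dividing `6`.

PROOF of card_SqO. `R := 𝓞 K ⧸ v.asIdeal ^ 2`, `q := Nv v`. `Nat.card R = q^2` (`Ideal.absNorm_apply`, `Submodule.cardQuot_apply`, `map_pow`;
`Nat.card (𝓞 K ⧸ I) = Ideal.absNorm I`), it is finite (`q ≠ 0`). Let `P` be the kernel of the surjection `R → 𝓞 K ⧸ v.asIdeal`
(`Ideal.Quotient.factor`); the fibres of this surjection all have `Nat.card P` elements, so `Nat.card P * q = q^2`, `Nat.card P = q`. Facts: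
(i) an element of `R` not in `P` is a unit: if `x ∉ v` then `v` maximal gives `x y - 1 ∈ v` for some `y`, and then
`x y (2 - x y) - 1 = -(x y - 1)^2 ∈ v ^ 2`. (ii) the product of two elements of `P` is `0`. (iii) `P` is prime, `2, 3, 27 ∉ P` (since
`6 ∉ v`), so `2`, `27` are units.
Let `Z := {p : R × R | dsc p.1 p.2 = 0}`, the complement of `SqO R`; `(SqO R).ncard + Z.ncard = q^4`. Claim `Z.ncard ≤ 3 q^2`.
`Z` is contained in `(P ×ˢ P) ∪ {p ∈ Z | p.1 ∉ P}`: if `p ∈ Z`, `p.1 ∈ P` then `p.1 ^ 3 = 0` by (ii), `27 p.2^2 = 0`, `p.2 ∈ P`. The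
first set has `q^2` elements. For `a ∉ P` there are at most two `b` with `4 a^3 + 27 b^2 = 0`: `27 b^2 = -4 a^3 ∉ P` so `b ∉ P`; if `b'` is
another solution, `27 (b - b')(b + b') = 0`, so `(b - b') (b + b') = 0`; not both factors are in `P`, since their sum `2 b` is not;
so one factor is a unit and the other one is `0`: `b' = b` or `b' = -b`. So the second set has at most `2 q^2` elements (it is
contained in the union over `a` of the pairs `(a, ±b_a)`). Total `q^2 + 2 q^2`.

PROOF of two_classes. If no `B` has `dsc A B ∈ v^2` take `B₀ = 0`. Otherwise let `B₀` be one such; for another `B`,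
`27 (B - B₀) (B + B₀) = dsc A B - dsc A B₀ ∈ v^2`. `B₀ ∉ v`: otherwise `4 A^3 = dsc A B₀ - 27 B₀^2 ∈ v`, but `A ∉ v` and `2 ∉ v`. Not both `B - B₀` and
`B + B₀` are in `v` (else `2 B₀ ∈ v`), and `27 ∉ v`; an element outside the maximal ideal `v` can be cancelled modulo `v^2` (`x y ∈ v^2`, `x ∉ v` implies
`y ∈ v^2`: with `x z - 1 ∈ v`, `x z (2 - x z) = 1 - (x z - 1)^2`, `y = y (x z (2 - x z)) + y (x z - 1)^2`; or `Ideal.IsPrime.mem_pow_mul`
/ `Ideal.IsPrimary`). So one of `B - B₀`, `B + B₀` is in `v^2`.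
-/

set_option autoImplicit false
set_option linter.unusedSectionVars false

open NumberField IsDedekindDomain H76PP

namespace H36PP

variable {K : Type} [Field K] [NumberField K]

theorem Lo_inv {v : HeightOneSpectrum (𝓞 K)} {x : 𝓞 K} (hx : x ∉ v.asIdeal) :
    ∃ z : 𝓞 K, x * z - 1 ∈ v.asIdeal ^ 2 := by
  have hmax := v.isMaximal
  obtain ⟨y, i, hi, hy⟩ := hmax.exists_inv hx
  refine ⟨y * (2 - y * x), ?_⟩
  have h1 : x * (y * (2 - y * x)) - 1 = -(i * i) := by
    have h2 : i = 1 - y * x := by rw [← hy]; ring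
    rw [h2]
    ring
  rw [h1, pow_two]
  exact neg_mem (Ideal.mul_mem_mul hi hi)

theorem Lo_cancel {v : HeightOneSpectrum (𝓞 K)} {x y : 𝓞 K} (hx : x ∉ v.asIdeal)
    (h : x * y ∈ v.asIdeal ^ 2) : y ∈ v.asIdeal ^ 2 := by
  obtain ⟨z, hz⟩ := Lo_inv hx
  have h1 : y = z * (x * y) - y * (x * z - 1) := by ring
  rw [h1]
  exact sub_mem (Ideal.mul_mem_left _ _ h) (Ideal.mul_mem_left _ _ hz)

theorem Lo_two {v : HeightOneSpectrum (𝓞 K)} (h : (6 : 𝓞 K) ∉ v.asIdeal) :
    (2 : 𝓞 K) ∉ v.asIdeal ∧ (3 : 𝓞 K) ∉ v.asIdeal := by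
  constructor
  · intro h2
    apply h
    have : (6 : 𝓞 K) = 3 * 2 := by norm_num
    rw [this]
    exact Ideal.mul_mem_left _ _ h2
  · intro h2
    apply h
    have : (6 : 𝓞 K) = 2 * 3 := by norm_num
    rw [this]
    exact Ideal.mul_mem_left _ _ h2

theorem Lo_27 {v : HeightOneSpectrum (𝓞 K)} (h : (6 : 𝓞 K) ∉ v.asIdeal) :
    (27 : 𝓞 K) ∉ v.asIdeal := by
  intro h2
  have h3 : (27 : 𝓞 K) = 3 ^ 3 := by norm_num
  rw [h3] at h2
  exact (Lo_two h).2 (v.isPrime.mem_of_pow_mem _ h2)

theorem card_SqO {v : HeightOneSpectrum (𝓞 K)} (h : (6 : 𝓞 K) ∉ v.asIdeal) :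
    Nv v ^ 4 ≤ (SqO (𝓞 K ⧸ v.asIdeal ^ 2)).ncard + 3 * Nv v ^ 2 := by
  classical
  have hvne : v.asIdeal ≠ ⊥ := v.ne_bot
  have hle : v.asIdeal ^ 2 ≤ v.asIdeal := Ideal.pow_le_self (by norm_num)
  have hv2ne : v.asIdeal ^ 2 ≠ ⊥ := pow_ne_zero 2 hvne
  set R := 𝓞 K ⧸ v.asIdeal ^ 2 with hR
  set q := Nv v with hq
  have hcardR : Nat.card R = q ^ 2 := by
    rw [hR, ← Submodule.cardQuot_apply, ← Ideal.absNorm_apply, map_pow]
    rfl
  have hcardk : Nat.card (𝓞 K ⧸ v.asIdeal) = q := by
    rw [← Submodule.cardQuot_apply, ← Ideal.absNorm_apply]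
    rfl
  have hfinR : Finite R := Ideal.finiteQuotientOfFreeOfNeBot _ hv2ne
  have hfink : Finite (𝓞 K ⧸ v.asIdeal) := Ideal.finiteQuotientOfFreeOfNeBot _ hvne
  have hqpos : 0 < q := by
    rw [← hcardk]
    exact Nat.card_pos
  let _ : Fintype R := Fintype.ofFinite R
  let π : R →+* (𝓞 K ⧸ v.asIdeal) := Ideal.Quotient.factor hle
  have hπ : ∀ a : 𝓞 K, π (Ideal.Quotient.mk _ a) = Ideal.Quotient.mk _ a := fun a =>
    Ideal.Quotient.factor_mk hle a
  have hπs : Function.Surjective π := by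
    intro y
    obtain ⟨a, rfl⟩ := Ideal.Quotient.mk_surjective y
    exact ⟨Ideal.Quotient.mk _ a, hπ a⟩
  -- the size of the kernel
  have hP : Nat.card (RingHom.ker π) = q := by
    have h1 := Submodule.card_eq_card_quotient_mul_card (RingHom.ker π)
    have h2 : Nat.card (R ⧸ RingHom.ker π) = q := by
      rw [Nat.card_congr (RingHom.quotientKerEquivOfSurjective hπs).toEquiv, hcardk]
    rw [hcardR, h2, pow_two] at h1
    first
      | exact (Nat.eq_of_mul_eq_mul_right hqpos h1).symm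
      | exact (Nat.eq_of_mul_eq_mul_left hqpos h1).symm
  -- units
  have hunit : ∀ x : R, π x ≠ 0 → IsUnit x := by
    intro x hx
    obtain ⟨a, rfl⟩ := Ideal.Quotient.mk_surjective x
    rw [hπ] at hx
    have ha : a ∉ v.asIdeal := fun h1 => hx (Ideal.Quotient.eq_zero_iff_mem.2 h1)
    obtain ⟨z, hz⟩ := Lo_inv ha
    refine IsUnit.of_mul_eq_one (Ideal.Quotient.mk _ z) ?_
    rw [← sub_eq_zero, ← map_mul, ← map_one (Ideal.Quotient.mk (v.asIdeal ^ 2)), ← map_sub]
    exact Ideal.Quotient.eq_zero_iff_mem.2 hz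
  have hnil : ∀ x y : R, π x = 0 → π y = 0 → x * y = 0 := by
    intro x y hx hy
    obtain ⟨a, rfl⟩ := Ideal.Quotient.mk_surjective x
    obtain ⟨b, rfl⟩ := Ideal.Quotient.mk_surjective y
    rw [hπ, Ideal.Quotient.eq_zero_iff_mem] at hx hy
    rw [← map_mul, Ideal.Quotient.eq_zero_iff_mem, pow_two]
    exact Ideal.mul_mem_mul hx hy
  have hmaxv := v.isMaximal
  have hprimev := v.isPrime
  have hdom : IsDomain (𝓞 K ⧸ v.asIdeal) := Ideal.Quotient.isDomain _
  have hnat : ∀ m : ℕ, (m : 𝓞 K) ∉ v.asIdeal → ((m : ℕ) : 𝓞 K ⧸ v.asIdeal) ≠ 0 := by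
    intro m hm h1
    apply hm
    rw [← Ideal.Quotient.eq_zero_iff_mem, map_natCast]
    exact h1
  have h2k : (2 : 𝓞 K ⧸ v.asIdeal) ≠ 0 := by
    have := hnat 2 (by exact_mod_cast (Lo_two h).1)
    exact_mod_cast this
  have h27k : (27 : 𝓞 K ⧸ v.asIdeal) ≠ 0 := by
    have := hnat 27 (by exact_mod_cast Lo_27 h)
    exact_mod_cast this
  have h4k : (4 : 𝓞 K ⧸ v.asIdeal) ≠ 0 := by
    have h5 : (4 : 𝓞 K ⧸ v.asIdeal) = 2 * 2 := by norm_num
    rw [h5]
    exact mul_ne_zero h2k h2k
  have hπ27 : π 27 ≠ 0 := by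
    rw [map_ofNat]
    exact h27k
  have hu27 : IsUnit (27 : R) := hunit _ hπ27
  -- the zero set
  set Z : Finset (R × R) := Finset.univ.filter (fun p => dsc p.1 p.2 = 0) with hZ
  have hZ1 : (Finset.univ.filter (fun p : R × R => π p.1 = 0 ∧ π p.2 = 0)).card = q ^ 2 := by
    have h1 : (Finset.univ.filter (fun x : R => π x = 0)).card = q := by
      rw [← hP, ← Fintype.card_subtype, ← Nat.card_eq_fintype_card]
      rfl
    have h2 : Finset.univ.filter (fun p : R × R => π p.1 = 0 ∧ π p.2 = 0) =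
        (Finset.univ.filter (fun x : R => π x = 0)) ×ˢ (Finset.univ.filter (fun x : R => π x = 0)) := by
      ext p
      simp only [Finset.mem_filter, Finset.mem_univ, true_and, Finset.mem_product]
    rw [h2, Finset.card_product, h1, pow_two]
  have hZ2 : (Finset.univ.filter (fun p : R × R => dsc p.1 p.2 = 0 ∧ π p.1 ≠ 0)).card ≤
      2 * q ^ 2 := by
    have h1 : (Finset.univ : Finset R).card = q ^ 2 := by
      rw [Finset.card_univ, ← Nat.card_eq_fintype_card, hcardR]
    rw [← h1]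
    apply Finset.card_le_mul_card_image_of_maps_to (f := Prod.fst)
    · intro a _
      exact Finset.mem_univ _
    · intro a _
      by_cases hne : (Finset.filter (fun p : R × R => p.1 = a)
          (Finset.univ.filter (fun p : R × R => dsc p.1 p.2 = 0 ∧ π p.1 ≠ 0))).Nonempty
      · obtain ⟨p, hp⟩ := hne
        simp only [Finset.mem_filter, Finset.mem_univ, true_and] at hp
        obtain ⟨⟨hp1, hp2⟩, hp3⟩ := hp
        have hsub : (Finset.filter (fun p : R × R => p.1 = a)
          (Finset.univ.filter (fun p : R × R => dsc p.1 p.2 = 0 ∧ π p.1 ≠ 0))) ⊆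
            {(a, p.2), (a, -p.2)} := by
          intro r hr
          simp only [Finset.mem_filter, Finset.mem_univ, true_and] at hr
          obtain ⟨⟨hr1, hr2⟩, hr3⟩ := hr
          have hb : π p.2 ≠ 0 := by
            intro hb0
            have h5 := congrArg π hp1
            rw [dsc, map_add, map_mul, map_mul, map_pow, map_pow, hb0, map_zero, map_ofNat] at h5
            have h6 : (4 : 𝓞 K ⧸ v.asIdeal) * (π p.1) ^ 3 = 0 := by
              rw [← h5]
              ring
            rcases mul_eq_zero.1 h6 with h7 | h7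
            · exact h4k h7
            · exact hp2 (eq_zero_of_pow_eq_zero h7)
          have hprod : (r.2 - p.2) * (r.2 + p.2) = 0 := by
            have h5 : (27 : R) * ((r.2 - p.2) * (r.2 + p.2)) = 0 := by
              have h6 : dsc r.1 r.2 - dsc p.1 p.2 = 0 := by rw [hr1, hp1, sub_zero]
              rw [hr3, hp3] at h6
              rw [← h6]
              simp only [dsc]
              ring
            exact (hu27.mul_right_eq_zero).1 h5
          have hcase : π (r.2 - p.2) ≠ 0 ∨ π (r.2 + p.2) ≠ 0 := by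
            by_contra hcon
            push Not at hcon
            have h8 : π (r.2 + p.2) - π (r.2 - p.2) = 0 := by rw [hcon.1, hcon.2, sub_zero]
            rw [map_add, map_sub] at h8
            have h9 : (2 : 𝓞 K ⧸ v.asIdeal) * π p.2 = 0 := by
              rw [← h8]
              ring
            rcases mul_eq_zero.1 h9 with h10 | h10
            · exact h2k h10
            · exact hb h10
          rw [Finset.mem_insert, Finset.mem_singleton]
          rcases hcase with hc | hc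
          · right
            have h11 := ((hunit _ hc).mul_right_eq_zero).1 hprod
            exact Prod.ext hr3 (eq_neg_of_add_eq_zero_left h11)
          · left
            have h11 := ((hunit _ hc).mul_left_eq_zero).1 hprod
            exact Prod.ext hr3 (sub_eq_zero.1 h11)
        exact (Finset.card_le_card hsub).trans Finset.card_le_two
      · rw [Finset.not_nonempty_iff_eq_empty] at hne
        rw [hne]
        simp
  have hZle : Z.card ≤ 3 * q ^ 2 := by
    have h1 : Z ⊆ (Finset.univ.filter (fun p : R × R => π p.1 = 0 ∧ π p.2 = 0)) ∪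
        (Finset.univ.filter (fun p : R × R => dsc p.1 p.2 = 0 ∧ π p.1 ≠ 0)) := by
      intro p hp
      have hp' : dsc p.1 p.2 = 0 := (Finset.mem_filter.1 hp).2
      rw [Finset.mem_union, Finset.mem_filter, Finset.mem_filter]
      by_cases h5 : π p.1 = 0
      · left
        refine ⟨Finset.mem_univ _, h5, ?_⟩
        have h6 : (27 : 𝓞 K ⧸ v.asIdeal) * (π p.2) ^ 2 = 0 := by
          have h7 := congrArg π hp'
          rw [dsc, map_add, map_mul, map_mul, map_pow, map_pow, h5, map_zero, map_ofNat,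
            map_ofNat] at h7
          rw [← h7]
          ring
        rcases mul_eq_zero.1 h6 with h7 | h7
        · exact absurd h7 h27k
        · exact eq_zero_of_pow_eq_zero h7
      · right
        exact ⟨Finset.mem_univ _, hp', h5⟩
    calc Z.card ≤ _ := Finset.card_le_card h1
      _ ≤ _ := Finset.card_union_le _ _
      _ ≤ q ^ 2 + 2 * q ^ 2 := by
        rw [hZ1]
        exact Nat.add_le_add_left hZ2 _
      _ = 3 * q ^ 2 := by ring
  -- conclusion
  have htot : (SqO R).ncard + Z.card = q ^ 4 := by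
    have h1 : (SqO R) = ((Finset.univ.filter (fun p : R × R => ¬ dsc p.1 p.2 = 0) :
        Finset (R × R)) : Set (R × R)) := by
      ext p
      simp [SqO]
    rw [h1, Set.ncard_coe_finset, add_comm, hZ, Finset.card_filter_add_card_filter_not, Finset.card_univ,
      Fintype.card_prod, ← Nat.card_eq_fintype_card, hcardR]
    ring
  rw [← htot]
  exact Nat.add_le_add_left hZle _

/-- at most two square roots modulo the square of a prime (for the tail) -/
theorem two_classes {v : HeightOneSpectrum (𝓞 K)} (h : (6 : 𝓞 K) ∉ v.asIdeal) {A : 𝓞 K}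
    (hA : A ∉ v.asIdeal) : ∃ B₀ : 𝓞 K, ∀ B : 𝓞 K, dsc A B ∈ v.asIdeal ^ 2 →
      B - B₀ ∈ v.asIdeal ^ 2 ∨ B - (-B₀) ∈ v.asIdeal ^ 2 := by
  have hle : v.asIdeal ^ 2 ≤ v.asIdeal := Ideal.pow_le_self (by norm_num)
  have h2 := (Lo_two h).1
  have hprime := v.isPrime
  by_cases hex : ∃ B₀ : 𝓞 K, dsc A B₀ ∈ v.asIdeal ^ 2
  · obtain ⟨B₀, hB₀⟩ := hex
    refine ⟨B₀, fun B hB => ?_⟩
    have hB₀v : B₀ ∉ v.asIdeal := by
      intro hb
      have h3 : 2 * 2 * A ^ 3 ∈ v.asIdeal := by
        have h4 : 2 * 2 * A ^ 3 = dsc A B₀ - 27 * B₀ * B₀ := by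
          simp only [dsc]
          ring
        rw [h4]
        exact sub_mem (hle hB₀) (Ideal.mul_mem_left _ _ hb)
      rcases hprime.mem_or_mem h3 with h4 | h4
      · rcases hprime.mem_or_mem h4 with h5 | h5 <;> exact h2 h5
      · exact hA (hprime.mem_of_pow_mem _ h4)
    have hprod : (B - B₀) * (B - (-B₀)) ∈ v.asIdeal ^ 2 := by
      refine Lo_cancel (Lo_27 h) ?_
      have h5 : 27 * ((B - B₀) * (B - (-B₀))) = dsc A B - dsc A B₀ := by
        simp only [dsc]
        ring
      rw [h5]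
      exact sub_mem hB hB₀
    by_cases hc : B - B₀ ∈ v.asIdeal
    · left
      have hc2 : B - (-B₀) ∉ v.asIdeal := by
        intro h6
        have h7 : 2 * B₀ ∈ v.asIdeal := by
          have h8 : 2 * B₀ = (B - (-B₀)) - (B - B₀) := by ring
          rw [h8]
          exact sub_mem h6 hc
        rcases hprime.mem_or_mem h7 with h9 | h9
        · exact h2 h9
        · exact hB₀v h9
      rw [mul_comm] at hprod
      exact Lo_cancel hc2 hprod
    · right
      exact Lo_cancel hc hprod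
  · refine ⟨0, fun B hB => absurd ⟨B, hB⟩ hex⟩

end H36PP
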