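import Pool.Agent.H36.PP.Lt
import Pool.Agent.H36.PP.Lo

/-! Row Dv (MP_78d38b_PP, block M). The local densities. -/

set_option autoImplicit false
set_option linter.unusedSectionVars false

open NumberField IsDedekindDomain H76PP

namespace H36PP

variable {K : Type} [Field K] [NumberField K]

theorem Dv_card (I : Ideal (𝓞 K)) : Ideal.absNorm I = Nat.card (𝓞 K ⧸ I) := by
  rw [Ideal.absNorm_apply, Submodule.cardQuot_apply]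

theorem Dv_fin {I : Ideal (𝓞 K)} (hI : I ≠ ⊥) : Finite (𝓞 K ⧸ I) := by
  apply Nat.finite_of_card_ne_zero
  rw [← Dv_card]
  exact fun h => hI (Ideal.absNorm_eq_zero_iff.1 h)

theorem Dv_one {I : Ideal (𝓞 K)} (hI : I ≠ ⊥) {P : Set (𝓞 K × 𝓞 K)}
    (hper : ∀ p p' : 𝓞 K × 𝓞 K, rs I p = rs I p' → p ∈ P → p' ∈ P) (hne : P.Nonempty) :
    Dens I P (1 / (Ideal.absNorm I : ℝ) ^ 2) := by
  have hfin := Dv_fin hI
  refine ⟨hper, ?_⟩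
  have h0 : (Ideal.absNorm I : ℝ) ≠ 0 := by
    have h1 : Ideal.absNorm I ≠ 0 := fun h => hI (Ideal.absNorm_eq_zero_iff.1 h)
    exact_mod_cast h1
  have h2 : 1 / (Ideal.absNorm I : ℝ) ^ 2 * (Ideal.absNorm I : ℝ) ^ 2 = 1 := by
    field_simp
  rw [h2]
  have h3 : 0 < (rs I '' P).ncard := (Set.ncard_pos (Set.toFinite _)).2 (hne.image _)
  exact_mod_cast h3

theorem Dv_le {I : Ideal (𝓞 K)} (hI : I ≠ ⊥) {P : Set (𝓞 K × 𝓞 K)}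
    {S : Set ((𝓞 K ⧸ I) × (𝓞 K ⧸ I))} (h : ∀ p, p ∈ P ↔ rs I p ∈ S) :
    (∀ p p' : 𝓞 K × 𝓞 K, rs I p = rs I p' → p ∈ P → p' ∈ P) ∧
      S.ncard ≤ (rs I '' P).ncard := by
  have hfin := Dv_fin hI
  constructor
  · intro p p' hpp hp
    rw [h, ← hpp, ← h]
    exact hp
  · refine Set.ncard_le_ncard ?_ (Set.toFinite _)
    rintro ⟨a, b⟩ hab
    obtain ⟨a', ha'⟩ := Ideal.Quotient.mk_surjective a
    obtain ⟨b', hb'⟩ := Ideal.Quotient.mk_surjective b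
    have h1 : rs I (a', b') = (a, b) := by
      unfold rs
      rw [ha', hb']
    refine ⟨(a', b'), ?_, h1⟩
    rw [h, h1]
    exact hab

theorem Dv_Pq (v : HeightOneSpectrum (𝓞 K)) (p : 𝓞 K × 𝓞 K) :
    p ∈ Pq v ↔ rs v.asIdeal p ∈ {r : (𝓞 K ⧸ v.asIdeal) × (𝓞 K ⧸ v.asIdeal) |
      ∀ t : 𝓞 K ⧸ v.asIdeal, t ^ 3 + r.1 * t + r.2 ≠ 0} := by
  constructor
  · intro hp t ht
    obtain ⟨t', rfl⟩ := Ideal.Quotient.mk_surjective t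
    apply hp t'
    rw [← Ideal.Quotient.eq_zero_iff_mem, map_add, map_add, map_mul, map_pow]
    exact ht
  · intro hp t ht
    apply hp (Ideal.Quotient.mk v.asIdeal t)
    rw [← Ideal.Quotient.eq_zero_iff_mem, map_add, map_add, map_mul, map_pow] at ht
    exact ht

theorem Dv_P6 (v : HeightOneSpectrum (𝓞 K)) (p : 𝓞 K × 𝓞 K) :
    p ∈ P6 v ↔ rs v.asIdeal p ∈ {r : (𝓞 K ⧸ v.asIdeal) × (𝓞 K ⧸ v.asIdeal) |
      r.1 - 1 = 0 ∧ r.2 - 1 = 0} := by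
  have h1 : ∀ x : 𝓞 K, x - 1 ∈ v.asIdeal ↔ Ideal.Quotient.mk v.asIdeal x - 1 = 0 := by
    intro x
    rw [← Ideal.Quotient.eq_zero_iff_mem, map_sub, map_one]
  exact and_congr (h1 p.1) (h1 p.2)

theorem Dv_Pt (v : HeightOneSpectrum (𝓞 K)) (p : 𝓞 K × 𝓞 K) :
    p ∈ Pt v ↔ rs v.asIdeal p ∈ SqT (𝓞 K ⧸ v.asIdeal) := by
  constructor
  · rintro ⟨t, ht, hs⟩
    refine ⟨Ideal.Quotient.mk v.asIdeal t, ?_, ?_⟩
    · rw [← Ideal.Quotient.eq_zero_iff_mem, map_add, map_add, map_mul, map_pow] at ht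
      exact ht
    · rintro ⟨s, hs'⟩
      obtain ⟨s', rfl⟩ := Ideal.Quotient.mk_surjective s
      apply hs s'
      rw [← Ideal.Quotient.eq_zero_iff_mem, map_sub, map_sub, map_mul, map_mul, map_pow, map_pow,
        map_neg, map_ofNat, map_ofNat, sub_eq_zero, pow_two (Ideal.Quotient.mk v.asIdeal s')]
      exact hs'
  · rintro ⟨t, ht, hs⟩
    obtain ⟨t', rfl⟩ := Ideal.Quotient.mk_surjective t
    refine ⟨t', ?_, ?_⟩
    · rw [← Ideal.Quotient.eq_zero_iff_mem, map_add, map_add, map_mul, map_pow]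
      exact ht
    · intro s hs'
      apply hs
      rw [← Ideal.Quotient.eq_zero_iff_mem, map_sub, map_sub, map_mul, map_mul, map_pow, map_pow,
        map_neg, map_ofNat, map_ofNat, sub_eq_zero, pow_two (Ideal.Quotient.mk v.asIdeal s)] at hs'
      exact ⟨Ideal.Quotient.mk v.asIdeal s, hs'⟩

theorem Dv_Po (v : HeightOneSpectrum (𝓞 K)) (p : 𝓞 K × 𝓞 K) :
    p ∈ Po v ↔ rs (v.asIdeal ^ 2) p ∈ SqO (𝓞 K ⧸ v.asIdeal ^ 2) := by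
  have h1 : dsc (Ideal.Quotient.mk (v.asIdeal ^ 2) p.1) (Ideal.Quotient.mk (v.asIdeal ^ 2) p.2) =
      Ideal.Quotient.mk (v.asIdeal ^ 2) (dsc p.1 p.2) := by
    unfold dsc
    simp only [map_add, map_mul, map_pow, map_ofNat]
  show dsc p.1 p.2 ∉ v.asIdeal ^ 2 ↔
    dsc (Ideal.Quotient.mk (v.asIdeal ^ 2) p.1) (Ideal.Quotient.mk (v.asIdeal ^ 2) p.2) ≠ 0
  rw [h1, Ne, Ideal.Quotient.eq_zero_iff_mem]

theorem dens_q (v : HeightOneSpectrum (𝓞 K)) : Dens v.asIdeal (Pq v) (1 / (Nv v : ℝ) ^ 2) := by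
  have hfin := Dv_fin v.ne_bot
  obtain ⟨a, b, hab⟩ := exists_irr (𝓞 K ⧸ v.asIdeal)
  obtain ⟨a', ha'⟩ := Ideal.Quotient.mk_surjective a
  obtain ⟨b', hb'⟩ := Ideal.Quotient.mk_surjective b
  refine Dv_one v.ne_bot (Dv_le v.ne_bot (Dv_Pq v)).1 ⟨(a', b'), ?_⟩
  rw [Dv_Pq]
  intro t
  have h1 := hab t
  rw [← ha', ← hb'] at h1
  exact h1

theorem dens_6 (v : HeightOneSpectrum (𝓞 K)) : Dens v.asIdeal (P6 v) (1 / (Nv v : ℝ) ^ 2) := by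
  refine Dv_one v.ne_bot (Dv_le v.ne_bot (Dv_P6 v)).1 ⟨(1, 1), ?_⟩
  constructor
  · rw [sub_self]
    exact zero_mem _
  · rw [sub_self]
    exact zero_mem _

theorem dens_t {v : HeightOneSpectrum (𝓞 K)} (h : (6 : 𝓞 K) ∉ v.asIdeal) :
    Dens v.asIdeal (Pt v) (1 / 2 * (1 - 1 / (Nv v : ℝ))) := by
  have hfin := Dv_fin v.ne_bot
  obtain ⟨h1, h2⟩ := Dv_le v.ne_bot (Dv_Pt v)
  refine ⟨h1, ?_⟩
  have h6 : (6 : 𝓞 K ⧸ v.asIdeal) ≠ 0 := by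
    intro h6
    apply h
    rw [← Ideal.Quotient.eq_zero_iff_mem, map_ofNat]
    exact h6
  have h3 := card_SqT (𝓞 K ⧸ v.asIdeal) h6
  rw [← Dv_card] at h3
  have hq0 : Ideal.absNorm v.asIdeal ≠ 0 := fun h => v.ne_bot (Ideal.absNorm_eq_zero_iff.1 h)
  have hq1 : 1 ≤ Ideal.absNorm v.asIdeal := Nat.one_le_iff_ne_zero.2 hq0
  have h4 : Ideal.absNorm v.asIdeal * (Ideal.absNorm v.asIdeal - 1) ≤
      2 * (rs v.asIdeal '' Pt v).ncard := h3.trans (Nat.mul_le_mul_left 2 h2)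
  have h5 : ((Ideal.absNorm v.asIdeal * (Ideal.absNorm v.asIdeal - 1) : ℕ) : ℝ) ≤
      ((2 * (rs v.asIdeal '' Pt v).ncard : ℕ) : ℝ) := by exact_mod_cast h4
  rw [Nat.cast_mul, Nat.cast_sub hq1, Nat.cast_one, Nat.cast_mul, Nat.cast_ofNat] at h5
  have hq : (Ideal.absNorm v.asIdeal : ℝ) ≠ 0 := by exact_mod_cast hq0
  have h7 : 1 / 2 * (1 - 1 / (Nv v : ℝ)) * (Ideal.absNorm v.asIdeal : ℝ) ^ 2 =
      (Ideal.absNorm v.asIdeal : ℝ) * ((Ideal.absNorm v.asIdeal : ℝ) - 1) / 2 := by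
    unfold Nv
    field_simp
  rw [h7]
  linarith

theorem dens_o {v : HeightOneSpectrum (𝓞 K)} (h : (6 : 𝓞 K) ∉ v.asIdeal) :
    Dens (v.asIdeal ^ 2) (Po v) (1 - 3 / (Nv v : ℝ) ^ 2) := by
  have hI : v.asIdeal ^ 2 ≠ ⊥ := pow_ne_zero 2 v.ne_bot
  have hfin := Dv_fin hI
  obtain ⟨h1, h2⟩ := Dv_le hI (Dv_Po v)
  refine ⟨h1, ?_⟩
  have h3 := card_SqO h
  have h4 : Nv v ^ 4 ≤ (rs (v.asIdeal ^ 2) '' Po v).ncard + 3 * Nv v ^ 2 := by omega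
  have h5 : ((Nv v ^ 4 : ℕ) : ℝ) ≤
      (((rs (v.asIdeal ^ 2) '' Po v).ncard + 3 * Nv v ^ 2 : ℕ) : ℝ) := by exact_mod_cast h4
  rw [Nat.cast_add, Nat.cast_mul, Nat.cast_pow, Nat.cast_pow, Nat.cast_ofNat] at h5
  have hq0 : Nv v ≠ 0 := fun h => v.ne_bot (Ideal.absNorm_eq_zero_iff.1 h)
  have hq : (Nv v : ℝ) ≠ 0 := by exact_mod_cast hq0
  have h6 : (Ideal.absNorm (v.asIdeal ^ 2) : ℝ) = (Nv v : ℝ) ^ 2 := by
    rw [map_pow, Nat.cast_pow]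
    rfl
  have h7 : (1 - 3 / (Nv v : ℝ) ^ 2) * (Ideal.absNorm (v.asIdeal ^ 2) : ℝ) ^ 2 =
      (Nv v : ℝ) ^ 4 - 3 * (Nv v : ℝ) ^ 2 := by
    rw [h6]
    field_simp
  rw [h7]
  linarith

end H36PP
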