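import Pool.Agent.H76.PP.Df0
import Pool.Agent.H42.PC.BCnt

/-!
Row Pk (MP_78d38b_PP, block M). The number of primes of norm at most `Y` is `o(Y)`.

PROOF of nv_finite. For `Y ≥ 0` the set is contained in `{v | Nv v ≤ ⌊Y⌋₊}` which is finite by `prc_finite`
(`Pool/Agent/H42/PC/BCnt.lean`); for `Y < 0` it is empty.

PROOF of nv_little. `n := finrank ℚ K`. For `Y ≥ 0`, `m = ⌊Y⌋₊`: by `BCnt_prime` every `v` with `Nv v ≤ m` contains a prime
number `p ≤ m`, so the set of the ideals `v.asIdeal` is contained in the union over the primes `p ≤ m` of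
`(Ideal.span {(p : ℤ)}).primesOver (𝓞 K)`, sets with at most `n` elements (`BCnt_card`, `BCnt_over`; then `BCnt_finite_le` with
`s = {p | p.Prime ∧ p ≤ m}`, see the proofs of `prc_finite`, `prc_le` in the same file). So the number of `v` is at most
`n * Nat.primeCounting m` [`Nat.primeCounting m = ((Finset.range (m + 1)).filter Nat.Prime).card`]. By
`Chebyshev.eventually_primeCounting_le` (with `ε = 1`) for `Y` large `π ⌊Y⌋₊ ≤ (log 4 + 1) Y / log Y`, and
`(log 4 + 1) / log Y ≤ ε / (n + 1)` for `Y` large since `log Y → ∞` (`Real.tendsto_log_atTop`).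
-/

set_option autoImplicit false
set_option linter.unusedSectionVars false

open NumberField IsDedekindDomain H76PP Pool.Agent.H42.PC

namespace H36PP

variable (K : Type) [Field K] [NumberField K]

theorem Pk_sub {Y : ℝ} (hY : 0 ≤ Y) : {v : HeightOneSpectrum (𝓞 K) | (Nv v : ℝ) ≤ Y} ⊆
    {v : HeightOneSpectrum (𝓞 K) | Ideal.absNorm v.asIdeal ≤ ⌊Y⌋₊} := by
  intro v hv
  have h1 : (Nv v : ℝ) ≤ Y := hv
  exact Nat.le_floor h1

theorem nv_finite (Y : ℝ) : {v : HeightOneSpectrum (𝓞 K) | (Nv v : ℝ) ≤ Y}.Finite := by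
  rcases le_or_gt 0 Y with hY | hY
  · exact (prc_finite K ⌊Y⌋₊).subset (Pk_sub K hY)
  · refine Set.Finite.subset Set.finite_empty ?_
    intro v hv
    have h1 : (Nv v : ℝ) ≤ Y := hv
    have h2 : (0 : ℝ) ≤ (Nv v : ℝ) := Nat.cast_nonneg _
    exact absurd h1 (by linarith)

theorem Pk_count (m : ℕ) : {v : HeightOneSpectrum (𝓞 K) | Ideal.absNorm v.asIdeal ≤ m}.ncard ≤
    Module.finrank ℚ K * Nat.primeCounting m := by
  have hs : {p : ℕ | p.Prime ∧ p ≤ m}.Finite := (Set.finite_Iic m).subset fun p hp => hp.2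
  have h1 := BCnt_finite_le hs (n := Module.finrank ℚ K)
    (f := fun p => {v : HeightOneSpectrum (𝓞 K) |
      v.asIdeal ∈ (Ideal.span {(p : ℤ)}).primesOver (𝓞 K)})
    (t := {v | Ideal.absNorm v.asIdeal ≤ m}) (by
      rintro p ⟨hp, -⟩
      have hpr : (Ideal.span {(p : ℤ)}).IsPrime := by
        rw [Ideal.span_singleton_prime (by exact_mod_cast hp.ne_zero)]
        exact Nat.prime_iff_prime_int.1 hp
      obtain ⟨hf, hc⟩ := BCnt_card (S := 𝓞 K) (Ideal.span {(p : ℤ)})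
      rw [RingOfIntegers.rank] at hc
      have hinj : Set.InjOn (fun v : HeightOneSpectrum (𝓞 K) => v.asIdeal)
          {v | v.asIdeal ∈ (Ideal.span {(p : ℤ)}).primesOver (𝓞 K)} :=
        fun v _ v' _ h => HeightOneSpectrum.ext h
      have hsub : (fun v : HeightOneSpectrum (𝓞 K) => v.asIdeal) ''
          {v | v.asIdeal ∈ (Ideal.span {(p : ℤ)}).primesOver (𝓞 K)} ⊆
          (Ideal.span {(p : ℤ)}).primesOver (𝓞 K) := by
        rintro _ ⟨v, hv, rfl⟩
        exact hv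
      refine ⟨Set.Finite.of_finite_image (hf.subset hsub) hinj, ?_⟩
      rw [← Set.ncard_image_of_injOn hinj]
      exact (Set.ncard_le_ncard hsub hf).trans hc) (by
      rintro v hv
      obtain ⟨p, hp, hmem, hle⟩ := BCnt_prime v
      rw [Set.mem_iUnion₂]
      exact ⟨p, ⟨hp, hle.trans hv⟩, BCnt_over v hp hmem⟩)
  refine h1.2.trans (Nat.mul_le_mul_left _ ?_)
  have h2 : {p : ℕ | p.Prime ∧ p ≤ m} = ((Finset.range (m + 1)).filter Nat.Prime : Finset ℕ) := by
    ext p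
    simp only [Set.mem_setOf_eq, Finset.coe_filter, Finset.mem_range, Nat.lt_succ_iff]
    tauto
  rw [h2, Set.ncard_coe_finset, Nat.primeCounting, Nat.primeCounting', Nat.count_eq_card_filter_range]

theorem nv_little (ε : ℝ) (hε : 0 < ε) : ∃ Y₀ : ℝ, ∀ Y : ℝ, Y₀ ≤ Y →
    ({v : HeightOneSpectrum (𝓞 K) | (Nv v : ℝ) ≤ Y}.ncard : ℝ) ≤ ε * Y := by
  set n : ℝ := (Module.finrank ℚ K : ℝ) with hn
  have hn0 : 0 ≤ n := Nat.cast_nonneg _
  have e1 := Chebyshev.eventually_primeCounting_le (ε := 1) one_pos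
  have e2 : ∀ᶠ Y : ℝ in Filter.atTop, n * (Real.log 4 + 1) / ε ≤ Real.log Y :=
    Real.tendsto_log_atTop.eventually_ge_atTop _
  have e3 : ∀ᶠ Y : ℝ in Filter.atTop, (1 : ℝ) < Y := Filter.eventually_gt_atTop 1
  obtain ⟨Y₀, h0⟩ := Filter.eventually_atTop.1 (e1.and (e2.and e3))
  refine ⟨Y₀, fun Y hY => ?_⟩
  obtain ⟨h1, h2, h3⟩ := h0 Y hY
  have hlog : 0 < Real.log Y := Real.log_pos h3
  have h4 : ({v : HeightOneSpectrum (𝓞 K) | (Nv v : ℝ) ≤ Y}.ncard : ℝ) ≤
      n * (Nat.primeCounting ⌊Y⌋₊ : ℝ) := by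
    have h5 := (Set.ncard_le_ncard (Pk_sub K (by linarith : (0 : ℝ) ≤ Y)) (prc_finite K _)).trans
      (Pk_count K ⌊Y⌋₊)
    have h6 : ((({v : HeightOneSpectrum (𝓞 K) | (Nv v : ℝ) ≤ Y}.ncard : ℕ)) : ℝ) ≤
        ((Module.finrank ℚ K * Nat.primeCounting ⌊Y⌋₊ : ℕ) : ℝ) := by exact_mod_cast h5
    rw [Nat.cast_mul] at h6
    exact h6
  refine h4.trans ?_
  have h7 : n * (Nat.primeCounting ⌊Y⌋₊ : ℝ) ≤ n * ((Real.log 4 + 1) * Y / Real.log Y) := by
    apply mul_le_mul_of_nonneg_left _ hn0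
    exact h1
  refine h7.trans ?_
  have h8 : n * (Real.log 4 + 1) ≤ ε * Real.log Y := by
    have := (div_le_iff₀ hε).1 h2
    linarith
  have h9 : n * ((Real.log 4 + 1) * Y / Real.log Y) = (n * (Real.log 4 + 1)) / Real.log Y * Y := by
    ring
  rw [h9]
  apply mul_le_mul_of_nonneg_right _ (by linarith)
  rw [div_le_iff₀ hlog]
  exact h8

end H36PP
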