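import Pool.Agent.H76.PP.Df0
import Pool.Agent.H42.PC.BCnt

/-!
Row Sm (MP_78d38b_PP, block M). The sum of `1 / (Nv v)^2` over the primes `v` of a number field
converges, and its consequence for finite products.

PROOF of summable_Nv. It suffices (`summable_of_sum_le`, all terms are nonnegative) to bound the sums over the finite sets
`F : Finset (HeightOneSpectrum (𝓞 K))` by a constant. By `BCnt_prime` choose for every `v` a prime number `p v` with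
`(p v : 𝓞 K) ∈ v.asIdeal` and `p v ≤ Nv v`. For a natural number `m` the number of `v ∈ F` with `p v = m` is at most
`n = finrank ℚ K`: if `m` is prime, `v ↦ v.asIdeal` is injective from these `v` to
`(Ideal.span {(m : ℤ)}).primesOver (𝓞 K)` (`BCnt_over`), which has at most `finrank ℤ (𝓞 K) = finrank ℚ K` elements
(`BCnt_card`, `RingOfIntegers.rank`; see how `prc_finite` and `prc_le` in `Pool/Agent/H42/PC/BCnt.lean` do exactly this);
if `m` is not prime there are none. Hence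
`∑ v ∈ F, 1 / (Nv v)^2 ≤ ∑ v ∈ F, 1 / (p v)^2 = ∑ m ∈ F.image p, #{v ∈ F | p v = m} / m^2 ≤ n ∑ m ∈ F.image p, 1 / m^2
≤ n ∑' m : ℕ, 1 / m^2` (`Finset.sum_fiberwise_of_maps_to` / `Finset.sum_comp`, `Real.summable_one_div_nat_pow`).

PROOF of prod_lower. `S := ∑' v, 1 / (Nv v)^2`, `c := Real.exp (-6 * S)`. If `(6 : 𝓞 K) ∉ v.asIdeal` then `5 ≤ Nv v`:
otherwise `Nv v ∈ {0, 1, 2, 3, 4}`; `0` is impossible (`v ≠ ⊥`, `Ideal.absNorm_eq_zero_iff`), `1` is impossible (`v` is proper,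
`Ideal.absNorm_eq_one_iff`), and `2`, `3`, `4` are in `v.asIdeal` by `Ideal.absNorm_mem`, hence `2 * 3 = 6` or (`4 = 2 * 2`, prime ideal)
`6 ∈ v.asIdeal`. So `x := 3 / (Nv v)^2 ≤ 3 / 25 ≤ 1 / 2` and `1 - x ≥ exp (-2 x)`: indeed `exp (2 x) ≥ 1 + 2 x` and
`(1 - x) (1 + 2 x) = 1 + x - 2 x^2 ≥ 1`, so `exp(-2x) ≤ 1 / (1 + 2x) ≤ 1 - x`. Therefore
`∏ (1 - 3 / (Nv v)^2) ≥ exp (- 6 ∑ v ∈ F, 1 / (Nv v)^2) ≥ c` (`Finset.prod_le_prod`, `Real.exp_sum`, `Summable.sum_le_tsum`).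
-/

set_option autoImplicit false
set_option linter.unusedSectionVars false

open NumberField IsDedekindDomain H76PP Pool.Agent.H42.PC

namespace H36PP

variable (K : Type) [Field K] [NumberField K]

theorem Sm_fib (m : ℕ) (hm : m.Prime) (G : Finset (HeightOneSpectrum (𝓞 K)))
    (hG : ∀ v ∈ G, (m : 𝓞 K) ∈ v.asIdeal) : G.card ≤ Module.finrank ℚ K := by
  have hpr : (Ideal.span {(m : ℤ)}).IsPrime := by
    rw [Ideal.span_singleton_prime (by exact_mod_cast hm.ne_zero)]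
    exact Nat.prime_iff_prime_int.1 hm
  obtain ⟨hf, hc⟩ := BCnt_card (S := 𝓞 K) (Ideal.span {(m : ℤ)})
  rw [RingOfIntegers.rank] at hc
  have hinj : Set.InjOn (fun v : HeightOneSpectrum (𝓞 K) => v.asIdeal) (G : Set (HeightOneSpectrum (𝓞 K))) :=
    fun v _ v' _ h => HeightOneSpectrum.ext h
  have hsub : (fun v : HeightOneSpectrum (𝓞 K) => v.asIdeal) '' (G : Set (HeightOneSpectrum (𝓞 K))) ⊆
      (Ideal.span {(m : ℤ)}).primesOver (𝓞 K) := by
    rintro _ ⟨v, hv, rfl⟩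
    exact BCnt_over v hm (hG v hv)
  rw [← Set.ncard_coe_finset, ← Set.ncard_image_of_injOn hinj]
  exact (Set.ncard_le_ncard hsub hf).trans hc

theorem summable_Nv : Summable (fun v : HeightOneSpectrum (𝓞 K) => (1 : ℝ) / (Nv v : ℝ) ^ 2) := by
  classical
  choose p hp hmem hle using fun v : HeightOneSpectrum (𝓞 K) => BCnt_prime v
  have hsum : Summable (fun m : ℕ => (1 : ℝ) / (m : ℝ) ^ 2) :=
    Real.summable_one_div_nat_pow.2 (by norm_num)
  refine summable_of_sum_le (c := (Module.finrank ℚ K : ℝ) * ∑' m : ℕ, (1 : ℝ) / (m : ℝ) ^ 2)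
    (fun v => by positivity) ?_
  intro F
  have h1 : ∑ v ∈ F, (1 : ℝ) / (Nv v : ℝ) ^ 2 ≤ ∑ v ∈ F, (1 : ℝ) / (p v : ℝ) ^ 2 := by
    refine Finset.sum_le_sum fun v _ => ?_
    have h2 : (0 : ℝ) < p v := by exact_mod_cast (hp v).pos
    have h3 : (p v : ℝ) ≤ Nv v := by exact_mod_cast hle v
    exact one_div_le_one_div_of_le (by positivity) (pow_le_pow_left₀ h2.le h3 2)
  refine h1.trans ?_
  rw [Finset.sum_comp (fun m : ℕ => (1 : ℝ) / (m : ℝ) ^ 2) p]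
  calc ∑ m ∈ F.image p, (F.filter (fun v => p v = m)).card • ((1 : ℝ) / (m : ℝ) ^ 2)
      ≤ ∑ m ∈ F.image p, (Module.finrank ℚ K : ℝ) * ((1 : ℝ) / (m : ℝ) ^ 2) := by
        refine Finset.sum_le_sum fun m hm => ?_
        obtain ⟨v0, -, hv0⟩ := Finset.mem_image.1 hm
        rw [nsmul_eq_mul]
        refine mul_le_mul_of_nonneg_right ?_ (by positivity)
        have := Sm_fib K m (hv0 ▸ hp v0) (F.filter (fun v => p v = m)) (fun v hv => by
          have h5 := (Finset.mem_filter.1 hv).2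
          rw [← h5]
          exact hmem v)
        exact_mod_cast this
    _ = (Module.finrank ℚ K : ℝ) * ∑ m ∈ F.image p, ((1 : ℝ) / (m : ℝ) ^ 2) := by rw [Finset.mul_sum]
    _ ≤ _ := mul_le_mul_of_nonneg_left (hsum.sum_le_tsum _ fun m _ => by positivity) (Nat.cast_nonneg _)

variable {K}

theorem Sm_pos (v : HeightOneSpectrum (𝓞 K)) : Nv v ≠ 0 := by
  unfold Nv
  rw [Ne, Ideal.absNorm_eq_zero_iff]
  exact v.ne_bot

variable (K)

theorem five_le {v : HeightOneSpectrum (𝓞 K)} (h : (6 : 𝓞 K) ∉ v.asIdeal) : 5 ≤ Nv v := by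
  have hp := v.isPrime
  have h0 := Sm_pos v
  have h1 : Nv v ≠ 1 := by
    unfold Nv
    rw [Ne, Ideal.absNorm_eq_one_iff]
    exact hp.ne_top
  have hm : ((Nv v : ℕ) : 𝓞 K) ∈ v.asIdeal := Ideal.absNorm_mem _
  have e2 : (2 : 𝓞 K) ∈ v.asIdeal → False := fun h2 => h (by
    have := v.asIdeal.mul_mem_right 3 h2
    have e : (2 : 𝓞 K) * 3 = 6 := by norm_num
    rwa [e] at this)
  have e3 : (3 : 𝓞 K) ∈ v.asIdeal → False := fun h2 => h (by
    have := v.asIdeal.mul_mem_right 2 h2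
    have e : (3 : 𝓞 K) * 2 = 6 := by norm_num
    rwa [e] at this)
  by_contra hlt
  have h5 : Nv v = 2 ∨ Nv v = 3 ∨ Nv v = 4 := by omega
  rcases h5 with h5 | h5 | h5
  · rw [h5] at hm
    exact e2 (by exact_mod_cast hm)
  · rw [h5] at hm
    exact e3 (by exact_mod_cast hm)
  · rw [h5] at hm
    have h6 : (2 : 𝓞 K) * 2 ∈ v.asIdeal := by
      have e : (2 : 𝓞 K) * 2 = ((4 : ℕ) : 𝓞 K) := by norm_num
      rw [e]
      exact hm
    rcases hp.mem_or_mem h6 with h7 | h7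
    · exact e2 h7
    · exact e2 h7

theorem prod_lower : ∃ c : ℝ, 0 < c ∧ ∀ F : Finset (HeightOneSpectrum (𝓞 K)),
    (∀ v ∈ F, (6 : 𝓞 K) ∉ v.asIdeal) → c ≤ ∏ v ∈ F, (1 - 3 / (Nv v : ℝ) ^ 2) := by
  refine ⟨Real.exp (-6 * ∑' v : HeightOneSpectrum (𝓞 K), (1 : ℝ) / (Nv v : ℝ) ^ 2), Real.exp_pos _, ?_⟩
  intro F hF
  have h1 : ∀ v ∈ F, Real.exp (-6 * ((1 : ℝ) / (Nv v : ℝ) ^ 2)) ≤ 1 - 3 / (Nv v : ℝ) ^ 2 := by
    intro v hv
    have h2 : (5 : ℝ) ≤ Nv v := by exact_mod_cast five_le K (hF v hv)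
    obtain ⟨x, hx⟩ : ∃ x : ℝ, x = 3 / (Nv v : ℝ) ^ 2 := ⟨_, rfl⟩
    have h3 : (25 : ℝ) ≤ (Nv v : ℝ) ^ 2 := by nlinarith
    have hx0 : 0 ≤ x := by rw [hx]; positivity
    have hx1 : x ≤ 1 / 2 := by
      rw [hx, div_le_iff₀ (by linarith)]
      linarith
    have e1 : -6 * ((1 : ℝ) / (Nv v : ℝ) ^ 2) = -(2 * x) := by rw [hx]; ring
    rw [e1, ← hx, Real.exp_neg]
    have h4 : 1 + 2 * x ≤ Real.exp (2 * x) := by
      have := Real.add_one_le_exp (2 * x)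
      linarith
    have h5 : 1 ≤ (1 - x) * Real.exp (2 * x) := by
      have h6 : (1 - x) * (1 + 2 * x) ≤ (1 - x) * Real.exp (2 * x) :=
        mul_le_mul_of_nonneg_left h4 (by linarith)
      have h7 : 0 ≤ x * (1 - 2 * x) := mul_nonneg hx0 (by linarith)
      have h8 : (1 - x) * (1 + 2 * x) = 1 + x * (1 - 2 * x) := by ring
      linarith
    rw [inv_le_iff_one_le_mul₀ (Real.exp_pos _)]
    exact h5
  have h2 : ∏ v ∈ F, Real.exp (-6 * ((1 : ℝ) / (Nv v : ℝ) ^ 2)) ≤ ∏ v ∈ F, (1 - 3 / (Nv v : ℝ) ^ 2) :=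
    Finset.prod_le_prod (fun v _ => (Real.exp_pos _).le) h1
  refine le_trans ?_ h2
  rw [← Real.exp_sum, ← Finset.mul_sum]
  apply Real.exp_le_exp.2
  have h3 : ∑ v ∈ F, (1 : ℝ) / (Nv v : ℝ) ^ 2 ≤ ∑' v : HeightOneSpectrum (𝓞 K), (1 : ℝ) / (Nv v : ℝ) ^ 2 :=
    (summable_Nv K).sum_le_tsum F fun v _ => by positivity
  linarith

end H36PP
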