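import Pool.Agent.H36.PP.Ta
import Pool.Agent.H36.PP.Sm
import Pool.Agent.H36.PP.Pk

/-!
Row Tl (MP_78d38b_PP, block M). The tail estimate. Use only the STATEMENTS of Ta, Sm, Pk, Nb. `n = finrank ℚ K`.

PROOF. (1) For `X ≥ 1`, `p ∈ Tail K M X`, with `v`: `dsc p.1 p.2 ≠ 0`, `dsc p.1 p.2 ∈ v^2`, `dsc p.1 p.2 ∈ bx K (31 X^6)` (`dsc_bx`), so
(`pow_le_of_mem`, `e = 2`) `(Nv v)^2 ≤ (31 X^6)^n ≤ ((6 X^3)^2)^n = ((6 X^3)^n)^2`, so `Nv v ≤ (6 X^3)^n = 6^n X^(3n) =: Y`.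
If `p.1 ∈ v` then `27 p.2^2 = dsc - 4 p.1^3 ∈ v`, `27 ∉ v` (else `3 ∈ v`, `6 ∈ v`), so `p.2 ∈ v`. So
`Tail K M X ⊆ ⋃ v ∈ V, (SA v ∪ SB v)`, `V = {v | 6 ∉ v ∧ M < Nv v ∧ Nv v ≤ Y}` (finite by `nv_finite`), `SA v`, `SB v` the sets of `tail_a`, `tail_b`.
(2) Let `δ > 0`. As `∑ v, 1/(Nv v)^2` converges (`summable_Nv`) there is a finite set `s` of primes such that
`∑ v ∈ t, 1/(Nv v)^2 < δ` for all finite `t` disjoint from `s` (`summable_iff_vanishing_norm` / `Summable.vanishing`); let `M` be larger than all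
`Nv v`, `v ∈ s`. Then `∑ v ∈ V, 1/(Nv v)^2 < δ` for every `X`.
(3) So `ncard (Tail K M X) ≤ ∑ v ∈ V, 4 C^2 (2 X^(5n)/(Nv v)^2 + X^(2n)) ≤ 8 C^2 δ X^(5n) + 4 C^2 X^(2n) ncard {v | Nv v ≤ Y}`, and for `X` large
(`nv_little` with `η`: `Y = 6^n X^(3n) ≥ X → ∞`) `ncard {v | Nv v ≤ Y} ≤ η 6^n X^(3n)`. Choose `δ`, `η` with `8 C^2 δ ≤ ε/2`,
`4 C^2 η 6^n ≤ ε/2` (for instance `δ = ε / (16 (C^2 + 1))`, `η = ε / (8 (C^2 + 1) 6^n)`).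
-/

set_option autoImplicit false
set_option linter.unusedSectionVars false

open NumberField IsDedekindDomain H76PP

namespace H36PP

variable (K : Type) [Field K] [NumberField K]

variable {K}

theorem Tl_nv {X : ℝ} (hX : 1 ≤ X) {p : 𝓞 K × 𝓞 K} (hp : p ∈ Bx K X)
    (h0 : dsc p.1 p.2 ≠ 0) {v : HeightOneSpectrum (𝓞 K)} (hv : dsc p.1 p.2 ∈ v.asIdeal ^ 2) :
    (Nv v : ℝ) ≤ 6 ^ Module.finrank ℚ K * X ^ (3 * Module.finrank ℚ K) := by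
  have hX0 : 0 ≤ X := by linarith
  have h1 := pow_le_of_mem (by positivity) (dsc_bx hX0 hp) h0 hv
  have h2 : (31 * X ^ 6) ^ Module.finrank ℚ K ≤ (36 * X ^ 6) ^ Module.finrank ℚ K := by
    refine pow_le_pow_left₀ (by positivity) ?_ _
    have : 0 ≤ X ^ 6 := by positivity
    linarith
  have h3 : (36 * X ^ 6) ^ Module.finrank ℚ K =
      (6 ^ Module.finrank ℚ K * X ^ (3 * Module.finrank ℚ K)) ^ 2 := by
    rw [pow_mul X 3, ← mul_pow, ← pow_mul, mul_comm (Module.finrank ℚ K) 2, pow_mul]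
    congr 1
    ring
  rw [h3] at h2
  exact (pow_le_pow_iff_left₀ (Nat.cast_nonneg _) (by positivity) two_ne_zero).1 (h1.trans h2)

theorem Tl_sub {X : ℝ} (hX : 1 ≤ X) (M : ℕ) {V : Finset (HeightOneSpectrum (𝓞 K))}
    (hV : ∀ v : HeightOneSpectrum (𝓞 K), (6 : 𝓞 K) ∉ v.asIdeal → M < Nv v →
      (Nv v : ℝ) ≤ 6 ^ Module.finrank ℚ K * X ^ (3 * Module.finrank ℚ K) → v ∈ V) :
    Tail K M X ⊆ ⋃ v ∈ V, ({p : 𝓞 K × 𝓞 K | p ∈ Bx K X ∧ p.1 ≠ 0 ∧ p.1 ∈ v.asIdeal ∧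
      p.2 ∈ v.asIdeal} ∪ {p : 𝓞 K × 𝓞 K | p ∈ Bx K X ∧ p.1 ∉ v.asIdeal ∧
      dsc p.1 p.2 ∈ v.asIdeal ^ 2}) := by
  rintro p ⟨hp, h1, h2, v, h6, hM, hd⟩
  rw [Set.mem_iUnion₂]
  refine ⟨v, hV v h6 hM (Tl_nv hX hp h2 hd), ?_⟩
  by_cases ha : p.1 ∈ v.asIdeal
  · left
    refine ⟨hp, h1, ha, ?_⟩
    have hpr := v.isPrime
    have h3 : dsc p.1 p.2 ∈ v.asIdeal := Ideal.pow_le_self two_ne_zero hd
    have h4 : (27 : 𝓞 K) * p.2 ^ 2 ∈ v.asIdeal := by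
      have h5 : (27 : 𝓞 K) * p.2 ^ 2 = dsc p.1 p.2 - 4 * p.1 ^ 2 * p.1 := by
        unfold dsc
        ring
      rw [h5]
      exact sub_mem h3 (v.asIdeal.mul_mem_left _ ha)
    have h27 : (27 : 𝓞 K) ∉ v.asIdeal := by
      intro h5
      have h7 : (3 : 𝓞 K) ^ 3 ∈ v.asIdeal := by
        rw [show (3 : 𝓞 K) ^ 3 = 27 by norm_num]
        exact h5
      have h8 := hpr.mem_of_pow_mem 3 h7
      apply h6
      rw [show (6 : 𝓞 K) = 2 * 3 by norm_num]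
      exact v.asIdeal.mul_mem_left _ h8
    exact hpr.mem_of_pow_mem 2 ((hpr.mem_or_mem h4).resolve_left h27)
  · right
    exact ⟨hp, ha, hd⟩

variable (K)

theorem tail_bound {C : ℝ} (hC : 0 ≤ C) (hU : LatU K C) {ε : ℝ} (hε : 0 < ε) :
    ∃ (M : ℕ) (X₀ : ℝ), ∀ X : ℝ, X₀ ≤ X →
      ((Tail K M X).ncard : ℝ) ≤ ε * X ^ (5 * Module.finrank ℚ K) := by
  classical
  obtain ⟨n, hn⟩ : ∃ n, n = Module.finrank ℚ K := ⟨_, rfl⟩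
  have hn0 : 0 < n := by
    rw [hn]
    exact Module.finrank_pos
  have hC2 : 0 ≤ C ^ 2 := sq_nonneg C
  obtain ⟨s, hs⟩ := summable_iff_vanishing_norm.1 (summable_Nv K) (ε / (16 * (C ^ 2 + 1)))
    (by positivity)
  obtain ⟨Y₀, hY₀⟩ := nv_little K (ε / (8 * (C ^ 2 + 1) * 6 ^ n)) (by positivity)
  refine ⟨s.sup Nv, max 1 Y₀, fun X hX => ?_⟩
  have hX1 : 1 ≤ X := (le_max_left _ _).trans hX
  have hXY : Y₀ ≤ X := (le_max_right _ _).trans hX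
  have hX0 : 0 ≤ X := by linarith
  have hY : X ≤ 6 ^ n * X ^ (3 * n) := by
    have h1 : (1 : ℝ) ≤ 6 ^ n := one_le_pow₀ (by norm_num)
    have h2 : X ^ 1 ≤ X ^ (3 * n) := pow_le_pow_right₀ hX1 (by omega)
    rw [pow_one] at h2
    nlinarith
  have hfin := nv_finite K (6 ^ n * X ^ (3 * n))
  have hcnt := hY₀ _ (hXY.trans hY)
  obtain ⟨V, hVdef⟩ : ∃ V : Finset (HeightOneSpectrum (𝓞 K)), V = hfin.toFinset.filter
      (fun v => (6 : 𝓞 K) ∉ v.asIdeal ∧ s.sup Nv < Nv v) := ⟨_, rfl⟩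
  have hsub := Tl_sub (K := K) hX1 (s.sup Nv) (V := V) (by
    intro v h6 hM hv
    rw [hVdef, Finset.mem_filter, Set.Finite.mem_toFinset]
    rw [← hn] at hv
    exact ⟨hv, h6, hM⟩)
  have hf1 : ∀ v : HeightOneSpectrum (𝓞 K), ({p : 𝓞 K × 𝓞 K | p ∈ Bx K X ∧ p.1 ≠ 0 ∧
      p.1 ∈ v.asIdeal ∧ p.2 ∈ v.asIdeal} ∪ {p : 𝓞 K × 𝓞 K | p ∈ Bx K X ∧ p.1 ∉ v.asIdeal ∧
      dsc p.1 p.2 ∈ v.asIdeal ^ 2}).Finite := fun v =>
    (Bx_finite K X).subset (by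
      rintro p (hp | hp)
      · exact hp.1
      · exact hp.1)
  have h1 := (Set.ncard_le_ncard hsub (V.finite_toSet.biUnion fun v _ => hf1 v)).trans
    (Finset.set_ncard_biUnion_le V _)
  have h2 : ((Tail K (s.sup Nv) X).ncard : ℝ) ≤ ∑ v ∈ V,
      (8 * C ^ 2 * X ^ (5 * n) * (1 / (Nv v : ℝ) ^ 2) + 4 * C ^ 2 * X ^ (2 * n)) := by
    have h3 : ((Tail K (s.sup Nv) X).ncard : ℝ) ≤ ∑ v ∈ V,
        ((({p : 𝓞 K × 𝓞 K | p ∈ Bx K X ∧ p.1 ≠ 0 ∧ p.1 ∈ v.asIdeal ∧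
      p.2 ∈ v.asIdeal} ∪ {p : 𝓞 K × 𝓞 K | p ∈ Bx K X ∧ p.1 ∉ v.asIdeal ∧
      dsc p.1 p.2 ∈ v.asIdeal ^ 2}).ncard : ℕ) : ℝ) := by exact_mod_cast h1
    refine h3.trans (Finset.sum_le_sum fun v hv => ?_)
    rw [hVdef, Finset.mem_filter] at hv
    have h4 := tail_a hC hU hX1 v
    have h5 := tail_b hC hU hX1 hv.2.1
    rw [← hn] at h4 h5
    have h6 : ((({p : 𝓞 K × 𝓞 K | p ∈ Bx K X ∧ p.1 ≠ 0 ∧ p.1 ∈ v.asIdeal ∧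
      p.2 ∈ v.asIdeal} ∪ {p : 𝓞 K × 𝓞 K | p ∈ Bx K X ∧ p.1 ∉ v.asIdeal ∧
      dsc p.1 p.2 ∈ v.asIdeal ^ 2}).ncard : ℕ) : ℝ) ≤
      ({p : 𝓞 K × 𝓞 K | p ∈ Bx K X ∧ p.1 ≠ 0 ∧ p.1 ∈ v.asIdeal ∧ p.2 ∈ v.asIdeal}.ncard : ℝ) +
      ({p : 𝓞 K × 𝓞 K | p ∈ Bx K X ∧ p.1 ∉ v.asIdeal ∧
      dsc p.1 p.2 ∈ v.asIdeal ^ 2}.ncard : ℝ) := by exact_mod_cast Set.ncard_union_le _ _
    have h7 : 0 ≤ C ^ 2 * (X ^ (5 * n) * (1 / (Nv v : ℝ) ^ 2)) := by positivity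
    calc _ ≤ _ := h6
      _ ≤ _ := add_le_add h4 h5
      _ = _ := by ring
  rw [Finset.sum_add_distrib, ← Finset.mul_sum, Finset.sum_const, nsmul_eq_mul] at h2
  have h3 : ∑ v ∈ V, (1 : ℝ) / (Nv v : ℝ) ^ 2 ≤ ε / (16 * (C ^ 2 + 1)) := by
    have h4 := hs V (by
      rw [Finset.disjoint_left]
      intro v hv hv'
      rw [hVdef, Finset.mem_filter] at hv
      exact absurd (Finset.le_sup (f := Nv) hv') (not_le.2 hv.2.2))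
    exact (le_abs_self _).trans h4.le
  have h4 : (V.card : ℝ) ≤ ε / (8 * (C ^ 2 + 1) * 6 ^ n) * (6 ^ n * X ^ (3 * n)) := by
    refine le_trans ?_ hcnt
    have h5 : V.card ≤ hfin.toFinset.card := by
      rw [hVdef]
      exact Finset.card_filter_le _ _
    rw [← Set.ncard_eq_toFinset_card _ hfin] at h5
    exact_mod_cast h5
  rw [← hn]
  have e5 : 0 ≤ X ^ (5 * n) := by positivity
  have e2 : 0 ≤ X ^ (2 * n) := by positivity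
  have hq : C ^ 2 / (C ^ 2 + 1) ≤ 1 := by
    rw [div_le_one (by positivity)]
    linarith
  have k1 : 8 * C ^ 2 * X ^ (5 * n) * ∑ v ∈ V, (1 : ℝ) / (Nv v : ℝ) ^ 2 ≤ ε / 2 * X ^ (5 * n) := by
    calc 8 * C ^ 2 * X ^ (5 * n) * ∑ v ∈ V, (1 : ℝ) / (Nv v : ℝ) ^ 2
        ≤ 8 * C ^ 2 * X ^ (5 * n) * (ε / (16 * (C ^ 2 + 1))) :=
          mul_le_mul_of_nonneg_left h3 (by positivity)
      _ = ε / 2 * X ^ (5 * n) * (C ^ 2 / (C ^ 2 + 1)) := by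
          field_simp
          ring
      _ ≤ ε / 2 * X ^ (5 * n) * 1 := mul_le_mul_of_nonneg_left hq (by positivity)
      _ = ε / 2 * X ^ (5 * n) := mul_one _
  have k2 : (V.card : ℝ) * (4 * C ^ 2 * X ^ (2 * n)) ≤ ε / 2 * X ^ (5 * n) := by
    have h8 : X ^ (3 * n) * X ^ (2 * n) = X ^ (5 * n) := by
      rw [← pow_add]
      congr 1
      omega
    calc (V.card : ℝ) * (4 * C ^ 2 * X ^ (2 * n))
        ≤ (ε / (8 * (C ^ 2 + 1) * 6 ^ n) * (6 ^ n * X ^ (3 * n))) * (4 * C ^ 2 * X ^ (2 * n)) :=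
          mul_le_mul_of_nonneg_right h4 (by positivity)
      _ = ε / 2 * (X ^ (3 * n) * X ^ (2 * n)) * (C ^ 2 / (C ^ 2 + 1)) := by
          field_simp
          ring
      _ = ε / 2 * X ^ (5 * n) * (C ^ 2 / (C ^ 2 + 1)) := by rw [h8]
      _ ≤ ε / 2 * X ^ (5 * n) * 1 := mul_le_mul_of_nonneg_left hq (by positivity)
      _ = ε / 2 * X ^ (5 * n) := mul_one _
  calc _ ≤ _ := h2
    _ ≤ ε / 2 * X ^ (5 * n) + ε / 2 * X ^ (5 * n) := add_le_add k1 k2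
    _ = ε * X ^ (5 * n) := by ring

end H36PP
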