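import Pool.Agent.H36.PP.Fm
import Pool.Agent.H36.PP.Tl
import Pool.Agent.H36.PP.Dn
import Pool.Agent.H36.PP.Dv
import Pool.Agent.H76.PP.Lc
import Pool.Agent.H76.PP.Ld

/-!
Row Fl (MP_78d38b_PP, block M). Lower bound for the family: assembly. Use only STATEMENTS of the imported rows (`coset_upper` of H76/PP/Lc and
`coset_lower` of H76/PP/Ld are `LatU K C`, `LatL K c`).

PROOF. `n = finrank ℚ K`. Let `C`, `c₁` be the constants of `coset_upper`, `coset_lower`, `c₀` the constant of `prod_lower K`. `F6` := the finite set of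
the primes containing `6` (finite: `Nv v ≤ absNorm (span {6})`, `nv_finite`; or `Ideal.finite_factors`), `κ := (1/(Nv q₀)^2) * ∏ v ∈ F6, 1/(Nv v)^2 * c₀ > 0`,
`c := c₁^2 κ / 2`. Given `T` as in the statement put `Π := ∏ v ∈ T, (1/2 * (1 - 1/Nv v)) > 0` (`Nv v ≥ 5` by `five_le`), `ε := c Π > 0`, and `M`, `X₁` from
`tail_bound K _ _ (ε)`. `FM := {v | 6 ∉ v ∧ v ≠ q₀ ∧ v ∉ T ∧ Nv v ≤ M}`, finite (`nv_finite`).
Let `F := {q₀} ∪ T ∪ F6 ∪ FM` (disjoint union of finite sets) and define `I v := v.asIdeal ^ (if v ∈ FM then 2 else 1)`,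
`P v := if v = q₀ then Pq v else if v ∈ T then Pt v else if 6 ∈ v then P6 v else Po v`, `d v` correspondingly (`1/(Nv v)^2`, `1/2 (1 - 1/Nv v)`,
`1/(Nv v)^2`, `1 - 3/(Nv v)^2`). By `dens_q`, `dens_t`, `dens_6`, `dens_o`: `Dens (I v) (P v) (d v)`, `0 ≤ d v` (`Nv v ≥ 5` in the last case), `I v ≠ ⊥`, and
`I v`, `I w` are coprime for `v ≠ w` (distinct maximal ideals are coprime, `Ideal.isCoprime_of_isMaximal`, `IsCoprime.pow`). `dens_prod` and `dens_lower` (with `hf := Bx_finite`) give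
`X₂` with, for `X ≥ X₂`, `c₁^2 (∏ v ∈ F, d v) X^(5n) ≤ ncard {p ∈ Bx K X | ∀ v ∈ F, p ∈ P v}`, and
`∏ v ∈ F, d v = (1/(Nv q₀)^2) * Π * ∏ v ∈ F6, 1/(Nv v)^2 * ∏ v ∈ FM, (1 - 3/(Nv v)^2) ≥ κ Π`.
[A simpler way to avoid case distinctions: apply `dens_prod` separately to `T`, `F6`, `FM` and combine with `dens_mul` three times; the products of the ideals
are coprime by `IsCoprime.prod_left/right`.]
Every `p ∈ Bx K X` with `p ∈ P v` for all `v ∈ F` which is not in `Tail K M X` satisfies `Fam q₀ T p.1 p.2` (`fam_of`). So for `X ≥ max X₁ X₂ 0`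
`ncard {p ∈ Bx K X | Fam q₀ T p.1 p.2} ≥ c₁^2 κ Π X^(5n) - ε X^(5n) = (2 c - c) Π X^(5n) = c Π X^(5n)` (all sets are subsets of the finite set `Bx K X`;
`Set.le_ncard_diff` or `Set.ncard_le_ncard` of the set in the union of the two others and `Set.ncard_union_le`).
-/

set_option autoImplicit false
set_option linter.unusedSectionVars false

open NumberField IsDedekindDomain H76PP

namespace H36PP

variable (K : Type) [Field K] [NumberField K]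

private theorem Fl_cop {v w : HeightOneSpectrum (𝓞 K)} (h : v ≠ w) (a b : ℕ) :
    IsCoprime (v.asIdeal ^ a) (w.asIdeal ^ b) := by
  apply IsCoprime.pow
  rw [Ideal.isCoprime_iff_sup_eq]
  exact Ideal.IsMaximal.coprime_of_ne v.isMaximal w.isMaximal fun h' => h (HeightOneSpectrum.ext h')

private theorem Fl_cop1 {v w : HeightOneSpectrum (𝓞 K)} (h : v ≠ w) :
    IsCoprime v.asIdeal w.asIdeal := by
  have h1 := Fl_cop K h 1 1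
  rwa [pow_one, pow_one] at h1

private theorem Fl_cop2 {v w : HeightOneSpectrum (𝓞 K)} (h : v ≠ w) :
    IsCoprime v.asIdeal (w.asIdeal ^ 2) := by
  have h1 := Fl_cop K h 1 2
  rwa [pow_one] at h1

private theorem Fl_six : {v : HeightOneSpectrum (𝓞 K) | (6 : 𝓞 K) ∈ v.asIdeal}.Finite := by
  refine (nv_finite K ((Ideal.absNorm (Ideal.span {(6 : 𝓞 K)}) : ℕ) : ℝ)).subset ?_
  intro v hv
  have h1 : Ideal.span {(6 : 𝓞 K)} ≤ v.asIdeal := (Ideal.span_singleton_le_iff_mem _).2 hv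
  have h2 := Ideal.absNorm_dvd_absNorm_of_le h1
  have h3 : Ideal.absNorm (Ideal.span {(6 : 𝓞 K)}) ≠ 0 := by
    rw [Ne, Ideal.absNorm_eq_zero_iff, Ideal.span_singleton_eq_bot]
    norm_num
  have h4 := Nat.le_of_dvd (Nat.pos_of_ne_zero h3) h2
  show ((Nv v : ℕ) : ℝ) ≤ _
  exact_mod_cast h4

private theorem Fl_pos (v : HeightOneSpectrum (𝓞 K)) : (0 : ℝ) < (Nv v : ℝ) := by
  have h := Sm_pos v
  exact_mod_cast Nat.pos_of_ne_zero h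

theorem fam_lower (q₀ : HeightOneSpectrum (𝓞 K)) (h6 : (6 : 𝓞 K) ∉ q₀.asIdeal) :
    ∃ c : ℝ, 0 < c ∧ ∀ T : Finset (HeightOneSpectrum (𝓞 K)),
      (∀ v ∈ T, v ≠ q₀ ∧ (6 : 𝓞 K) ∉ v.asIdeal) → ∃ X₀ : ℝ, ∀ X : ℝ, X₀ ≤ X →
        c * (∏ v ∈ T, (1 / 2 * (1 - 1 / (Nv v : ℝ)))) * X ^ (5 * Module.finrank ℚ K) ≤
          ({p : 𝓞 K × 𝓞 K | p ∈ Bx K X ∧ Fam q₀ T p.1 p.2}.ncard : ℝ) := by
  classical
  obtain ⟨C, hC1, hU⟩ := coset_upper K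
  obtain ⟨c₁, hc₁, hL⟩ := coset_lower K
  obtain ⟨c₀, hc₀, hP⟩ := prod_lower K
  obtain ⟨F6, hF6⟩ : ∃ F6 : Finset (HeightOneSpectrum (𝓞 K)), ∀ v, v ∈ F6 ↔ (6 : 𝓞 K) ∈ v.asIdeal :=
    ⟨(Fl_six K).toFinset, fun v => (Fl_six K).mem_toFinset⟩
  obtain ⟨d1, hd1⟩ : ∃ d1 : ℝ, d1 = 1 / (Nv q₀ : ℝ) ^ 2 := ⟨_, rfl⟩
  obtain ⟨d3, hd3⟩ : ∃ d3 : ℝ, d3 = ∏ v ∈ F6, (1 / (Nv v : ℝ) ^ 2) := ⟨_, rfl⟩
  have hd1p : 0 < d1 := by
    rw [hd1]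
    exact div_pos one_pos (pow_pos (Fl_pos K q₀) 2)
  have hd3p : 0 < d3 := by
    rw [hd3]
    exact Finset.prod_pos fun v _ => div_pos one_pos (pow_pos (Fl_pos K v) 2)
  refine ⟨c₁ ^ 2 * (d1 * d3 * c₀) / 2, by positivity, fun T hT => ?_⟩
  obtain ⟨d2, hd2⟩ : ∃ d2 : ℝ, d2 = ∏ v ∈ T, (1 / 2 * (1 - 1 / (Nv v : ℝ))) := ⟨_, rfl⟩
  rw [← hd2]
  have hT5 : ∀ v ∈ T, 0 < 1 / 2 * (1 - 1 / (Nv v : ℝ)) := by
    intro v hv
    have h1 : (5 : ℝ) ≤ (Nv v : ℝ) := by exact_mod_cast five_le K (hT v hv).2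
    have h2 : 1 / (Nv v : ℝ) < 1 := by
      rw [div_lt_one (by linarith)]
      linarith
    linarith
  have hd2p : 0 < d2 := by
    rw [hd2]
    exact Finset.prod_pos hT5
  obtain ⟨c, hc⟩ : ∃ c, c = c₁ ^ 2 * (d1 * d3 * c₀) / 2 := ⟨_, rfl⟩
  rw [← hc]
  have hcp : 0 < c := by
    rw [hc]
    positivity
  obtain ⟨M, X₁, hM⟩ := tail_bound K (zero_le_one.trans hC1) hU (mul_pos hcp hd2p)
  have hfin : {v : HeightOneSpectrum (𝓞 K) | (6 : 𝓞 K) ∉ v.asIdeal ∧ v ≠ q₀ ∧ v ∉ T ∧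
      Nv v ≤ M}.Finite := by
    refine (nv_finite K (M : ℝ)).subset ?_
    rintro v ⟨-, -, -, h⟩
    show ((Nv v : ℕ) : ℝ) ≤ (M : ℝ)
    exact_mod_cast h
  obtain ⟨FM, hFM⟩ : ∃ FM : Finset (HeightOneSpectrum (𝓞 K)), ∀ v, v ∈ FM ↔
      ((6 : 𝓞 K) ∉ v.asIdeal ∧ v ≠ q₀ ∧ v ∉ T ∧ Nv v ≤ M) :=
    ⟨hfin.toFinset, fun v => hfin.mem_toFinset⟩
  obtain ⟨d4, hd4⟩ : ∃ d4 : ℝ, d4 = ∏ v ∈ FM, (1 - 3 / (Nv v : ℝ) ^ 2) := ⟨_, rfl⟩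
  have hM5 : ∀ v ∈ FM, 0 ≤ 1 - 3 / (Nv v : ℝ) ^ 2 := by
    intro v hv
    have h1 : (5 : ℝ) ≤ (Nv v : ℝ) := by exact_mod_cast five_le K ((hFM v).1 hv).1
    have h2 : (25 : ℝ) ≤ (Nv v : ℝ) ^ 2 := by nlinarith
    have h3 : 3 / (Nv v : ℝ) ^ 2 ≤ 1 := by
      rw [div_le_one (by linarith)]
      linarith
    linarith
  have hd4c : c₀ ≤ d4 := by
    rw [hd4]
    exact hP FM fun v hv => ((hFM v).1 hv).1
  have D1 := dens_q q₀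
  rw [← hd1] at D1
  have D2 := dens_prod T (fun v => v.asIdeal) Pt (fun v => 1 / 2 * (1 - 1 / (Nv v : ℝ)))
    (fun v _ => v.ne_bot) (fun v _ w _ h => Fl_cop1 K h) (fun v hv => (hT5 v hv).le)
    (fun v hv => dens_t (hT v hv).2)
  rw [← hd2] at D2
  have D3 := dens_prod F6 (fun v => v.asIdeal) P6 (fun v => 1 / (Nv v : ℝ) ^ 2)
    (fun v _ => v.ne_bot) (fun v _ w _ h => Fl_cop1 K h)
    (fun v _ => (div_pos one_pos (pow_pos (Fl_pos K v) 2)).le) (fun v _ => dens_6 v)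
  rw [← hd3] at D3
  have D4 := dens_prod FM (fun v => v.asIdeal ^ 2) Po (fun v => 1 - 3 / (Nv v : ℝ) ^ 2)
    (fun v _ => pow_ne_zero 2 v.ne_bot) (fun v _ w _ h => Fl_cop K h 2 2) hM5
    (fun v hv => dens_o ((hFM v).1 hv).1)
  rw [← hd4] at D4
  have b2 : (∏ v ∈ T, v.asIdeal) ≠ (⊥ : Ideal (𝓞 K)) :=
    Finset.prod_ne_zero_iff.2 fun v _ => v.ne_bot
  have b3 : (∏ v ∈ F6, v.asIdeal) ≠ (⊥ : Ideal (𝓞 K)) :=
    Finset.prod_ne_zero_iff.2 fun v _ => v.ne_bot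
  have b4 : (∏ v ∈ FM, v.asIdeal ^ 2) ≠ (⊥ : Ideal (𝓞 K)) :=
    Finset.prod_ne_zero_iff.2 fun v _ => pow_ne_zero 2 v.ne_bot
  have n6 : ∀ v ∈ F6, v ≠ q₀ := by
    rintro v hv rfl
    exact h6 ((hF6 _).1 hv)
  have n7 : ∀ v ∈ F6, ∀ t ∈ T, t ≠ v := by
    rintro v hv t ht rfl
    exact (hT _ ht).2 ((hF6 _).1 hv)
  have n8 : ∀ v ∈ FM, ∀ t ∈ T, t ≠ v := by
    rintro v hv t ht rfl
    exact ((hFM _).1 hv).2.2.1 ht
  have n9 : ∀ v ∈ FM, ∀ t ∈ F6, t ≠ v := by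
    rintro v hv t ht rfl
    exact ((hFM _).1 hv).1 ((hF6 _).1 ht)
  have D12 := dens_mul q₀.ne_bot b2 (IsCoprime.prod_right fun v hv =>
    Fl_cop1 K (hT v hv).1.symm) hd1p.le hd2p.le D1 D2
  have b12 : q₀.asIdeal * (∏ v ∈ T, v.asIdeal) ≠ (⊥ : Ideal (𝓞 K)) := mul_ne_zero q₀.ne_bot b2
  have D123 := dens_mul b12 b3 (IsCoprime.prod_right fun v hv => IsCoprime.mul_left
    (Fl_cop1 K (n6 v hv).symm) (IsCoprime.prod_left fun t ht => Fl_cop1 K (n7 v hv t ht)))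
    (mul_pos hd1p hd2p).le hd3p.le D12 D3
  have b123 : q₀.asIdeal * (∏ v ∈ T, v.asIdeal) * (∏ v ∈ F6, v.asIdeal) ≠ (⊥ : Ideal (𝓞 K)) :=
    mul_ne_zero b12 b3
  have D := dens_mul b123 b4 (IsCoprime.prod_right fun v hv => IsCoprime.mul_left (IsCoprime.mul_left
    (Fl_cop2 K ((hFM v).1 hv).2.1.symm)
    (IsCoprime.prod_left fun t ht => Fl_cop2 K (n8 v hv t ht)))
    (IsCoprime.prod_left fun t ht => Fl_cop2 K (n9 v hv t ht)))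
    (mul_pos (mul_pos hd1p hd2p) hd3p).le (hc₀.le.trans hd4c) D123 D4
  obtain ⟨X₂, hX₂⟩ := dens_lower hc₁.le hL (Bx_finite K) (mul_ne_zero b123 b4) D
  refine ⟨max (max X₁ X₂) 0, fun X hX => ?_⟩
  have hX1 : X₁ ≤ X := ((le_max_left _ _).trans (le_max_left _ _)).trans hX
  have hX2 : X₂ ≤ X := ((le_max_right _ _).trans (le_max_left _ _)).trans hX
  have hX0 : 0 ≤ X := (le_max_right _ _).trans hX
  have e1 := hX₂ X hX2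
  have e2 := hM X hX1
  have hS : {p : 𝓞 K × 𝓞 K | p ∈ Bx K X ∧ Fam q₀ T p.1 p.2}.Finite :=
    (Bx_finite K X).subset fun p hp => hp.1
  have hTl : (Tail K M X).Finite := (Bx_finite K X).subset fun p hp => hp.1
  have hsub : {p : 𝓞 K × 𝓞 K | p ∈ Bx K X ∧ p ∈ Pq q₀ ∩ {p | ∀ v ∈ T, p ∈ Pt v} ∩
      {p | ∀ v ∈ F6, p ∈ P6 v} ∩ {p | ∀ v ∈ FM, p ∈ Po v}} ⊆
      {p : 𝓞 K × 𝓞 K | p ∈ Bx K X ∧ Fam q₀ T p.1 p.2} ∪ Tail K M X := by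
    rintro p ⟨hp, ⟨⟨hp1, hp2⟩, hp3⟩, hp4⟩
    by_cases ht : p ∈ Tail K M X
    · exact Or.inr ht
    · exact Or.inl ⟨hp, fam_of h6 hT hp hp1 hp2 (fun v hv => hp3 v ((hF6 v).2 hv))
        (fun v a1 a2 a3 a4 => hp4 v ((hFM v).2 ⟨a1, a2, a3, a4⟩)) ht⟩
  have e3 := (Set.ncard_le_ncard hsub (hS.union hTl)).trans (Set.ncard_union_le _ _)
  have e4 : ({p : 𝓞 K × 𝓞 K | p ∈ Bx K X ∧ p ∈ Pq q₀ ∩ {p | ∀ v ∈ T, p ∈ Pt v} ∩
      {p | ∀ v ∈ F6, p ∈ P6 v} ∩ {p | ∀ v ∈ FM, p ∈ Po v}}.ncard : ℝ) ≤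
      ({p : 𝓞 K × 𝓞 K | p ∈ Bx K X ∧ Fam q₀ T p.1 p.2}.ncard : ℝ) + ((Tail K M X).ncard : ℝ) := by
    exact_mod_cast e3
  obtain ⟨Z, hZ⟩ : ∃ Z, Z = X ^ (5 * Module.finrank ℚ K) := ⟨_, rfl⟩
  have hZ0 : 0 ≤ Z := by
    rw [hZ]
    exact pow_nonneg hX0 _
  rw [← hZ] at e1 e2 ⊢
  have e5 : c₁ ^ 2 * (d1 * d2 * d3 * c₀) * Z ≤ c₁ ^ 2 * (d1 * d2 * d3 * d4) * Z := by
    refine mul_le_mul_of_nonneg_right (mul_le_mul_of_nonneg_left ?_ (by positivity)) hZ0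
    exact mul_le_mul_of_nonneg_left hd4c (by positivity)
  have e6 : c₁ ^ 2 * (d1 * d2 * d3 * c₀) * Z = 2 * (c * d2 * Z) := by
    rw [hc]
    ring
  linarith

end H36PP
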