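import Pool.Agent.H76.PP.Df1

/-!
Row Tw (MP_78d38b_PP, block M). Existence of twisting factors. Only the definitions `AuxP`, `TwD` of H76/PP/Df1.

PROOF of prod_two: induction on `J`: `D_p E - 1 = (D_p - 1) E + (E - 1)` and `v E ≤ 1` because `v (E - 1) ≤ v 8 ≤ 1` (`8` is integral: `v.valuation_le_one`).
PROOF of exists_twist: for `p ∈ J` choose `d p : K` as in `AuxP q₀ p` (take `d p := 1` for the others), `E := ∏ p ∈ J, d p ≠ 0`. Write `E = x / y` with `x, y : 𝓞 K`, `y ≠ 0`
(`IsFractionRing.div_surjective`), `D := x * y`, so `D = y^2 E` in `K`. ne: clear. odd: for `v ∈ J` the valuation of `E` is `exp (-1)`: the factor `p = v` gives `exp (-1)`, the other factors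
`1` (`v ≠ q₀` by `AuxP q₀ v`; `Finset.prod_eq_single` after `map_prod`); so `V D = (V y)^2 exp (-1)`, `ord V D = -log (V D) = -2 log (V y) + 1` (`WithZero.log_mul`, `log_pow`, `log_exp`), odd.
even: for `v ∉ J`, `v ≠ q₀` all factors have valuation `1`; `ord V D = -2 log (V y)`. two: `m := 1 / y` (`D m^2 = E`) and `prod_two`. pos: `s D = (s y)^2 * ∏ s (d p) > 0` (`s y ≠ 0`).
(The coercions: `V y` is `v.valuation K (y : K)`, not zero because `y ≠ 0`.)
-/

set_option autoImplicit false
set_option linter.unusedSectionVars false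
open scoped Classical

open WithZero NumberField IsDedekindDomain H38RT H76PP

namespace H36PP

variable {K : Type} [Field K] [NumberField K]

theorem prod_two (v : HeightOneSpectrum (𝓞 K)) {ι : Type*} (J : Finset ι) (d : ι → K)
    (h : ∀ i ∈ J, v.valuation K (d i - 1) ≤ v.valuation K 8) :
    v.valuation K (∏ i ∈ J, d i - 1) ≤ v.valuation K 8 := by
  have h8 : v.valuation K (8 : K) ≤ 1 := by
    rw [← map_ofNat (algebraMap (𝓞 K) K) 8]
    exact v.valuation_le_one (K := K) (8 : 𝓞 K)
  induction J using Finset.induction_on with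
  | empty => simp
  | insert a J ha ih =>
    rw [Finset.prod_insert ha]
    have h1 := h a (Finset.mem_insert_self a J)
    have h2 := ih (fun i hi => h i (Finset.mem_insert_of_mem hi))
    have h3 : v.valuation K (∏ i ∈ J, d i) ≤ 1 := by
      have e : ∏ i ∈ J, d i = (∏ i ∈ J, d i - 1) + 1 := by ring
      rw [e]
      refine (Valuation.map_add _ _ _).trans ?_
      rw [map_one]
      exact max_le (h2.trans h8) le_rfl
    have e : d a * ∏ i ∈ J, d i - 1 = (d a - 1) * ∏ i ∈ J, d i + (∏ i ∈ J, d i - 1) := by ring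
    rw [e]
    refine (Valuation.map_add _ _ _).trans (max_le ?_ h2)
    rw [map_mul]
    calc _ ≤ v.valuation K 8 * 1 := mul_le_mul' h1 h3
      _ = _ := mul_one _

theorem exists_twist {q₀ : HeightOneSpectrum (𝓞 K)} {J : Finset (HeightOneSpectrum (𝓞 K))}
    (hJ : ∀ p ∈ J, AuxP q₀ p) : ∃ D : 𝓞 K, TwD q₀ J (D : K) := by
  have hex : ∀ p : HeightOneSpectrum (𝓞 K), ∃ D : K, p ∈ J → (D ≠ 0 ∧
      p.valuation K D = exp (-1) ∧ q₀.valuation K D = exp 1 ∧
    (∀ v : HeightOneSpectrum (𝓞 K), v ≠ p → v ≠ q₀ → v.valuation K D = 1) ∧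
    (∀ v : HeightOneSpectrum (𝓞 K), v.valuation K 2 < 1 →
      v.valuation K (D - 1) ≤ v.valuation K 8) ∧ ∀ s : K →+* ℝ, 0 < s D) := by
    intro p
    by_cases hp : p ∈ J
    · obtain ⟨_, _, D, hD⟩ := hJ p hp
      exact ⟨D, fun _ => hD⟩
    · exact ⟨1, fun h => absurd h hp⟩
  choose d hd using hex
  set E : K := ∏ p ∈ J, d p with hE
  have hE0 : E ≠ 0 := Finset.prod_ne_zero_iff.2 fun p hp => (hd p hp).1
  obtain ⟨x, y, hy, hxy⟩ := IsFractionRing.div_surjective (A := 𝓞 K) E
  have hy0 : (y : K) ≠ 0 := by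
    have := nonZeroDivisors.ne_zero hy
    intro h
    exact this (by exact_mod_cast h)
  have hDE : ((x * y : 𝓞 K) : K) = (y : K) ^ 2 * E := by
    have : E = (x : K) / (y : K) := hxy.symm
    rw [this]
    push_cast
    field_simp
  have hv1 : ∀ v : HeightOneSpectrum (𝓞 K), v ∉ J → v ≠ q₀ → v.valuation K E = 1 := by
    intro v hv hq
    rw [hE, map_prod]
    refine Finset.prod_eq_one fun p hp => ?_
    exact (hd p hp).2.2.2.1 v (fun h => hv (h ▸ hp)) hq
  have hv2 : ∀ v ∈ J, v.valuation K E = exp (-1) := by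
    intro v hv
    rw [hE, map_prod, Finset.prod_eq_single v]
    · exact (hd v hv).2.1
    · intro p hp hpv
      exact (hd p hp).2.2.2.1 v (Ne.symm hpv) (hJ v hv).2.1
    · intro h
      exact absurd hv h
  have hyv : ∀ v : HeightOneSpectrum (𝓞 K), v.valuation K (y : K) ≠ 0 := by
    intro v
    rw [Valuation.ne_zero_iff]
    exact hy0
  refine ⟨x * y, ?_, ?_, ?_, ?_, ?_⟩
  · rw [hDE]
    exact mul_ne_zero (pow_ne_zero _ hy0) hE0
  · intro v hv
    rw [hDE, ord, map_mul, map_pow, hv2 v hv, log_mul (pow_ne_zero _ (hyv v)) (by simp),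
      log_pow, log_exp]
    refine ⟨- log (v.valuation K (y : K)), ?_⟩
    simp only [nsmul_eq_mul]
    push_cast
    ring
  · intro v hv hq
    rw [hDE, ord, map_mul, map_pow, hv1 v hv hq, mul_one, log_pow]
    refine ⟨- log (v.valuation K (y : K)), ?_⟩
    simp only [nsmul_eq_mul]
    push_cast
    ring
  · intro v hv
    refine ⟨1 / (y : K), by simpa using hy0, ?_⟩
    have e : ((x * y : 𝓞 K) : K) * (1 / (y : K)) ^ 2 = E := by
      rw [hDE]
      field_simp
    rw [e]
    exact prod_two v J d fun p hp => (hd p hp).2.2.2.2.1 v hv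
  · intro s
    rw [hDE, map_mul, map_pow, hE, map_prod]
    have : s (y : K) ≠ 0 := by
      rw [Ne, map_eq_zero]
      exact hy0
    refine mul_pos (by positivity) (Finset.prod_pos fun p hp => (hd p hp).2.2.2.2.2 s)

end H36PP
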