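import Pool.Agent.H36.PP.Nb
import Pool.Agent.H36.PP.Bu
import Pool.Agent.H36.PP.Fl
import Pool.Agent.H36.PP.Ax
import Pool.Agent.H36.PP.Tw

/-!
Block M of MP_78d38b_PP, assembly: the five interface theorems
`H36PP.Bx_finite`, `H36PP.Bx_upper`, `H36PP.fam_lower`, `H36PP.aux_primes`, `H36PP.exists_twist`.
-/

set_option autoImplicit false
set_option linter.unusedSectionVars false
open scoped Classical

open WithZero NumberField IsDedekindDomain H38RT H76PP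

namespace H36PP.Check

variable (K : Type) [Field K] [NumberField K]

example (X : ℝ) : (Bx K X).Finite := H36PP.Bx_finite K X

example : ∃ C : ℝ, 0 < C ∧ ∀ X : ℝ, 1 ≤ X →
    ((Bx K X).ncard : ℝ) ≤ C * X ^ (5 * Module.finrank ℚ K) := H36PP.Bx_upper K

example (q₀ : HeightOneSpectrum (𝓞 K)) (h6 : (6 : 𝓞 K) ∉ q₀.asIdeal) :
    ∃ c : ℝ, 0 < c ∧ ∀ T : Finset (HeightOneSpectrum (𝓞 K)),
      (∀ v ∈ T, v ≠ q₀ ∧ (6 : 𝓞 K) ∉ v.asIdeal) → ∃ X₀ : ℝ, ∀ X : ℝ, X₀ ≤ X →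
        c * (∏ v ∈ T, (1 / 2 * (1 - 1 / (Nv v : ℝ)))) * X ^ (5 * Module.finrank ℚ K) ≤
          ({p : 𝓞 K × 𝓞 K | p ∈ Bx K X ∧ Fam q₀ T p.1 p.2}.ncard : ℝ) := H36PP.fam_lower K q₀ h6

example : ∃ q₀ : HeightOneSpectrum (𝓞 K), (6 : 𝓞 K) ∉ q₀.asIdeal ∧
    {p : HeightOneSpectrum (𝓞 K) | AuxP q₀ p}.Infinite := H36PP.aux_primes K

example {q₀ : HeightOneSpectrum (𝓞 K)} {J : Finset (HeightOneSpectrum (𝓞 K))}
    (hJ : ∀ p ∈ J, AuxP q₀ p) : ∃ D : 𝓞 K, TwD q₀ J (D : K) := H36PP.exists_twist hJ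

end H36PP.Check
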