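import Pool.Agent.H36.PP.Pr
import Pool.Agent.H36.PP.Pk
import Pool.Agent.H76.PP.Df1

/-!
Auxiliary primes inside a given infinite set of primes (for MP_78d38b_PPN; modification of row Ax, proved).
-/

set_option autoImplicit false
set_option linter.unusedSectionVars false
open scoped Classical

open WithZero NumberField IsDedekindDomain H76PP

namespace H36PP

variable (K : Type) [Field K] [NumberField K]

theorem six_fin : {v : HeightOneSpectrum (𝓞 K) | (6 : 𝓞 K) ∈ v.asIdeal}.Finite := by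
  refine (nv_finite K ((Ideal.absNorm (Ideal.span {(6 : 𝓞 K)}) : ℕ) : ℝ)).subset ?_
  intro v hv
  have h1 : Ideal.span {(6 : 𝓞 K)} ≤ v.asIdeal := (Ideal.span_singleton_le_iff_mem _).2 hv
  have h2 := Ideal.absNorm_dvd_absNorm_of_le h1
  have h3 : Ideal.absNorm (Ideal.span {(6 : 𝓞 K)}) ≠ 0 := by
    rw [Ne, Ideal.absNorm_eq_zero_iff, Ideal.span_singleton_eq_bot]
    norm_num
  have h4 := Nat.le_of_dvd (Nat.pos_of_ne_zero h3) h2
  show ((Nv v : ℕ) : ℝ) ≤ _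
  exact_mod_cast h4

variable {K}

theorem aux_primes_in {Z : Set (HeightOneSpectrum (𝓞 K))} (hZ : Z.Infinite) :
    ∃ q₀ ∈ Z, (6 : 𝓞 K) ∉ q₀.asIdeal ∧
    {p : HeightOneSpectrum (𝓞 K) | p ∈ Z ∧ AuxP q₀ p}.Infinite := by
  have hI : ∀ c : ClassGroup (𝓞 K), ∃ I : (nonZeroDivisors (Ideal (𝓞 K))),
      ClassGroup.mk0 I = c⁻¹ := fun c => ClassGroup.mk0_surjective c⁻¹
  choose I hI using hI
  have hI0 : ∀ c, (I c : Ideal (𝓞 K)) ≠ ⊥ := fun c => by
    have := nonZeroDivisors.ne_zero (I c).2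
    simpa using this
  obtain ⟨N, hN0, hNI⟩ : ∃ N : ℕ, N ≠ 0 ∧ ∀ c, (N : 𝓞 K) ∈ (I c : Ideal (𝓞 K)) := by
    refine ⟨∏ c, Ideal.absNorm (I c : Ideal (𝓞 K)), ?_, ?_⟩
    · refine Finset.prod_ne_zero_iff.2 fun c _ => ?_
      rw [Ne, Ideal.absNorm_eq_zero_iff]
      exact hI0 c
    · intro c
      obtain ⟨k, hk⟩ : Ideal.absNorm (I c : Ideal (𝓞 K)) ∣
          ∏ c, Ideal.absNorm (I c : Ideal (𝓞 K)) := Finset.dvd_prod_of_mem _ (Finset.mem_univ c)
      rw [hk]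
      push_cast
      exact Ideal.mul_mem_right _ _ (Ideal.absNorm_mem _)
  let cl : HeightOneSpectrum (𝓞 K) → ClassGroup (𝓞 K) := fun v =>
    ClassGroup.mk0 ⟨v.asIdeal, mem_nonZeroDivisors_iff_ne_zero.2 v.ne_bot⟩
  have hg : ∀ v : HeightOneSpectrum (𝓞 K), ∃ g : 𝓞 K,
      v.asIdeal * (I (cl v) : Ideal (𝓞 K)) = Ideal.span {g} := by
    intro v
    have h1 : ClassGroup.mk0 (⟨v.asIdeal, mem_nonZeroDivisors_iff_ne_zero.2 v.ne_bot⟩ *
        I (cl v)) = 1 := by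
      rw [map_mul, hI]
      exact mul_inv_cancel _
    rw [ClassGroup.mk0_eq_one_iff] at h1
    obtain ⟨g, hg⟩ := h1.principal
    exact ⟨g, hg⟩
  choose g hg using hg
  haveI : Finite (K →+* ℝ) := by
    refine Finite.of_injective (fun s : K →+* ℝ => (Complex.ofRealHom.comp s : K →+* ℂ)) ?_
    intro s t hst
    ext x
    have := congrArg (fun f : K →+* ℂ => f x) hst
    simpa using this
  have h8N : (8 * N : 𝓞 K) ≠ 0 := by
    refine mul_ne_zero (by norm_num) ?_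
    exact_mod_cast hN0
  haveI : Finite (𝓞 K ⧸ Ideal.span {(8 * N : 𝓞 K)}) :=
    Ideal.finiteQuotientOfFreeOfNeBot _ (by simpa using h8N)
  haveI : Infinite {v : HeightOneSpectrum (𝓞 K) | v ∈ Z ∧ (6 : 𝓞 K) ∉ v.asIdeal} := by
    refine Set.Infinite.to_subtype ((hZ.sdiff (six_fin K)).mono ?_)
    rintro v ⟨h1, h2⟩
    exact ⟨h1, h2⟩
  let f : {v : HeightOneSpectrum (𝓞 K) | v ∈ Z ∧ (6 : 𝓞 K) ∉ v.asIdeal} →
      ClassGroup (𝓞 K) × (𝓞 K ⧸ Ideal.span {(8 * N : 𝓞 K)}) × Set (K →+* ℝ) := fun v =>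
    (cl v.1, Ideal.Quotient.mk _ (g v.1), {s | 0 < s (g v.1 : K)})
  obtain ⟨y, hy⟩ := Finite.exists_infinite_fiber f
  haveI := hy
  obtain ⟨q⟩ : Nonempty (f ⁻¹' {y}) := inferInstance
  refine ⟨q.1.1, q.1.2.1, q.1.2.2, ?_⟩
  have hinf : (Set.range (fun p : f ⁻¹' {y} => p.1.1)).Infinite := by
    refine Set.infinite_range_of_injective ?_
    intro a b hab
    exact Subtype.ext (Subtype.ext hab)
  refine (hinf.sdiff (Set.finite_singleton q.1.1)).mono ?_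
  rintro _ ⟨⟨p, rfl⟩, hpq⟩
  have hpq' : p.1.1 ≠ q.1.1 := by simpa using hpq
  have hfe : f p.1 = f q.1 := by
    have h1 : f p.1 = y := p.2
    have h2 : f q.1 = y := q.2
    rw [h1, h2]
  have e1 : cl p.1.1 = cl q.1.1 := congrArg Prod.fst hfe
  have e2 : Ideal.Quotient.mk (Ideal.span {(8 * N : 𝓞 K)}) (g p.1.1) =
      Ideal.Quotient.mk _ (g q.1.1) := congrArg (fun z => z.2.1) hfe
  have e3 : {s : K →+* ℝ | 0 < s (g p.1.1 : K)} = {s | 0 < s (g q.1.1 : K)} :=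
    congrArg (fun z => z.2.2) hfe
  have ha := hg p.1.1
  have hb := hg q.1.1
  rw [e1] at ha
  obtain ⟨ha0, hb0, hv1, hv2, hv3⟩ := quot_val hpq' (hI0 _) ha hb
  have ha0' : (g p.1.1 : K) ≠ 0 := by
    intro h
    exact ha0 (by exact_mod_cast h)
  have hb0' : (g q.1.1 : K) ≠ 0 := by
    intro h
    exact hb0 (by exact_mod_cast h)
  refine ⟨p.1.2.1, p.1.2.2, hpq', (g p.1.1 : K) / (g q.1.1 : K), div_ne_zero ha0' hb0', hv1, hv2, hv3,
    ?_, ?_⟩
  · intro v hv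
    refine quot_two q.1.2.2 (hI0 _) hb ?_ hv
    have h1 := Ideal.Quotient.eq.1 e2
    obtain ⟨k, hk⟩ := Ideal.mem_span_singleton.1 h1
    rw [hk, mul_assoc]
    exact Ideal.mul_mem_mul (Ideal.mem_span_singleton_self _)
      (Ideal.mul_mem_right _ _ (hNI _))
  · intro s
    rw [map_div₀]
    have hsa : s (g p.1.1 : K) ≠ 0 := by
      rw [Ne, map_eq_zero]
      exact ha0'
    have hsb : s (g q.1.1 : K) ≠ 0 := by
      rw [Ne, map_eq_zero]
      exact hb0'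
    have hiff : 0 < s (g p.1.1 : K) ↔ 0 < s (g q.1.1 : K) := by
      have := Set.ext_iff.1 e3 s
      simpa using this
    rcases lt_or_gt_of_ne hsa with h | h
    · have hb' : s (g q.1.1 : K) < 0 := by
        rcases lt_or_gt_of_ne hsb with h' | h'
        · exact h'
        · exact absurd (hiff.2 h') (not_lt.2 h.le)
      exact div_pos_of_neg_of_neg h hb'
    · exact div_pos h (hiff.1 h)

end H36PP
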