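import Pool.Agent.H36.PP.Dn
import Pool.Agent.H76.PP.Lb

/-! Lattice points in residue classes with totally positive first coordinate (for MP_78d38b_PPN;
modification of row Dn, proved). -/

set_option autoImplicit false
set_option linter.unusedSectionVars false

open NumberField IsDedekindDomain H76PP

namespace H36PP

variable {K : Type} [Field K] [NumberField K]

theorem Dnp_pos {c : ℝ} (hc : 0 ≤ c) (hL : LatL K c) {I : Ideal (𝓞 K)} (hI : I ≠ ⊥) :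
    ∃ X₀ : ℝ, 1 ≤ X₀ ∧ ∀ X : ℝ, X₀ ≤ X → ∀ a₀ : 𝓞 K,
      c / 4 ^ Module.finrank ℚ K * ((X ^ 2) ^ Module.finrank ℚ K / (Ideal.absNorm I : ℝ)) ≤
        ({a : 𝓞 K | (a ∈ bx K (X ^ 2) ∧ ∀ s : K →+* ℝ, 0 < s (a : K)) ∧ a - a₀ ∈ I}.ncard : ℝ) := by
  obtain ⟨T₀, hT₀⟩ := hL I hI
  refine ⟨max 4 (4 * T₀), by norm_num, fun X hX a₀ => ?_⟩
  have hX4 : 4 ≤ X := (le_max_left _ _).trans hX
  have hXT : 4 * T₀ ≤ X := (le_max_right _ _).trans hX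
  have hX2 : X ≤ X ^ 2 := le_self_pow₀ (by linarith) two_ne_zero
  obtain ⟨N, hN⟩ : ∃ N : ℕ, N = ⌊X ^ 2 / 2⌋₊ := ⟨_, rfl⟩
  have hN1 : (N : ℝ) ≤ X ^ 2 / 2 := by
    rw [hN]
    exact Nat.floor_le (by positivity)
  have hN2 : X ^ 2 / 2 < N + 1 := by
    rw [hN]
    exact Nat.lt_floor_add_one _
  have hX16 : 16 ≤ X ^ 2 := by nlinarith
  have hN3 : X ^ 2 / 4 < N := by linarith
  have h1 := hT₀ (X ^ 2 / 4) (by linarith) (a₀ - N)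
  have hfin : {a : 𝓞 K | (a ∈ bx K (X ^ 2) ∧ ∀ s : K →+* ℝ, 0 < s (a : K)) ∧ a - a₀ ∈ I}.Finite := by
    refine (bx_finite K (X ^ 2)).subset fun a ha => ha.1.1
  have h2 : (fun a : 𝓞 K => a + (N : 𝓞 K)) '' {a : 𝓞 K | a ∈ bx K (X ^ 2 / 4) ∧ a - (a₀ - N) ∈ I} ⊆
      {a : 𝓞 K | (a ∈ bx K (X ^ 2) ∧ ∀ s : K →+* ℝ, 0 < s (a : K)) ∧ a - a₀ ∈ I} := by
    rintro _ ⟨a, ⟨ha1, ha2⟩, rfl⟩
    refine ⟨⟨fun s => ?_, fun s => ?_⟩, ?_⟩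
    · have h3 := ha1 s
      have h4 : s ((a + (N : 𝓞 K) : 𝓞 K) : K) = s (a : K) + (N : ℂ) := by
        push_cast
        rw [map_add, map_natCast]
      rw [h4]
      refine (norm_add_le _ _).trans ?_
      rw [Complex.norm_natCast]
      have h5 : 0 ≤ X ^ 2 := by positivity
      linarith
    · have h3 := ha1 (Complex.ofRealHom.comp s)
      have h4 : s ((a + (N : 𝓞 K) : 𝓞 K) : K) = s (a : K) + (N : ℝ) := by
        push_cast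
        rw [map_add, map_natCast]
      rw [h4]
      have h5 : ‖(Complex.ofRealHom.comp s) (a : K)‖ = |s (a : K)| := by
        show ‖((s (a : K) : ℝ) : ℂ)‖ = _
        rw [Complex.norm_real, Real.norm_eq_abs]
      rw [h5] at h3
      have h6 := (abs_le.1 h3).1
      linarith
    · have h3 : a + (N : 𝓞 K) - a₀ = a - (a₀ - N) := by ring
      show a + (N : 𝓞 K) - a₀ ∈ I
      rw [h3]
      exact ha2
  have h3 := Set.ncard_le_ncard h2 hfin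
  rw [Set.ncard_image_of_injective _ (add_left_injective _)] at h3
  have h4 : ({a : 𝓞 K | a ∈ bx K (X ^ 2 / 4) ∧ a - (a₀ - N) ∈ I}.ncard : ℝ) ≤
      ({a : 𝓞 K | (a ∈ bx K (X ^ 2) ∧ ∀ s : K →+* ℝ, 0 < s (a : K)) ∧ a - a₀ ∈ I}.ncard : ℝ) := by
    exact_mod_cast h3
  refine le_trans (le_of_eq ?_) (h1.trans h4)
  rw [div_pow]
  ring

theorem dens_lower_pos {c : ℝ} (hc : 0 ≤ c) (hL : LatL K c) (hf : ∀ X : ℝ, (Bx K X).Finite)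
    {I : Ideal (𝓞 K)} (hI : I ≠ ⊥) {P : Set (𝓞 K × 𝓞 K)} {d : ℝ} (h : Dens I P d) :
    ∃ X₀ : ℝ, ∀ X : ℝ, X₀ ≤ X →
      c ^ 2 / 4 ^ Module.finrank ℚ K * d * X ^ (5 * Module.finrank ℚ K) ≤
      ({p : 𝓞 K × 𝓞 K | (p ∈ Bx K X ∧ ∀ s : K →+* ℝ, 0 < s (p.1 : K)) ∧ p ∈ P}.ncard : ℝ) := by
  classical
  obtain ⟨T₀, hT₀⟩ := hL I hI
  obtain ⟨X₁, -, hX₁⟩ := Dnp_pos hc hL hI
  refine ⟨max (max 1 T₀) X₁, fun X hX => ?_⟩
  have hX1 : 1 ≤ X := ((le_max_left _ _).trans (le_max_left _ _)).trans hX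
  have hXT : T₀ ≤ X := ((le_max_right _ _).trans (le_max_left _ _)).trans hX
  have hXX : X₁ ≤ X := (le_max_right _ _).trans hX
  have hX0 : 0 ≤ X := by linarith
  have hX3 : T₀ ≤ X ^ 3 := hXT.trans (le_self_pow₀ hX1 three_ne_zero)
  obtain ⟨n, hn⟩ : ∃ n, n = Module.finrank ℚ K := ⟨_, rfl⟩
  obtain ⟨N, hN⟩ : ∃ N : ℝ, N = (Ideal.absNorm I : ℝ) := ⟨_, rfl⟩
  have hN0 : 0 < N := by
    rw [hN]
    have : Ideal.absNorm I ≠ 0 := fun h => hI (Ideal.absNorm_eq_zero_iff.1 h)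
    exact_mod_cast Nat.pos_of_ne_zero this
  have hSfin : {p : 𝓞 K × 𝓞 K | (p ∈ Bx K X ∧ ∀ s : K →+* ℝ, 0 < s (p.1 : K)) ∧ p ∈ P}.Finite :=
    (hf X).subset fun p hp => hp.1.1
  have hZfin : (rs I '' P).Finite := Dn_fin hI _
  have hmaps : ((hSfin.toFinset : Finset (𝓞 K × 𝓞 K)) : Set (𝓞 K × 𝓞 K)).MapsTo (rs I) (hZfin.toFinset : Finset ((𝓞 K ⧸ I) × (𝓞 K ⧸ I))) := by
    intro p hp
    rw [Finset.mem_coe, Set.Finite.mem_toFinset] at hp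
    rw [Finset.mem_coe, Set.Finite.mem_toFinset]
    exact ⟨p, hp.2, rfl⟩
  have hcard := Finset.card_eq_sum_card_fiberwise hmaps
  have hfib : ∀ z ∈ hZfin.toFinset, c ^ 2 / 4 ^ n * X ^ (5 * n) / N ^ 2 ≤
      ((hSfin.toFinset.filter fun p => rs I p = z).card : ℝ) := by
    intro z hz
    rw [Set.Finite.mem_toFinset] at hz
    obtain ⟨p, hp, rfl⟩ := hz
    have h1 := hX₁ X hXX p.1
    have h2 := hT₀ (X ^ 3) hX3 p.2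
    rw [← hn, ← hN] at h1 h2
    have hsub : {a : 𝓞 K | (a ∈ bx K (X ^ 2) ∧ ∀ s : K →+* ℝ, 0 < s (a : K)) ∧ a - p.1 ∈ I} ×ˢ
        {b : 𝓞 K | b ∈ bx K (X ^ 3) ∧ b - p.2 ∈ I} ⊆
        ((hSfin.toFinset.filter fun r => rs I r = rs I p : Finset (𝓞 K × 𝓞 K)) : Set (𝓞 K × 𝓞 K)) := by
      rintro ⟨a, b⟩ ⟨⟨⟨ha1, ha3⟩, ha2⟩, ⟨hb1, hb2⟩⟩
      rw [Finset.mem_coe, Finset.mem_filter, Set.Finite.mem_toFinset]
      have hr : rs I (a, b) = rs I p := (Dn_rs I (a, b) p).2 ⟨ha2, hb2⟩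
      exact ⟨⟨⟨⟨ha1, hb1⟩, ha3⟩, h.1 p (a, b) hr.symm hp⟩, hr⟩
    have h3 := Set.ncard_le_ncard hsub (Finset.finite_toSet _)
    rw [Set.ncard_prod, Set.ncard_coe_finset] at h3
    have h4 : ((({a : 𝓞 K | (a ∈ bx K (X ^ 2) ∧ ∀ s : K →+* ℝ, 0 < s (a : K)) ∧ a - p.1 ∈ I}.ncard : ℕ) : ℝ) * (({b : 𝓞 K | b ∈ bx K (X ^ 3) ∧ b - p.2 ∈ I}.ncard : ℕ) : ℝ))
        ≤ ((hSfin.toFinset.filter fun r => rs I r = rs I p).card : ℝ) := by exact_mod_cast h3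
    refine le_trans ?_ h4
    calc c ^ 2 / 4 ^ n * X ^ (5 * n) / N ^ 2 = (c / 4 ^ n * ((X ^ 2) ^ n / N)) * (c * ((X ^ 3) ^ n / N)) := by
          rw [← pow_mul, ← pow_mul, show 5 * n = 2 * n + 3 * n by ring, pow_add]
          field_simp
      _ ≤ _ := mul_le_mul h1 h2 (by positivity) (Nat.cast_nonneg _)
  have h5 : ((rs I '' P).ncard : ℝ) * (c ^ 2 / 4 ^ n * X ^ (5 * n) / N ^ 2) ≤
      ({p : 𝓞 K × 𝓞 K | (p ∈ Bx K X ∧ ∀ s : K →+* ℝ, 0 < s (p.1 : K)) ∧ p ∈ P}.ncard : ℝ) := by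
    rw [Set.ncard_eq_toFinset_card _ hSfin, Set.ncard_eq_toFinset_card _ hZfin, hcard, Nat.cast_sum, ← nsmul_eq_mul]
    exact Finset.card_nsmul_le_sum _ _ _ hfib
  refine le_trans ?_ h5
  rw [← hn]
  have h6 := h.2
  rw [← hN] at h6
  calc c ^ 2 / 4 ^ n * d * X ^ (5 * n) = (d * N ^ 2) * (c ^ 2 / 4 ^ n * X ^ (5 * n) / N ^ 2) := by field_simp
    _ ≤ _ := mul_le_mul_of_nonneg_right h6 (by positivity)

end H36PP
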