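import Pool.Agent.H76.PP.Df0

/-!
Row Pr (MP_78d38b_PP, block M). Primes not dividing 6; quotients of generators. Only Mathlib.

PROOF of inf_primes. For a prime number `l ≥ 5` the ideal `(l)` of `𝓞 K` is proper (`l` is not a unit: for instance its norm is `l^n`, or `ℤ` is integrally
closed / `1/l` is not integral) and not `⊥`, so it is contained in a maximal ideal, a prime `v l : HeightOneSpectrum (𝓞 K)`; `6 ∉ v l` and
`v l ≠ v l'` for primes `l ≠ l'` by Bezout (`IsCoprime` of the integers, mapped to `𝓞 K`, would give `1 ∈ v l`). So `l ↦ v l` is injective on the infinite set of primes `≥ 5`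
(`Nat.infinite_setOf_prime`, `Set.infinite_of_injOn_mapsTo`).

PROOF of quot_val. `a, b ≠ 0` because the ideals on the left are not `⊥`. KEY: if `z ∈ q` then `z a ∈ q (p I) = p (q I) = p (b)`, so `z a = b w` with `w ∈ p`; and
if `w ∈ p` then `w b ∈ p (q I) = q (p I) = q (a)`, so `w b = a z` with `z ∈ q` (`Ideal.mem_span_singleton_mul` or similar). All elements of `𝓞 K` have valuation `≤ 1`,
elements not in `v` have valuation `1` (`valuation_of_algebraMap`, `intValuation_lt_one_iff_mem`, `intValuation_eq_one_iff`..), elements of `v` have valuation `≤ exp (-1)`.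
At `v ≠ p, q`: choose `z ∈ q`, `z ∉ v` (distinct maximal ideals): `v a = v (z a) = v b v w ≤ v b`; by symmetry `v b ≤ v a`; so `v (a / b) = 1`.
At `p`: choose `z ∈ q`, `z ∉ p`: `p a = p b * p w ≤ p b * exp (-1)`. Choose `w ∈ p` with valuation exactly `exp (-1)` (`intValuation_exists_uniformizer`): `p b * exp (-1) = p (w b) = p a * p z ≤ p a`. So
`p (a / b) = exp (-1)`. At `q`: the same with the roles exchanged gives `q (b / a) = exp (-1)`.

PROOF of quot_two. `2 ∈ v`, so `6 ∈ v`, so `v ≠ q`. `a - b = 8 y` with `y ∈ I` (`Ideal.mem_span_singleton_mul`). Choose `z ∈ q`, `z ∉ v`: `z y ∈ q I = (b)`, so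
`v y = v (z y) ≤ v b`. So `v (a / b - 1) = v (8 y / b) = v 8 * (v y / v b) ≤ v 8`.
-/

set_option autoImplicit false
set_option linter.unusedSectionVars false

open WithZero NumberField IsDedekindDomain H76PP

namespace H36PP

variable (K : Type) [Field K] [NumberField K]

theorem inf_primes : {v : HeightOneSpectrum (𝓞 K) | (6 : 𝓞 K) ∉ v.asIdeal}.Infinite := by
  classical
  have hex : ∀ l : ℕ, l.Prime → ∃ v : HeightOneSpectrum (𝓞 K), ((l : ℕ) : 𝓞 K) ∈ v.asIdeal := by
    intro l hl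
    have hne : Ideal.span {((l : ℕ) : 𝓞 K)} ≠ ⊤ := by
      intro h
      rw [Ideal.span_singleton_eq_top] at h
      have h1 : IsUnit (Algebra.norm ℤ ((l : ℕ) : 𝓞 K)) := h.map (Algebra.norm ℤ)
      have h2 : Algebra.norm ℤ ((l : ℕ) : 𝓞 K) = (l : ℤ) ^ Module.finrank ℤ (𝓞 K) := by
        have := Algebra.norm_algebraMap (S := 𝓞 K) ((l : ℕ) : ℤ)
        rw [← this]
        congr 1
        simp
      rw [h2, isUnit_pow_iff (Module.finrank_pos (R := ℤ) (M := 𝓞 K)).ne'] at h1
      rw [Int.isUnit_iff] at h1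
      rcases h1 with h1 | h1
      · have : l = 1 := by exact_mod_cast h1
        exact hl.one_lt.ne' this
      · have : (0 : ℤ) ≤ l := Int.natCast_nonneg l
        omega
    obtain ⟨M, hM, hle⟩ := Ideal.exists_le_maximal _ hne
    have hl0 : ((l : ℕ) : 𝓞 K) ≠ 0 := by
      exact_mod_cast hl.ne_zero
    have hMem : ((l : ℕ) : 𝓞 K) ∈ M := hle (Ideal.mem_span_singleton_self _)
    refine ⟨⟨M, hM.isPrime, ?_⟩, hMem⟩
    rintro rfl
    exact hl0 (by simpa using hMem)
  haveI : Nonempty (HeightOneSpectrum (𝓞 K)) := ⟨(hex 2 Nat.prime_two).choose⟩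
  choose! f hf using hex
  have hcop : ∀ (v : HeightOneSpectrum (𝓞 K)) (m n : ℕ), m.Coprime n → ((m : ℕ) : 𝓞 K) ∈ v.asIdeal →
      ((n : ℕ) : 𝓞 K) ∈ v.asIdeal → False := by
    intro v m n hmn hm hn
    have h1 : IsCoprime (m : ℤ) (n : ℤ) := Nat.isCoprime_iff_coprime.mpr hmn
    obtain ⟨a, b, hab⟩ := h1
    have h2 : (a : 𝓞 K) * (m : 𝓞 K) + (b : 𝓞 K) * (n : 𝓞 K) = 1 := by
      exact_mod_cast congrArg (fun t : ℤ => (t : 𝓞 K)) hab
    apply v.isPrime.ne_top
    rw [Ideal.eq_top_iff_one, ← h2]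
    exact Ideal.add_mem _ (Ideal.mul_mem_left _ _ hm) (Ideal.mul_mem_left _ _ hn)
  have hS : {l : ℕ | l.Prime ∧ 5 ≤ l}.Infinite := by
    have h := Nat.infinite_setOf_prime
    have : {l : ℕ | l.Prime ∧ 5 ≤ l} = {p | Nat.Prime p} \ {l | l < 5} := by
      ext l
      simp [not_lt]
    rw [this]
    exact h.diff (Set.finite_lt_nat 5)
  refine Set.infinite_of_injOn_mapsTo (f := f) (s := {l : ℕ | l.Prime ∧ 5 ≤ l}) ?_ ?_ hS
  · intro l hl l' hl' heq
    by_contra hne
    have hc : l.Coprime l' := (Nat.coprime_primes hl.1 hl'.1).mpr hne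
    refine hcop (f l) l l' hc (hf l hl.1) ?_
    rw [heq]
    exact hf l' hl'.1
  · intro l hl h6
    have hc : l.Coprime 6 := by
      rw [Nat.Prime.coprime_iff_not_dvd hl.1]
      intro hd
      have : l ∣ 2 * 3 := by simpa using hd
      rcases (Nat.Prime.dvd_mul hl.1).mp this with h | h
      · have := Nat.le_of_dvd (by norm_num) h
        have := hl.2
        omega
      · have := Nat.le_of_dvd (by norm_num) h
        have := hl.2
        omega
    exact hcop (f l) l 6 hc (hf l hl.1) (by exact_mod_cast h6)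

variable {K}

theorem Pr_exists_notMem {v q : HeightOneSpectrum (𝓞 K)} (h : v ≠ q) :
    ∃ z ∈ q.asIdeal, z ∉ v.asIdeal := by
  by_contra hcon
  push Not at hcon
  have hle : q.asIdeal ≤ v.asIdeal := fun z hz => hcon z hz
  have hq : q.asIdeal.IsMaximal := q.isPrime.isMaximal q.ne_bot
  have := hq.eq_of_le v.isPrime.ne_top hle
  exact h (HeightOneSpectrum.ext this.symm)

theorem Pr_val_le (v : HeightOneSpectrum (𝓞 K)) (x : 𝓞 K) : v.valuation K (x : K) ≤ 1 :=
  v.valuation_le_one x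

theorem Pr_val_one {v : HeightOneSpectrum (𝓞 K)} {x : 𝓞 K} (h : x ∉ v.asIdeal) :
    v.valuation K (x : K) = 1 := by
  have h2 : v.valuation K (x : K) = v.intValuation x := v.valuation_of_algebraMap x
  have h3 : ¬ v.intValuation x < 1 := fun h4 => h ((v.intValuation_lt_one_iff_mem x).mp h4)
  rw [h2]
  exact le_antisymm (v.intValuation_le_one x) (not_lt.mp h3)

theorem Pr_val_mem {v : HeightOneSpectrum (𝓞 K)} {x : 𝓞 K} (h : x ∈ v.asIdeal) :
    v.valuation K (x : K) ≤ exp (-1) := by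
  have h1 := (v.intValuation_le_pow_iff_mem x 1).mpr (by simpa using h)
  have h2 : v.valuation K (x : K) = v.intValuation x := v.valuation_of_algebraMap x
  rw [h2]
  simpa using h1

/-- the key relations -/
theorem Pr_key {p q : HeightOneSpectrum (𝓞 K)} {I : Ideal (𝓞 K)}
    {a b : 𝓞 K} (ha : p.asIdeal * I = Ideal.span {a}) (hb : q.asIdeal * I = Ideal.span {b})
    {z : 𝓞 K} (hz : z ∈ q.asIdeal) : ∃ w ∈ p.asIdeal, z * a = b * w := by
  have h1 : z * a ∈ q.asIdeal * (p.asIdeal * I) := by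
    rw [ha]
    exact Ideal.mul_mem_mul hz (Ideal.mem_span_singleton_self a)
  have h2 : q.asIdeal * (p.asIdeal * I) = Ideal.span {b} * p.asIdeal := by
    rw [← hb]
    ring
  rw [h2, Ideal.mem_span_singleton_mul] at h1
  obtain ⟨w, hw, hwe⟩ := h1
  exact ⟨w, hw, hwe.symm⟩

theorem Pr_ne_zero {p : HeightOneSpectrum (𝓞 K)} {I : Ideal (𝓞 K)} (hI : I ≠ ⊥)
    {a : 𝓞 K} (ha : p.asIdeal * I = Ideal.span {a}) : a ≠ 0 := by
  rintro rfl
  rw [Ideal.span_singleton_eq_bot.mpr rfl, Ideal.mul_eq_bot] at ha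
  rcases ha with h | h
  · exact p.ne_bot h
  · exact hI h

/-- at `v ≠ q`: `v a ≤ v b` -/
theorem Pr_le_of_ne {p q v : HeightOneSpectrum (𝓞 K)} {I : Ideal (𝓞 K)}
    {a b : 𝓞 K} (ha : p.asIdeal * I = Ideal.span {a}) (hb : q.asIdeal * I = Ideal.span {b})
    (hv : v ≠ q) : v.valuation K (a : K) ≤ v.valuation K (b : K) := by
  obtain ⟨z, hz, hzv⟩ := Pr_exists_notMem hv
  obtain ⟨w, hw, hwe⟩ := Pr_key ha hb hz
  have h1 : v.valuation K ((z : K) * (a : K)) = v.valuation K ((b : K) * (w : K)) := by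
    congr 1
    exact_mod_cast congrArg (fun t : 𝓞 K => (t : K)) hwe
  rw [map_mul, map_mul, Pr_val_one hzv, one_mul] at h1
  rw [h1]
  exact mul_le_of_le_one_right' (Pr_val_le v w)

/-- at `p ≠ q`: `p a = p b * exp (-1)` -/
theorem Pr_at {p q : HeightOneSpectrum (𝓞 K)} (hpq : p ≠ q) {I : Ideal (𝓞 K)}
    {a b : 𝓞 K} (ha : p.asIdeal * I = Ideal.span {a}) (hb : q.asIdeal * I = Ideal.span {b}) :
    p.valuation K (a : K) = p.valuation K (b : K) * exp (-1) := by
  apply le_antisymm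
  · obtain ⟨z, hz, hzv⟩ := Pr_exists_notMem hpq
    obtain ⟨w, hw, hwe⟩ := Pr_key ha hb hz
    have h1 : p.valuation K ((z : K) * (a : K)) = p.valuation K ((b : K) * (w : K)) := by
      congr 1
      exact_mod_cast congrArg (fun t : 𝓞 K => (t : K)) hwe
    rw [map_mul, map_mul, Pr_val_one hzv, one_mul] at h1
    rw [h1]
    exact mul_le_mul_right (Pr_val_mem hw) _
  · obtain ⟨w, hw⟩ := p.valuation_exists_uniformizer' K
    have hwp : w ∈ p.asIdeal := by
      rw [← HeightOneSpectrum.valuation_lt_one_iff_mem (K := K)]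
      rw [hw, ← exp_zero]
      exact exp_lt_exp.mpr (by norm_num)
    obtain ⟨z, hz, hwe⟩ := Pr_key hb ha hwp
    have h1 : p.valuation K ((w : K) * (b : K)) = p.valuation K ((a : K) * (z : K)) := by
      congr 1
      exact_mod_cast congrArg (fun t : 𝓞 K => (t : K)) hwe
    rw [map_mul, map_mul] at h1
    have hw' : p.valuation K (w : K) = exp (-1) := hw
    rw [hw', mul_comm] at h1
    rw [h1]
    exact mul_le_of_le_one_right' (Pr_val_le p z)

theorem quot_val {p q : HeightOneSpectrum (𝓞 K)} (hpq : p ≠ q) {I : Ideal (𝓞 K)} (hI : I ≠ ⊥)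
    {a b : 𝓞 K} (ha : p.asIdeal * I = Ideal.span {a}) (hb : q.asIdeal * I = Ideal.span {b}) :
    a ≠ 0 ∧ b ≠ 0 ∧ p.valuation K ((a : K) / (b : K)) = exp (-1) ∧
      q.valuation K ((a : K) / (b : K)) = exp 1 ∧
      ∀ v : HeightOneSpectrum (𝓞 K), v ≠ p → v ≠ q → v.valuation K ((a : K) / (b : K)) = 1 := by
  have ha0 : a ≠ 0 := Pr_ne_zero hI ha
  have hb0 : b ≠ 0 := Pr_ne_zero hI hb
  have hva : ∀ v : HeightOneSpectrum (𝓞 K), v.valuation K (a : K) ≠ 0 := fun v =>
    (Valuation.ne_zero_iff _).2 (by simpa using ha0)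
  have hvb : ∀ v : HeightOneSpectrum (𝓞 K), v.valuation K (b : K) ≠ 0 := fun v =>
    (Valuation.ne_zero_iff _).2 (by simpa using hb0)
  refine ⟨ha0, hb0, ?_, ?_, ?_⟩
  · rw [map_div₀, Pr_at hpq ha hb, mul_comm, mul_div_assoc, div_self (hvb p), mul_one]
  · rw [map_div₀, Pr_at hpq.symm hb ha, div_mul_eq_div_div, div_self (hva q), one_div, ← exp_neg]
    simp
  · intro v hvp hvq
    have h1 := Pr_le_of_ne ha hb hvq
    have h2 := Pr_le_of_ne hb ha hvp
    rw [map_div₀, le_antisymm h1 h2, div_self (hvb v)]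

theorem quot_two {q : HeightOneSpectrum (𝓞 K)} (h6 : (6 : 𝓞 K) ∉ q.asIdeal) {I : Ideal (𝓞 K)}
    (hI : I ≠ ⊥) {a b : 𝓞 K} (hb : q.asIdeal * I = Ideal.span {b})
    (hab : a - b ∈ Ideal.span {(8 : 𝓞 K)} * I) {v : HeightOneSpectrum (𝓞 K)}
    (hv : v.valuation K 2 < 1) : v.valuation K ((a : K) / (b : K) - 1) ≤ v.valuation K 8 := by
  have hb0 : b ≠ 0 := Pr_ne_zero hI hb
  have hbK : (b : K) ≠ 0 := by simpa using hb0
  have hvb : v.valuation K (b : K) ≠ 0 := (Valuation.ne_zero_iff _).2 hbK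
  have h2 : (2 : 𝓞 K) ∈ v.asIdeal := by
    have e : ((2 : 𝓞 K) : K) = 2 := map_ofNat (algebraMap (𝓞 K) K) 2
    have h3 : v.valuation K ((2 : 𝓞 K) : K) < 1 := by
      rw [e]
      exact hv
    exact (HeightOneSpectrum.valuation_lt_one_iff_mem (K := K) v 2).mp h3
  have h6v : (6 : 𝓞 K) ∈ v.asIdeal := by
    have : (6 : 𝓞 K) = 3 * 2 := by norm_num
    rw [this]
    exact Ideal.mul_mem_left _ _ h2
  have hvq : v ≠ q := by
    rintro rfl
    exact h6 h6v
  rw [Ideal.mem_span_singleton_mul] at hab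
  obtain ⟨y, hy, hye⟩ := hab
  obtain ⟨z, hz, hzv⟩ := Pr_exists_notMem hvq
  have h3 : z * y ∈ Ideal.span {b} := by
    rw [← hb]
    exact Ideal.mul_mem_mul hz hy
  rw [Ideal.mem_span_singleton] at h3
  obtain ⟨c, hc⟩ := h3
  have h4 : v.valuation K (y : K) ≤ v.valuation K (b : K) := by
    have h1 : v.valuation K ((z : K) * (y : K)) = v.valuation K ((b : K) * (c : K)) := by
      congr 1
      exact_mod_cast congrArg (fun t : 𝓞 K => (t : K)) hc
    rw [map_mul, map_mul, Pr_val_one hzv, one_mul] at h1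
    rw [h1]
    exact mul_le_of_le_one_right' (Pr_val_le v c)
  have h5 : (a : K) / (b : K) - 1 = 8 * (y : K) / (b : K) := by
    have : (a : K) - (b : K) = 8 * (y : K) := by
      have h8 := congrArg (algebraMap (𝓞 K) K) hye
      rw [map_mul, map_sub, map_ofNat] at h8
      exact h8.symm
    rw [← this, sub_div, div_self hbK]
  rw [h5, map_div₀, map_mul, mul_div_assoc]
  apply mul_le_of_le_one_right'
  rw [div_le_iff₀ (zero_lt_iff.mpr hvb), one_mul]
  exact h4

end H36PP
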