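import Pool.Agent.H76.PP.Df0

/-!
Row Nb (MP_78d38b_PP, block M). Norms of small integers.

PROOF of norm_bx. `|Algebra.norm ℚ (a : K)|` is the product of `‖s a‖` over the `n` embeddings `s : K →+* ℂ`: Mathlib has
`Algebra.norm_eq_prod_embeddings ℚ ℂ` (for algebra homs `K →ₐ[ℚ] ℂ`, every ring hom is one: `RingHom.equivRatAlgHom`), or
`NumberField.Embeddings...`/`InfinitePlace.prod_eq_abs_norm`. Each factor is `≤ T`, and `0 ≤ ‖s a‖`, so the product is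
`≤ T ^ n` (`Finset.prod_le_pow_card`), `card (K →+* ℂ) = finrank ℚ K` (`NumberField.Embeddings.card`).
`(Algebra.norm ℤ a : ℚ) = Algebra.norm ℚ (a : K)` is `Algebra.coe_norm_int`.

PROOF of pow_le_of_mem. The principal ideal `(a)` is divisible by `v ^ e`, so `absNorm (v ^ e) = (Nv v)^e` divides
`absNorm (span {a}) = natAbs (Algebra.norm ℤ a) ≠ 0` (`Ideal.absNorm_span_singleton`, `Ideal.absNorm_dvd_absNorm_of_le`, `map_pow`,
`Algebra.norm_ne_zero_iff`), so `(Nv v)^e ≤ |norm a| ≤ T ^ n`.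

bx_finite: `NumberField.Embeddings.finite_of_norm_le K ℂ T` gives the finiteness of `{x : K | IsIntegral ℤ x ∧ ∀ φ : K →+* ℂ, ‖φ x‖ ≤ T}`;
the map `𝓞 K → K` is injective (`RingOfIntegers.coe_injective`, `Set.Finite.of_injOn` or `Set.Finite.preimage`).
Bx_finite: `Bx K X` is contained in the product `bx K (X^2) ×ˢ bx K (X^3)` (`Set.Finite.prod`, `Set.Finite.subset`).
dsc_bx: `‖s (4 A^3 + 27 B^2)‖ ≤ 4 (X^2)^3 + 27 (X^3)^2 = 31 X^6` (triangle inequality, `map_ofNat`).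
-/

set_option autoImplicit false
set_option linter.unusedSectionVars false

open NumberField IsDedekindDomain H76PP

namespace H36PP

variable (K : Type) [Field K] [NumberField K]

theorem bx_finite (T : ℝ) : (bx K T).Finite := by
  have h := NumberField.Embeddings.finite_of_norm_le K ℂ T
  refine (h.preimage (f := fun a : 𝓞 K => (a : K)) ?_).subset ?_
  · intro a _ b _ hab
    exact RingOfIntegers.coe_injective hab
  · intro a ha
    exact ⟨RingOfIntegers.isIntegral_coe a, ha⟩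

theorem Bx_finite (X : ℝ) : (Bx K X).Finite := by
  refine ((bx_finite K (X ^ 2)).prod (bx_finite K (X ^ 3))).subset ?_
  intro p hp
  exact ⟨hp.1, hp.2⟩

variable {K}

theorem norm_bx {T : ℝ} (hT : 0 ≤ T) {a : 𝓞 K} (ha : a ∈ bx K T) :
    |((Algebra.norm ℤ a : ℤ) : ℝ)| ≤ T ^ Module.finrank ℚ K := by
  have h1 : (((Algebra.norm ℤ a : ℤ) : ℚ) : ℂ) = ∏ s : K →ₐ[ℚ] ℂ, s (a : K) := by
    rw [Algebra.coe_norm_int]
    exact Algebra.norm_eq_prod_embeddings ℚ ℂ (a : K)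
  have h2 : |((Algebra.norm ℤ a : ℤ) : ℝ)| = ∏ s : K →ₐ[ℚ] ℂ, ‖s (a : K)‖ := by
    rw [← norm_prod, ← h1]
    push_cast
    rw [Complex.norm_intCast]
  rw [h2]
  have h3 : ∏ s : K →ₐ[ℚ] ℂ, ‖s (a : K)‖ ≤ T ^ (Finset.univ : Finset (K →ₐ[ℚ] ℂ)).card := by
    rw [← Finset.prod_const]
    apply Finset.prod_le_prod
    · intro s _
      exact norm_nonneg _
    · intro s _
      exact ha (s : K →+* ℂ)
  rw [Finset.card_univ, AlgHom.card] at h3
  exact h3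

theorem pow_le_of_mem {T : ℝ} (hT : 0 ≤ T) {a : 𝓞 K} (ha : a ∈ bx K T) (h0 : a ≠ 0)
    {v : HeightOneSpectrum (𝓞 K)} {e : ℕ} (hv : a ∈ v.asIdeal ^ e) :
    (Nv v : ℝ) ^ e ≤ T ^ Module.finrank ℚ K := by
  refine le_trans ?_ (norm_bx hT ha)
  have h1 : Ideal.span {a} ≤ v.asIdeal ^ e := by
    rw [Ideal.span_singleton_le_iff_mem]
    exact hv
  have h2 := Ideal.absNorm_dvd_absNorm_of_le h1
  rw [map_pow, Ideal.absNorm_span_singleton] at h2
  have h3 : 0 < (Algebra.norm ℤ a).natAbs := by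
    rw [Int.natAbs_pos]
    exact Algebra.norm_ne_zero_iff.2 h0
  have h4 := Nat.le_of_dvd h3 h2
  have h5 : ((Ideal.absNorm v.asIdeal ^ e : ℕ) : ℝ) ≤ (((Algebra.norm ℤ a).natAbs : ℕ) : ℝ) := by
    exact_mod_cast h4
  rw [Nat.cast_natAbs, Nat.cast_pow] at h5
  rw [Int.cast_abs] at h5
  exact h5

theorem dsc_bx {X : ℝ} (hX : 0 ≤ X) {p : 𝓞 K × 𝓞 K} (hp : p ∈ Bx K X) :
    dsc p.1 p.2 ∈ bx K (31 * X ^ 6) := by
  intro s
  have h1 := hp.1 s
  have h2 := hp.2 s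
  have h3 : s ((dsc p.1 p.2 : 𝓞 K) : K) = 4 * (s (p.1 : K)) ^ 3 + 27 * (s (p.2 : K)) ^ 2 := by
    unfold dsc
    push_cast
    simp only [map_add, map_mul, map_pow, map_ofNat]
  rw [h3]
  refine (norm_add_le _ _).trans ?_
  rw [norm_mul, norm_mul, norm_pow, norm_pow]
  have e4 : ‖(4 : ℂ)‖ = 4 := by simp
  have e27 : ‖(27 : ℂ)‖ = 27 := by simp
  rw [e4, e27]
  have h4 : ‖s (p.1 : K)‖ ^ 3 ≤ (X ^ 2) ^ 3 := pow_le_pow_left₀ (norm_nonneg _) h1 3
  have h5 : ‖s (p.2 : K)‖ ^ 2 ≤ (X ^ 3) ^ 2 := pow_le_pow_left₀ (norm_nonneg _) h2 2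
  nlinarith [h4, h5]

end H36PP
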