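import Pool.Agent.H36.PP.Df

/-!
Row Fm (MP_78d38b_PP, block M). The local conditions imply membership in the family.

PROOF of dsc_q: let `k = 𝓞 K ⧸ v.asIdeal`, a field in which `2`, `3` are not zero (`6 ∉ v`), `a`, `b` the residues of `p.1`, `p.2`. If
`4 a^3 + 27 b^2 = 0` then `x^3 + a x + b` has a root in `k`: if `a = 0` then `b = 0` and `0` is a root; if `a ≠ 0`, `t = -3 b / (2 a)` is a root, because
`t^2 = 9 b^2 / (4 a^2) = -a/3` and `t^3 + a t + b = t (t^2 + a) + b = t (2 a / 3) + b = -b + b = 0`. A root lifts to `t : 𝓞 K` with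
`t^3 + p.1 t + p.2 ∈ v`, contradiction to `p ∈ Pq v`.
PROOF of dsc_t: modulo `v`, `b = - t (t^2 + a)`, so `4 a^3 + 27 b^2 = (3 t^2 + 4 a) (3 t^2 + a)^2` (`ring` after substitution). If it is in `v` then
`3 t^2 + 4 a ∈ v` (contradiction to the condition for `s = 0`: `-3 t^2 - 4 a - 0^2 ∉ v`) or `3 t^2 + a ∈ v`, and then
`-3 t^2 - 4 a - (3 t)^2 = -4 (3 t^2 + a) ∈ v`, contradiction for `s = 3 t`.
PROOF of fam_of. ne: there is a prime `v` containing `3` (the ideal `(3)` is proper since `3` is not a unit of `𝓞 K`: its norm is `3^n`;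
`Ideal.exists_le_maximal`, it is not `⊥` as `3 ≠ 0`), `6 = 2 * 3 ∈ v`, so `h6 v` gives `p.1 - 1 ∈ v`; if `p.1 = 0` then `1 ∈ v`. irr: `p ∈ Pq q₀`. typ: `p ∈ Pt v`. two: `2 ∈ v` gives
`6 ∈ v`, `p.2 - 1 ∈ v`; if `p.2 ∈ v` then `1 ∈ v`. three: same with `p.1`. sqf: let `6 ∉ v`. If `v = q₀`: `dsc ∉ v` by `dsc_q`, so `∉ v^2`
(`Ideal.pow_le_self`). If `v ∈ T`: `dsc_t`. Otherwise, if `Nv v ≤ M`: `ho`. Otherwise `M < Nv v`; if `dsc ∈ v^2` then `p ∈ Tail K M X` [`p.1 ≠ 0`;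
`dsc ≠ 0` because `dsc ∉ q₀`], contradiction to `ht`.
-/

set_option autoImplicit false
set_option linter.unusedSectionVars false

open NumberField IsDedekindDomain H76PP

namespace H36PP

variable {K : Type} [Field K] [NumberField K]

theorem Fm_ne {v : HeightOneSpectrum (𝓞 K)} (h : (6 : 𝓞 K) ∉ v.asIdeal) :
    (2 : 𝓞 K) ∉ v.asIdeal ∧ (3 : 𝓞 K) ∉ v.asIdeal := by
  refine ⟨fun h2 => h ?_, fun h3 => h ?_⟩
  · rw [show (6 : 𝓞 K) = 3 * 2 by norm_num]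
    exact v.asIdeal.mul_mem_left _ h2
  · rw [show (6 : 𝓞 K) = 2 * 3 by norm_num]
    exact v.asIdeal.mul_mem_left _ h3

theorem Fm_root {k : Type*} [Field k] (h2 : (2 : k) ≠ 0) (h3 : (3 : k) ≠ 0) {a b : k}
    (h : 4 * a ^ 3 + 27 * b ^ 2 = 0) : ∃ t : k, t ^ 3 + a * t + b = 0 := by
  have h27 : (27 : k) ≠ 0 := by
    rw [show (27 : k) = 3 ^ 3 by norm_num]
    exact pow_ne_zero 3 h3
  have h4 : (4 : k) ≠ 0 := by
    rw [show (4 : k) = 2 ^ 2 by norm_num]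
    exact pow_ne_zero 2 h2
  by_cases ha : a = 0
  · have hb : b = 0 := by
      rw [ha] at h
      have h5 : (27 : k) * b ^ 2 = 0 := by linear_combination h
      exact pow_eq_zero_iff two_ne_zero |>.1 ((mul_eq_zero.1 h5).resolve_left h27)
    exact ⟨0, by rw [hb]; ring⟩
  · refine ⟨-3 * b / (2 * a), ?_⟩
    have h5 : (-3 * b / (2 * a)) ^ 3 + a * (-3 * b / (2 * a)) + b =
        -(b * (4 * a ^ 3 + 27 * b ^ 2)) / (8 * a ^ 3) := by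
      have h8 : (8 : k) ≠ 0 := by
        rw [show (8 : k) = 2 ^ 3 by norm_num]
        exact pow_ne_zero 3 h2
      field_simp
      ring
    rw [h5, h, mul_zero, neg_zero, zero_div]

theorem dsc_q {v : HeightOneSpectrum (𝓞 K)} (h : (6 : 𝓞 K) ∉ v.asIdeal) {p : 𝓞 K × 𝓞 K}
    (hp : p ∈ Pq v) : dsc p.1 p.2 ∉ v.asIdeal := by
  intro hd
  obtain ⟨h2, h3⟩ := Fm_ne h
  have h2' : (2 : 𝓞 K ⧸ v.asIdeal) ≠ 0 := by
    intro h5
    apply h2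
    rw [← Ideal.Quotient.eq_zero_iff_mem, map_ofNat]
    exact h5
  have h3' : (3 : 𝓞 K ⧸ v.asIdeal) ≠ 0 := by
    intro h5
    apply h3
    rw [← Ideal.Quotient.eq_zero_iff_mem, map_ofNat]
    exact h5
  have h4 : 4 * (Ideal.Quotient.mk v.asIdeal p.1) ^ 3 +
      27 * (Ideal.Quotient.mk v.asIdeal p.2) ^ 2 = 0 := by
    rw [← Ideal.Quotient.eq_zero_iff_mem] at hd
    unfold dsc at hd
    rw [map_add, map_mul, map_mul, map_pow, map_pow, map_ofNat, map_ofNat] at hd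
    exact hd
  obtain ⟨t, ht⟩ := Fm_root h2' h3' h4
  obtain ⟨t, rfl⟩ := Ideal.Quotient.mk_surjective t
  apply hp t
  rw [← Ideal.Quotient.eq_zero_iff_mem, map_add, map_add, map_pow, map_mul]
  exact ht

theorem dsc_t {v : HeightOneSpectrum (𝓞 K)} (h : (6 : 𝓞 K) ∉ v.asIdeal) {p : 𝓞 K × 𝓞 K}
    (hp : p ∈ Pt v) : dsc p.1 p.2 ∉ v.asIdeal := by
  intro hd
  have hpr := v.isPrime
  obtain ⟨t, ht, hs⟩ := hp
  have h1 : (3 * t ^ 2 + 4 * p.1) * (3 * t ^ 2 + p.1) ^ 2 ∈ v.asIdeal := by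
    have e : (3 * t ^ 2 + 4 * p.1) * (3 * t ^ 2 + p.1) ^ 2 = dsc p.1 p.2 +
        (t ^ 3 + p.1 * t + p.2) * (27 * (t ^ 3 + p.1 * t) - 27 * p.2) := by
      unfold dsc
      ring
    rw [e]
    exact add_mem hd (v.asIdeal.mul_mem_right _ ht)
  rcases hpr.mem_or_mem h1 with h2 | h2
  · apply hs 0
    rw [show -3 * t ^ 2 - 4 * p.1 - 0 ^ 2 = -(3 * t ^ 2 + 4 * p.1) by ring]
    exact neg_mem h2
  · have h3 := hpr.mem_of_pow_mem 2 h2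
    apply hs (3 * t)
    rw [show -3 * t ^ 2 - 4 * p.1 - (3 * t) ^ 2 = (-4) * (3 * t ^ 2 + p.1) by ring]
    exact v.asIdeal.mul_mem_left _ h3

theorem Fm_three : ∃ v : HeightOneSpectrum (𝓞 K), (3 : 𝓞 K) ∈ v.asIdeal := by
  have h1 : Ideal.span {(3 : 𝓞 K)} ≠ ⊤ := by
    intro h
    rw [Ideal.span_singleton_eq_top] at h
    have h2 := h.map (Algebra.norm ℤ)
    have h3 : (Algebra.norm ℤ) (3 : 𝓞 K) = 3 ^ Module.finrank ℤ (𝓞 K) := by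
      have h4 := Algebra.norm_algebraMap (R := ℤ) (S := 𝓞 K) 3
      rwa [map_ofNat] at h4
    rw [h3] at h2
    have hn : Module.finrank ℤ (𝓞 K) ≠ 0 := by
      rw [RingOfIntegers.rank]
      exact Module.finrank_pos.ne'
    rw [isUnit_pow_iff hn, Int.isUnit_iff] at h2
    omega
  obtain ⟨m, hm, hle⟩ := Ideal.exists_le_maximal _ h1
  have h3 : (3 : 𝓞 K) ∈ m := hle (Ideal.mem_span_singleton_self _)
  refine ⟨⟨m, hm.isPrime, ?_⟩, h3⟩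
  rintro rfl
  rw [Ideal.mem_bot] at h3
  exact absurd h3 (by norm_num)

theorem fam_of {q₀ : HeightOneSpectrum (𝓞 K)} (h6 : (6 : 𝓞 K) ∉ q₀.asIdeal)
    {T : Finset (HeightOneSpectrum (𝓞 K))} (hT : ∀ v ∈ T, v ≠ q₀ ∧ (6 : 𝓞 K) ∉ v.asIdeal)
    {M : ℕ} {X : ℝ} {p : 𝓞 K × 𝓞 K} (hp : p ∈ Bx K X) (hq : p ∈ Pq q₀) (hPt : ∀ v ∈ T, p ∈ Pt v)
    (hP6 : ∀ v : HeightOneSpectrum (𝓞 K), (6 : 𝓞 K) ∈ v.asIdeal → p ∈ P6 v)
    (ho : ∀ v : HeightOneSpectrum (𝓞 K), (6 : 𝓞 K) ∉ v.asIdeal → v ≠ q₀ → v ∉ T → Nv v ≤ M →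
      p ∈ Po v)
    (ht : p ∉ Tail K M X) : Fam q₀ T p.1 p.2 := by
  have hone : ∀ v : HeightOneSpectrum (𝓞 K), (1 : 𝓞 K) ∉ v.asIdeal := fun v h =>
    v.isPrime.ne_top ((Ideal.eq_top_iff_one _).2 h)
  have m2 : ∀ v : HeightOneSpectrum (𝓞 K), (2 : 𝓞 K) ∈ v.asIdeal → (6 : 𝓞 K) ∈ v.asIdeal := by
    intro v h
    rw [show (6 : 𝓞 K) = 3 * 2 by norm_num]
    exact v.asIdeal.mul_mem_left _ h
  have m3 : ∀ v : HeightOneSpectrum (𝓞 K), (3 : 𝓞 K) ∈ v.asIdeal → (6 : 𝓞 K) ∈ v.asIdeal := by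
    intro v h
    rw [show (6 : 𝓞 K) = 2 * 3 by norm_num]
    exact v.asIdeal.mul_mem_left _ h
  have m1 : ∀ (v : HeightOneSpectrum (𝓞 K)) (x : 𝓞 K), x - 1 ∈ v.asIdeal → x ∉ v.asIdeal := by
    intro v x h1 h2
    apply hone v
    have h3 := sub_mem h2 h1
    rwa [sub_sub_cancel] at h3
  have hne : p.1 ≠ 0 := by
    obtain ⟨v, hv⟩ := Fm_three (K := K)
    intro h0
    have h1 := m1 v p.1 (hP6 v (m3 v hv)).1
    rw [h0] at h1
    exact h1 v.asIdeal.zero_mem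
  have hd0 : dsc p.1 p.2 ≠ 0 := by
    intro h0
    have h1 := dsc_q h6 hq
    rw [h0] at h1
    exact h1 q₀.asIdeal.zero_mem
  refine ⟨hne, hq, hPt, fun v hv => m1 v _ (hP6 v (m2 v hv)).2,
    fun v hv => m1 v _ (hP6 v (m3 v hv)).1, fun v hv => ?_⟩
  by_cases hvq : v = q₀
  · rw [hvq]
    exact fun h => dsc_q h6 hq (Ideal.pow_le_self two_ne_zero h)
  by_cases hvT : v ∈ T
  · exact fun h => dsc_t hv (hPt v hvT) (Ideal.pow_le_self two_ne_zero h)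
  by_cases hvM : Nv v ≤ M
  · exact ho v hv hvq hvT hvM
  · exact fun h => ht ⟨hp, hne, hd0, v, hv, not_le.1 hvM, h⟩

end H36PP
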