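import Pool.Agent.H36.PP.Df

/-!
Row Lt (MP_78d38b_PP, block M). Counting over a finite field `k` with `q` elements, `6 ≠ 0` in `k`.

PROOF of card_nonsq: `q - 1 ≤ 2 * #{nonsquares}`. The squares of `k` are `0` and the squares of the nonzero elements. The
homomorphism `powMonoidHom 2 : kˣ →* kˣ` has kernel `{1, -1}` (`x^2 = 1` iff `x = 1` or `x = -1`, and `1 ≠ -1` as `2 ≠ 0`), so its range has
`(q - 1) / 2` elements: `2 * card range = q - 1` (`Subgroup.card_mul_index`, `Subgroup.index_ker`, `MonoidHom.card_range...`, or: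
the map `x ↦ x^2` on the nonzero elements has fibres with exactly two elements, `Finset.card_eq_sum_card_fiberwise`). So there are
`1 + (q - 1)/2` squares and `q - 1 - (q - 1)/2` nonsquares.

PROOF of card_SqT: for `t : k` and a nonsquare `d` put `a = -(d + 3 t^2) / 4`, `b = - t^3 - a t`. Then `t^3 + a t + b = 0` and
`-3 t^2 - 4 a = d` is not a square: `(a, b) ∈ SqT k`. The map `(t, d) ↦ (a, b)` is injective: if `(t, d)` and `(t', d')` give the same
`(a, b)` then `t` and `t'` are roots of `x^3 + a x + b`; if `t ≠ t'` then, subtracting and dividing by `t' - t`,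
`t'^2 + t t' + t^2 + a = 0`, so `(2 t' + t)^2 = 4 (t'^2 + t t' + t^2 + a) - 3 t^2 - 4 a = d` is a square, contradiction. So
`t = t'`, `d = -3 t^2 - 4 a = d'`. Hence `#(SqT k) ≥ q * #{nonsquares}` (`Set.ncard_le_ncard`, `Set.InjOn.ncard_image`), and
`2 * #(SqT k) ≥ q (q - 1)`.

PROOF of exists_irr: `a = -1`. The map `t ↦ t^3 - t` takes the value `0` at `0` and at `1 ≠ 0`, so it is not injective, so
(`Finite.injective_iff_surjective`) it is not surjective; `b = - c`, `c` not in the image.
-/

set_option autoImplicit false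
set_option linter.unusedSectionVars false

open NumberField IsDedekindDomain H76PP

namespace H36PP

variable (k : Type*) [Field k] [Finite k]

theorem card_nonsq (h : (2 : k) ≠ 0) : Nat.card k ≤ 2 * {d : k | ¬ IsSquare d}.ncard + 1 := by
  classical
  have hk := Fintype.ofFinite k
  set s : Finset k := Finset.univ.filter (fun x => x ≠ 0) with hs
  have h1 : 2 * (s.image fun x => x ^ 2).card ≤ s.card := by
    apply Finset.mul_card_image_le_card
    intro a ha
    obtain ⟨x, hx, rfl⟩ := Finset.mem_image.1 ha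
    have hx0 : x ≠ 0 := (Finset.mem_filter.1 hx).2
    have hxx : x ≠ -x := by
      intro h2
      apply hx0
      have h3 : (2 : k) * x = 0 := by linear_combination h2
      exact (mul_eq_zero.1 h3).resolve_left h
    have h3 : ({x, -x} : Finset k) ⊆ s.filter (fun y => y ^ 2 = x ^ 2) := by
      intro y hy
      rw [Finset.mem_insert, Finset.mem_singleton] at hy
      rw [Finset.mem_filter, hs, Finset.mem_filter]
      rcases hy with rfl | rfl
      · exact ⟨⟨Finset.mem_univ _, hx0⟩, rfl⟩
      · exact ⟨⟨Finset.mem_univ _, neg_ne_zero.2 hx0⟩, by ring⟩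
    exact (Finset.card_pair hxx).symm.le.trans (Finset.card_le_card h3)
  have h2 : s = Finset.univ.erase 0 := by
    ext x
    simp [hs]
  have h3 : s.card + 1 = Nat.card k := by
    rw [h2, Finset.card_erase_of_mem (Finset.mem_univ _), Finset.card_univ, Nat.card_eq_fintype_card]
    have := Fintype.card_pos (α := k)
    omega
  have h4 : (Finset.univ : Finset k) ⊆
      insert 0 (s.image fun x => x ^ 2) ∪ Finset.univ.filter fun d => ¬ IsSquare d := by
    intro d _
    rw [Finset.mem_union, Finset.mem_insert, Finset.mem_filter]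
    by_cases hd : IsSquare d
    · left
      by_cases hd0 : d = 0
      · exact Or.inl hd0
      · right
        obtain ⟨r, rfl⟩ := hd
        rw [Finset.mem_image]
        refine ⟨r, ?_, by ring⟩
        rw [hs, Finset.mem_filter]
        refine ⟨Finset.mem_univ _, ?_⟩
        rintro rfl
        exact hd0 (mul_zero _)
    · exact Or.inr ⟨Finset.mem_univ _, hd⟩
  have h5 := (Finset.card_le_card h4).trans (Finset.card_union_le _ _)
  have h6 := Finset.card_insert_le 0 (s.image fun x => x ^ 2)
  have h7 : {d : k | ¬ IsSquare d}.ncard = (Finset.univ.filter fun d : k => ¬ IsSquare d).card := by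
    rw [← Set.ncard_coe_finset]
    congr 1
    ext d
    simp
  rw [Finset.card_univ, ← Nat.card_eq_fintype_card] at h5
  omega

theorem card_SqT (h : (6 : k) ≠ 0) : Nat.card k * (Nat.card k - 1) ≤ 2 * (SqT k).ncard := by
  have h2 : (2 : k) ≠ 0 := by
    intro h3
    apply h
    rw [show (6 : k) = 2 * 3 by norm_num, h3, zero_mul]
  have h4 : (4 : k) ≠ 0 := by
    rw [show (4 : k) = 2 * 2 by norm_num]
    exact mul_ne_zero h2 h2
  have hN := card_nonsq k h2
  set f : k × k → k × k := fun p => (-(p.2 + 3 * p.1 ^ 2) / 4,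
    - p.1 ^ 3 - (-(p.2 + 3 * p.1 ^ 2) / 4) * p.1) with hf
  have hfa : ∀ p : k × k, -3 * p.1 ^ 2 - 4 * (f p).1 = p.2 := by
    intro p
    rw [hf]
    simp only
    field_simp
    ring
  have hfr : ∀ p : k × k, p.1 ^ 3 + (f p).1 * p.1 + (f p).2 = 0 := by
    intro p
    rw [hf]
    simp only
    ring
  have hmaps : f '' ((Set.univ : Set k) ×ˢ {d : k | ¬ IsSquare d}) ⊆ SqT k := by
    rintro _ ⟨p, ⟨-, hp⟩, rfl⟩
    refine ⟨p.1, hfr p, ?_⟩
    rw [hfa p]
    exact hp
  have hinj : Set.InjOn f ((Set.univ : Set k) ×ˢ {d : k | ¬ IsSquare d}) := by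
    rintro p ⟨-, hp⟩ p' ⟨-, hp'⟩ hpp
    have e1 := hfr p
    have e2 := hfr p'
    have e3 := hfa p
    have e4 := hfa p'
    rw [← hpp] at e2 e4
    have ht : p.1 = p'.1 := by
      by_contra hne
      have hne' : p'.1 - p.1 ≠ 0 := sub_ne_zero.2 fun h5 => hne h5.symm
      have e5 : (p'.1 - p.1) * (p'.1 ^ 2 + p.1 * p'.1 + p.1 ^ 2 + (f p).1) = 0 := by
        linear_combination e2 - e1
      have e6 := (mul_eq_zero.1 e5).resolve_left hne'
      apply hp
      refine ⟨2 * p'.1 + p.1, ?_⟩
      linear_combination (-4) * e6 - e3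
    refine Prod.ext ht ?_
    rw [← e3, ← e4, ht]
  have h5 := Set.ncard_le_ncard hmaps (Set.toFinite _)
  rw [Set.InjOn.ncard_image hinj, Set.ncard_prod, Set.ncard_univ] at h5
  have h6 : Nat.card k - 1 ≤ 2 * {d : k | ¬ IsSquare d}.ncard := by omega
  calc Nat.card k * (Nat.card k - 1) ≤ Nat.card k * (2 * {d : k | ¬ IsSquare d}.ncard) :=
        Nat.mul_le_mul_left _ h6
    _ = 2 * (Nat.card k * {d : k | ¬ IsSquare d}.ncard) := by ring
    _ ≤ 2 * (SqT k).ncard := Nat.mul_le_mul_left _ h5

theorem exists_irr : ∃ a b : k, ∀ t : k, t ^ 3 + a * t + b ≠ 0 := by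
  have h1 : ¬ Function.Injective (fun t : k => t ^ 3 - t) := by
    intro h
    have h2 : (fun t : k => t ^ 3 - t) 0 = (fun t : k => t ^ 3 - t) 1 := by
      simp
    exact zero_ne_one (h h2)
  have h3 : ¬ Function.Surjective (fun t : k => t ^ 3 - t) := fun h =>
    h1 (Finite.injective_iff_surjective.2 h)
  rw [Function.Surjective] at h3
  push Not at h3
  obtain ⟨c, hc⟩ := h3
  refine ⟨-1, -c, fun t h4 => hc t ?_⟩
  linear_combination h4

end H36PP
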