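import Pool.Agent.H36.PP.Df
import Pool.Agent.H36.PP.Nb
import Pool.Agent.H36.PP.Lo
import Pool.Agent.H42.PC.BCnt

/-!
Row Ta (MP_78d38b_PP, block M). The two tail estimates at one prime. Use only the STATEMENTS of Nb and Lo (`pow_le_of_mem`, `Bx_finite`,
`bx_finite`, `two_classes`). `n = finrank ℚ K`.

PROOF of tail_a. `q := Nv v > 0`. If the set is empty the bound is trivial. Otherwise let `p` be an element: `p.1 ≠ 0`, `p.1 ∈ v`,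
`p.1 ∈ bx K (X^2)`, so (`pow_le_of_mem` with `e = 1`) `q ≤ (X^2)^n = X^(2n)`, and `X^(2n) ≤ X^(3n)` as `1 ≤ X`. The set is contained in
`{a ∈ bx K (X^2) | a - 0 ∈ v} ×ˢ {b ∈ bx K (X^3) | b - 0 ∈ v}`, so by `hU` its number of elements is at most
`C (X^(2n)/q + 1) * C (X^(3n)/q + 1) ≤ C (2 X^(2n)/q) * C (2 X^(3n)/q) = 4 C^2 X^(5n)/q^2`.

PROOF of tail_b. The set is contained in the union over `A ∈ bx K (X^2)`, `A ∉ v`, of `{A} ×ˢ {B ∈ bx K (X^3) | dsc A B ∈ v^2}`; for each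
such `A`, `two_classes` gives `B₀` with: `{B ∈ bx K (X^3) | dsc A B ∈ v^2} ⊆ {B ∈ bx K (X^3) | B - B₀ ∈ v^2} ∪ {B ∈ bx K (X^3) | B - (-B₀) ∈ v^2}`, at
most `2 C (X^(3n)/q^2 + 1)` elements (`hU` with the ideal `v.asIdeal ^ 2`, `absNorm = q^2` by `map_pow`). The number of `A` is at most
`C (X^(2n)/1 + 1) ≤ 2 C X^(2n)` (`hU` with the ideal `⊤`, `Ideal.absNorm_top`). Total
`≤ 2 C X^(2n) * 2 C (X^(3n)/q^2 + 1) = 4 C^2 (X^(5n)/q^2 + X^(2n))`. (Cardinality of a union over a finite set with bounded pieces: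
`BCnt_finite_le` in `Pool/Agent/H42/PC/BCnt.lean` or `Finset.card_biUnion_le_card_mul`.)
-/

set_option autoImplicit false
set_option linter.unusedSectionVars false

open NumberField IsDedekindDomain H76PP

namespace H36PP

variable {K : Type} [Field K] [NumberField K]

lemma Ta_pos (v : HeightOneSpectrum (𝓞 K)) : (0 : ℝ) < (Nv v : ℝ) := by
  have h1 : Nv v ≠ 0 := fun h => v.ne_bot (Ideal.absNorm_eq_zero_iff.1 h)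
  exact_mod_cast Nat.pos_of_ne_zero h1

theorem tail_a {C : ℝ} (hC : 0 ≤ C) (hU : LatU K C) {X : ℝ} (hX : 1 ≤ X)
    (v : HeightOneSpectrum (𝓞 K)) :
    ({p : 𝓞 K × 𝓞 K | p ∈ Bx K X ∧ p.1 ≠ 0 ∧ p.1 ∈ v.asIdeal ∧ p.2 ∈ v.asIdeal}.ncard : ℝ) ≤
      4 * C ^ 2 * (X ^ (5 * Module.finrank ℚ K) * (1 / (Nv v : ℝ) ^ 2)) := by
  obtain ⟨n, hn⟩ : ∃ n : ℕ, n = Module.finrank ℚ K := ⟨_, rfl⟩
  obtain ⟨q, hq⟩ : ∃ q : ℝ, q = (Nv v : ℝ) := ⟨_, rfl⟩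
  have hq0 : 0 < q := by rw [hq]; exact Ta_pos v
  have hX0 : 0 ≤ X := by linarith
  have hR : 0 ≤ 4 * C ^ 2 * (X ^ (5 * n) * (1 / q ^ 2)) := by positivity
  rw [← hn, ← hq]
  rcases Set.eq_empty_or_nonempty
    {p : 𝓞 K × 𝓞 K | p ∈ Bx K X ∧ p.1 ≠ 0 ∧ p.1 ∈ v.asIdeal ∧ p.2 ∈ v.asIdeal} with hS | hS
  · rw [hS, Set.ncard_empty, Nat.cast_zero]
    exact hR
  · obtain ⟨p, hp, hp0, hpv, -⟩ := hS
    have h1 := pow_le_of_mem (e := 1) (sq_nonneg X) hp.1 hp0 (by rw [pow_one]; exact hpv)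
    rw [pow_one, ← hn, ← hq, ← pow_mul] at h1
    have h2 : X ^ (2 * n) ≤ X ^ (3 * n) := pow_le_pow_right₀ hX (by omega)
    have hsub : {p : 𝓞 K × 𝓞 K | p ∈ Bx K X ∧ p.1 ≠ 0 ∧ p.1 ∈ v.asIdeal ∧ p.2 ∈ v.asIdeal} ⊆
        {a : 𝓞 K | a ∈ bx K (X ^ 2) ∧ a - 0 ∈ v.asIdeal} ×ˢ
          {a : 𝓞 K | a ∈ bx K (X ^ 3) ∧ a - 0 ∈ v.asIdeal} := by
      rintro p ⟨hp, -, h3, h4⟩
      exact ⟨⟨hp.1, by rwa [sub_zero]⟩, ⟨hp.2, by rwa [sub_zero]⟩⟩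
    have hf1 : {a : 𝓞 K | a ∈ bx K (X ^ 2) ∧ a - 0 ∈ v.asIdeal}.Finite :=
      (bx_finite K (X ^ 2)).subset fun a ha => ha.1
    have hf2 : {a : 𝓞 K | a ∈ bx K (X ^ 3) ∧ a - 0 ∈ v.asIdeal}.Finite :=
      (bx_finite K (X ^ 3)).subset fun a ha => ha.1
    have h3 := Set.ncard_le_ncard hsub (hf1.prod hf2)
    rw [Set.ncard_prod] at h3
    have h4 := hU v.asIdeal v.ne_bot 0 (X ^ 2) (by positivity)
    have h5 := hU v.asIdeal v.ne_bot 0 (X ^ 3) (by positivity)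
    have hN : (Ideal.absNorm v.asIdeal : ℝ) = q := hq.symm
    rw [hN, ← hn, ← pow_mul] at h4 h5
    have h6 : C * (X ^ (2 * n) / q + 1) ≤ 2 * C * (X ^ (2 * n) / q) := by
      have : 1 ≤ X ^ (2 * n) / q := (one_le_div hq0).2 h1
      nlinarith
    have h7 : C * (X ^ (3 * n) / q + 1) ≤ 2 * C * (X ^ (3 * n) / q) := by
      have : 1 ≤ X ^ (3 * n) / q := (one_le_div hq0).2 (h1.trans h2)
      nlinarith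
    have h8 : (({p : 𝓞 K × 𝓞 K | p ∈ Bx K X ∧ p.1 ≠ 0 ∧ p.1 ∈ v.asIdeal ∧
        p.2 ∈ v.asIdeal}.ncard : ℕ) : ℝ) ≤
        ({a : 𝓞 K | a ∈ bx K (X ^ 2) ∧ a - 0 ∈ v.asIdeal}.ncard : ℝ) *
          ({a : 𝓞 K | a ∈ bx K (X ^ 3) ∧ a - 0 ∈ v.asIdeal}.ncard : ℝ) := by
      exact_mod_cast h3
    refine h8.trans ((mul_le_mul (h4.trans h6) (h5.trans h7) (Nat.cast_nonneg _)
      (by positivity)).trans (le_of_eq ?_))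
    have h9 : 5 * n = 2 * n + 3 * n := by ring
    rw [h9, pow_add]
    field_simp
    ring

theorem tail_b {C : ℝ} (hC : 0 ≤ C) (hU : LatU K C) {X : ℝ} (hX : 1 ≤ X)
    {v : HeightOneSpectrum (𝓞 K)} (h : (6 : 𝓞 K) ∉ v.asIdeal) :
    ({p : 𝓞 K × 𝓞 K | p ∈ Bx K X ∧ p.1 ∉ v.asIdeal ∧ dsc p.1 p.2 ∈ v.asIdeal ^ 2}.ncard : ℝ) ≤
      4 * C ^ 2 * (X ^ (5 * Module.finrank ℚ K) * (1 / (Nv v : ℝ) ^ 2) +
        X ^ (2 * Module.finrank ℚ K)) := by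
  obtain ⟨n, hn⟩ : ∃ n : ℕ, n = Module.finrank ℚ K := ⟨_, rfl⟩
  obtain ⟨q, hq⟩ : ∃ q : ℝ, q = (Nv v : ℝ) := ⟨_, rfl⟩
  have hq0 : 0 < q := by rw [hq]; exact Ta_pos v
  have hX0 : 0 ≤ X := by linarith
  rw [← hn, ← hq]
  obtain ⟨b, hb⟩ : ∃ b : ℝ, b = C * (X ^ (3 * n) / q ^ 2 + 1) := ⟨_, rfl⟩
  have hb0 : 0 ≤ b := by rw [hb]; positivity
  have hv2 : v.asIdeal ^ 2 ≠ ⊥ := pow_ne_zero 2 v.ne_bot
  have hcl : ∀ B₀ : 𝓞 K, ({a : 𝓞 K | a ∈ bx K (X ^ 3) ∧ a - B₀ ∈ v.asIdeal ^ 2}.ncard : ℝ) ≤ b := by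
    intro B₀
    have h1 := hU (v.asIdeal ^ 2) hv2 B₀ (X ^ 3) (by positivity)
    have hN : (Ideal.absNorm (v.asIdeal ^ 2) : ℝ) = q ^ 2 := by
      rw [map_pow, Nat.cast_pow, hq]
      rfl
    rw [hN, ← hn, ← pow_mul] at h1
    rw [hb]
    exact h1
  have hfin : ∀ B₀ : 𝓞 K, {a : 𝓞 K | a ∈ bx K (X ^ 3) ∧ a - B₀ ∈ v.asIdeal ^ 2}.Finite :=
    fun B₀ => (bx_finite K (X ^ 3)).subset fun a ha => ha.1
  have hs : {A : 𝓞 K | A ∈ bx K (X ^ 2) ∧ A ∉ v.asIdeal}.Finite :=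
    (bx_finite K (X ^ 2)).subset fun a ha => ha.1
  have hpiece : ∀ A ∈ {A : 𝓞 K | A ∈ bx K (X ^ 2) ∧ A ∉ v.asIdeal},
      ({p : 𝓞 K × 𝓞 K | p.1 = A ∧ p.2 ∈ bx K (X ^ 3) ∧ dsc A p.2 ∈ v.asIdeal ^ 2}).Finite ∧
      ({p : 𝓞 K × 𝓞 K | p.1 = A ∧ p.2 ∈ bx K (X ^ 3) ∧ dsc A p.2 ∈ v.asIdeal ^ 2}).ncard ≤
        ⌊2 * b⌋₊ := by
    rintro A ⟨-, hA⟩
    obtain ⟨B₀, hB⟩ := two_classes h hA
    have hsub : {p : 𝓞 K × 𝓞 K | p.1 = A ∧ p.2 ∈ bx K (X ^ 3) ∧ dsc A p.2 ∈ v.asIdeal ^ 2} ⊆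
        (fun B => (A, B)) '' ({a : 𝓞 K | a ∈ bx K (X ^ 3) ∧ a - B₀ ∈ v.asIdeal ^ 2} ∪
          {a : 𝓞 K | a ∈ bx K (X ^ 3) ∧ a - (-B₀) ∈ v.asIdeal ^ 2}) := by
      rintro ⟨A', B⟩ ⟨h1, h2, h3⟩
      have h1' : A' = A := h1
      refine ⟨B, ?_, by rw [h1']⟩
      rcases hB B h3 with h4 | h4
      · exact Or.inl ⟨h2, h4⟩
      · exact Or.inr ⟨h2, h4⟩
    have hfu := (hfin B₀).union (hfin (-B₀))
    refine ⟨(hfu.image _).subset hsub, Nat.le_floor ?_⟩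
    have h1 := Set.ncard_le_ncard hsub (hfu.image _)
    have h2 := Set.ncard_image_le (f := fun B => (A, B)) hfu
    have h3 := Set.ncard_union_le {a : 𝓞 K | a ∈ bx K (X ^ 3) ∧ a - B₀ ∈ v.asIdeal ^ 2}
      {a : 𝓞 K | a ∈ bx K (X ^ 3) ∧ a - (-B₀) ∈ v.asIdeal ^ 2}
    have h4 := h1.trans (h2.trans h3)
    have h5 : (({p : 𝓞 K × 𝓞 K | p.1 = A ∧ p.2 ∈ bx K (X ^ 3) ∧
        dsc A p.2 ∈ v.asIdeal ^ 2}.ncard : ℕ) : ℝ) ≤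
        ({a : 𝓞 K | a ∈ bx K (X ^ 3) ∧ a - B₀ ∈ v.asIdeal ^ 2}.ncard : ℝ) +
          ({a : 𝓞 K | a ∈ bx K (X ^ 3) ∧ a - (-B₀) ∈ v.asIdeal ^ 2}.ncard : ℝ) := by
      exact_mod_cast h4
    have h6 := hcl B₀
    have h7 := hcl (-B₀)
    linarith
  have hS := (Pool.Agent.H42.PC.BCnt_finite_le hs hpiece (t := {p : 𝓞 K × 𝓞 K | p ∈ Bx K X ∧
    p.1 ∉ v.asIdeal ∧ dsc p.1 p.2 ∈ v.asIdeal ^ 2}) (by
      rintro p ⟨hp, h1, h2⟩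
      exact Set.mem_biUnion (x := p.1) ⟨hp.1, h1⟩ ⟨rfl, hp.2, h2⟩)).2
  have h1 := hU ⊤ top_ne_bot 0 (X ^ 2) (by positivity)
  rw [Ideal.absNorm_top, Nat.cast_one, div_one, ← hn, ← pow_mul] at h1
  have h2 : ({A : 𝓞 K | A ∈ bx K (X ^ 2) ∧ A ∉ v.asIdeal}.ncard : ℝ) ≤ 2 * C * X ^ (2 * n) := by
    have h3 := Set.ncard_le_ncard (s := {A : 𝓞 K | A ∈ bx K (X ^ 2) ∧ A ∉ v.asIdeal})
      (t := {a : 𝓞 K | a ∈ bx K (X ^ 2) ∧ a - 0 ∈ (⊤ : Ideal (𝓞 K))})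
      (fun a ha => ⟨ha.1, Submodule.mem_top⟩) ((bx_finite K (X ^ 2)).subset fun a ha => ha.1)
    have h4 : ({A : 𝓞 K | A ∈ bx K (X ^ 2) ∧ A ∉ v.asIdeal}.ncard : ℝ) ≤
        ({a : 𝓞 K | a ∈ bx K (X ^ 2) ∧ a - 0 ∈ (⊤ : Ideal (𝓞 K))}.ncard : ℝ) := by
      exact_mod_cast h3
    have h5 : 1 ≤ X ^ (2 * n) := one_le_pow₀ hX
    have h6 : C * (X ^ (2 * n) + 1) ≤ 2 * C * X ^ (2 * n) := by nlinarith
    linarith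
  have h3 : (({p : 𝓞 K × 𝓞 K | p ∈ Bx K X ∧ p.1 ∉ v.asIdeal ∧
      dsc p.1 p.2 ∈ v.asIdeal ^ 2}.ncard : ℕ) : ℝ) ≤
      (⌊2 * b⌋₊ : ℝ) * ({A : 𝓞 K | A ∈ bx K (X ^ 2) ∧ A ∉ v.asIdeal}.ncard : ℝ) := by
    exact_mod_cast hS
  have h4 : (⌊2 * b⌋₊ : ℝ) ≤ 2 * b := Nat.floor_le (by linarith)
  refine h3.trans ((mul_le_mul h4 h2 (Nat.cast_nonneg _) (by linarith)).trans (le_of_eq ?_))
  have h9 : 5 * n = 2 * n + 3 * n := by ring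
  rw [h9, pow_add, hb]
  field_simp
  ring

end H36PP
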